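import Pool.Agent.P.MP_ff4c85_gt.T.Iface

/-! Step ASM. -/

set_option autoImplicit false

namespace Pool.Agent.P.MP_ff4c85_gt.T

open Set Filter Topology Real
open scoped ContDiff Classical

namespace ASMx

theorem HH_per (hL : Lam) (hS : Saw) (p : E) (n : ℤ × ℤ × ℤ) : HH (p - gam n) = HH p := by
  obtain ⟨a, b, c⟩ := n
  have hs : sin (p.2.1 - b * (2 * π)) = sin p.2.1 := sin_sub_int_mul_two_pi _ _
  simp only [HH, gam, Prod.fst_sub, Prod.snd_sub, hs]
  obtain ⟨k, rfl | rfl⟩ := Int.even_or_odd' c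
  · rw [← hL.per p.2.2 (-k), ← hL.per (p.2.2 - 6) (-k), ← hS.per p.1 (-(a + k)),
      ← hS.per (p.1 - PP / 2) (-(a + k))]
    push_cast
    congr 3 <;> congr 1 <;> ring
  · rw [← hL.per p.2.2 (-(k + 1)), ← hL.per (p.2.2 - 6) (-k), ← hS.per p.1 (-(a + k + 1)),
      ← hS.per (p.1 - PP / 2) (-(a + k)), add_comm (lam (p.2.2 + _) * _)]
    push_cast
    congr 3 <;> congr 1 <;> ring

theorem vout_per (hL : Lam) (hS : Saw) (p : E) (n : ℤ × ℤ × ℤ) : vout (p - gam n) = vout p := by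
  have h1 : fderiv ℝ HH (p - gam n) = fderiv ℝ HH p := by
    rw [← fderiv_comp_sub]
    exact congrArg (fun f => fderiv ℝ f p) (funext fun q => HH_per hL hS q n)
  have h2 : fderiv ℝ zz (p - gam n) = fderiv ℝ zz p := by
    rw [← fderiv_comp_sub, ← fderiv_sub_const (f := zz) (gam n).2.2]
    rfl
  rw [vout, vout, cr, cr, h1, h2]

theorem sel (hC : Core) (p : E) (n : ℤ × ℤ × ℤ) (h : p - gam n ∈ VV) :
    WW p = vin (p - gam n) ∧ kE p = kL (p - gam n) ∧
    xE p = xL (p - gam n) + (gam n).1 ∧ yE p = yL (p - gam n) + (gam n).2.1 ∧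
    zE p = zL (p - gam n) + (gam n).2.2 ∧ HE p = HL (p - gam n) := by
  have h' : ∃ n, p - gam n ∈ VV := ⟨n, h⟩
  have e : h'.choose = n := hC.disj p _ _ h'.choose_spec h
  simp only [WW, kE, xE, yE, zE, HE, dif_pos h', e, and_self]

theorem opn (hG : Geo) (hC : Core) : IsOpen OO := by
  obtain ⟨δ, hδ, hs⟩ := hC.cpt.exists_thickening_subset_open hG.opn hC.sub
  rw [isOpen_iff_mem_nhds]
  intro p hp
  by_cases h : ∃ n, p - gam n ∈ VV
  · obtain ⟨n, hn⟩ := h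
    have ho : IsOpen ((fun q : E => q - gam n) ⁻¹' (VV \ Sc)) :=
      (hG.opn.sdiff hC.cpt.isClosed).preimage (continuous_id.sub continuous_const)
    refine mem_of_superset (ho.mem_nhds ⟨hn, hp n⟩) fun q hq m hm => ?_
    obtain rfl := hC.disj q _ _ hq.1 (hC.sub hm)
    exact hq.2 hm
  · refine mem_of_superset (Metric.ball_mem_nhds p hδ) fun q hq m hm => h ⟨m, hs ?_⟩
    refine Metric.mem_thickening_iff.2 ⟨_, hm, ?_⟩
    rw [dist_sub_right, dist_comm]
    exact hq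

end ASMx

theorem p_ASM (hLAM : S_LAM) (hTRI : S_TRI) (hSAW : S_SAW) (hGEO : S_GEO) (hCORE : S_CORE) (hMAT : S_MAT) (hCOL : S_COL) :
    S_ASM := by
  refine ⟨?_, ASMx.HH_per hLAM hSAW, ASMx.sel hCORE, fun p hp => ?_, ASMx.opn hGEO hCORE,
    fun p => ?_, fun p n => ?_, fun p hp => ?_⟩
  · have := hSAW.sm
    unfold HH
    fun_prop
  · by_cases h : ∃ n, p - gam n ∈ VV
    · obtain ⟨n, hn⟩ := h
      rw [(ASMx.sel hCORE p n hn).1, hMAT _ hn (hp n), ASMx.vout_per hLAM hSAW]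
    · exact dif_neg h
  · by_cases h : ∃ n, p - gam n ∈ VV
    · exact .inr h
    · exact .inl fun n hn => h ⟨n, hCORE.sub hn⟩
  · have e : ∀ m, p + gam n - gam (m + n) = p - gam m := fun m => by
      rw [gam_add]
      abel
    by_cases h : ∃ m, p - gam m ∈ VV
    · obtain ⟨m, hm⟩ := h
      rw [(ASMx.sel hCORE p m hm).1, (ASMx.sel hCORE (p + gam n) (m + n) (by rwa [e])).1, e]
    · have h' : ¬∃ m, p + gam n - gam m ∈ VV := fun ⟨m, hm⟩ =>
        h ⟨m - n, by rwa [← e, sub_add_cancel]⟩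
      rw [WW, WW, dif_neg h, dif_neg h', ← ASMx.vout_per hLAM hSAW (p + gam n) n,
        add_sub_cancel_right]
  · by_cases h : ∃ n, p - gam n ∈ VV
    · obtain ⟨n, hn⟩ := h
      obtain ⟨-, h1, h2, h3, h4, h5⟩ := ASMx.sel hCORE p n hn
      obtain ⟨g1, g2, g3, g4, c, hc, g5⟩ := hCOL _ hn (hp n)
      refine ⟨h1.trans g1, ?_, ?_, ?_, c, hc, ?_⟩
      · rw [h2, g2, Prod.fst_sub, sub_add_cancel]
      · rw [h3, g3, Prod.snd_sub, Prod.fst_sub, sub_add_cancel]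
      · have e : (gam n).2.2 = n.2.2 * 6 := rfl
        rw [h4, e, hTRI.cl_add, g4, ← hTRI.cl_add, Prod.snd_sub, Prod.snd_sub, e, sub_add_cancel]
      · rw [h5, g5, ASMx.HH_per hLAM hSAW]
    · simp only [kE, xE, yE, zE, HE, dif_neg h, true_and]
      exact ⟨1, one_pos, (one_mul _).symm⟩

end Pool.Agent.P.MP_ff4c85_gt.T
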