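import Pool.Agent.P.MP_ff4c85_gt.T.Iface

/-! Step BAR. -/

set_option autoImplicit false

namespace Pool.Agent.P.MP_ff4c85_gt.T

open Set Filter Topology Real
open scoped ContDiff Classical

theorem p_BAR (hTRI : S_TRI) (hGEO : S_GEO) (hASM : S_ASM) (hBO : S_BO) (hBI1 : S_BI1) (hBI2 : S_BI2) :
    S_BAR := by
  intro p hk
  by_cases hex : ∃ n, p - gam n ∈ VV
  · obtain ⟨n, hn⟩ := hex
    obtain ⟨-, e1, e2, e3, e4, e5⟩ := hASM.sel p n hn
    have hq1 : (p - gam n).1 = p.1 - (gam n).1 := rfl
    have hq2 : (p - gam n).2.1 = p.2.1 - (gam n).2.1 := rfl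
    have hq3 : (p - gam n).2.2 = p.2.2 - (gam n).2.2 := rfl
    have hx := hGEO.x_lt _ hn
    have hz := hGEO.z_lt _ hn
    have hxi : |xi (p - gam n)| < 3 * dl := hn.1
    rw [e1] at hk
    have g1 : (gam n).1 = n.1 * PP + n.2.2 * (PP / 2) := rfl
    have g2 : (gam n).2.1 = n.2.1 * (2 * π) := rfl
    have g3 : (gam n).2.2 = n.2.2 * 6 := rfl
    refine ⟨?_, ?_, ?_, fun a ha => ⟨fun m hm => ?_, fun j m hj hm => ?_⟩⟩
    · have h1 : xE p - p.1 = xL (p - gam n) - (p - gam n).1 := by rw [e2, hq1]; ring
      rw [h1]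
      unfold xL
      have hd : dl < 1 / 10 := by unfold dl; norm_num
      have h2 := abs_lt.1 hx
      have h3 := abs_lt.1 hxi
      split_ifs with h
      · unfold sn
        split_ifs <;> rw [abs_le] <;> constructor <;> linarith [h2.1, h2.2, h3.1, h3.2]
      · rw [sub_self, abs_zero]; norm_num
    · have h1 : yE p - p.2.1 =
          π / 2 * (sg (hc (gg (p - gam n))) - sg (hh (p - gam n))) := by
        rw [e3]; unfold yL tau; rw [hq2]; ring
      rw [h1, abs_le]
      have h2 := sg_le_one (hc (gg (p - gam n)))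
      have h3 := neg_one_le_sg (hc (gg (p - gam n)))
      have h4 := sg_le_one (hh (p - gam n))
      have h5 := neg_one_le_sg (hh (p - gam n))
      have h6 := pi_le_four
      have h7 := pi_pos
      constructor <;> nlinarith
    · have h1 : zE p - p.2.2 = ze (gg (p - gam n)) - (p - gam n).2.2 := by
        rw [e4, hq3]; unfold zL; ring
      have h2 := hTRI.sum (gg (p - gam n))
      have h3 := abs_nonneg (hc (gg (p - gam n)))
      have h4 := abs_le.1 (show |ze (gg (p - gam n))| ≤ 5 by linarith)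
      have h5 := abs_lt.1 hz
      rw [h1, abs_le]
      constructor <;> linarith [h4.1, h4.2, h5.1, h5.2]
    · rw [e5]
      refine hBI1 _ hn hk a (m - n.2.1) ha ?_
      rw [e3, g2] at hm
      push_cast
      linarith
    · rw [e5]
      refine hBI2 _ hn hk a (j - n.2.2) (m - n.1) ha ?_ ?_
      · rw [e4, g3] at hj
        rw [← hj]
        congr 1
        push_cast
        ring
      · rw [e2, g1] at hm
        push_cast
        linarith
  · have hO : p ∈ OO := (hASM.cover p).resolve_right hex
    have e2 : xE p = p.1 := dif_neg hex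
    have e3 : yE p = p.2.1 := dif_neg hex
    have e4 : zE p = p.2.2 := dif_neg hex
    have e5 : HE p = HH p := dif_neg hex
    rw [e2, e3, e4, e5, sub_self, sub_self, sub_self, abs_zero]
    refine ⟨by norm_num, by norm_num, by norm_num, fun a ha => ⟨fun m hm => ?_, fun j m hj hm => ?_⟩⟩
    · exact hBO.1 p a m ha hm
    · exact hBO.2 p hO a j m ha hj hm

end Pool.Agent.P.MP_ff4c85_gt.T
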