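import Pool.Agent.P.MP_ff4c85_gt.T.Iface

/-! Step BI1. -/

set_option autoImplicit false

namespace Pool.Agent.P.MP_ff4c85_gt.T

open Set Filter Topology Real
open scoped ContDiff Classical

namespace BI1x

theorem bb_zero : bb 0 = 0 := by simp [bb]

theorem one_add_SS (t : ℝ) : 1 + SS t = (t + 1) ^ 2 * (2 - t) / 2 := by unfold SS; ring

theorem one_sub_SS (t : ℝ) : 1 - SS t = (t - 1) ^ 2 * (2 + t) / 2 := by unfold SS; ring

theorem SS_ge {t : ℝ} (h : |t| < 3) : -18 ≤ SS t := by
  have h1 := abs_lt.1 h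
  have h2 : t ^ 2 ≤ 9 := by nlinarith
  unfold SS
  nlinarith

/-- the plus tube -/
theorem plus {l k ξ τ : ℝ} (hl : 0 ≤ l) (hk : 0 < k) (hk1 : k ≤ 1) (h : sM 1 ξ τ < 1 / 9) :
    0 < 1 + (cM 1 l + k * FM 1 ξ τ) := by
  obtain ⟨h1, h2, -, -⟩ := tube (.inl rfl) h 0 0
  have h3 := abs_lt.1 h1
  have h4 := bb_nonneg τ
  have h5 : 0 ≤ 1 - SS (ξ / dl) := by
    rw [one_sub_SS]
    have : 0 ≤ 2 + ξ / dl := by linarith
    positivity
  have h6 : 1 - SS (ξ / dl) ≤ 19 := by
    have := SS_ge (t := ξ / dl) (abs_lt.2 ⟨by linarith, by linarith⟩)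
    linarith
  have h7 : -(1 / 2) ≤ FM 1 ξ τ := by
    unfold FM; unfold dl at *; nlinarith
  have h8 : FM 1 ξ τ ≤ 0 := by
    unfold FM; unfold dl at *; nlinarith
  have h9 : 0 ≤ cM 1 l := by
    unfold cM dl; nlinarith
  nlinarith

/-- the minus tube -/
theorem minus {l ξ τ : ℝ} (hl1 : l ≤ 1) (hk : 0 < kM (-1) ξ τ) (h : sM (-1) ξ τ < 1 / 9)
    (hc : l = 0 ∨ τ = 0) : 0 < 1 + (cM (-1) l + kM (-1) ξ τ * FM (-1) ξ τ) := by
  obtain ⟨h1, h2, -, -⟩ := tube (.inr rfl) h 0 0
  have h3 := abs_lt.1 h1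
  have h4 := bb_nonneg τ
  have hk1 : kM (-1) ξ τ ≤ 1 := ka_le_one _
  have h5 : 0 ≤ 1 + SS (ξ / dl) := by
    rw [one_add_SS]
    have : 0 ≤ 2 - ξ / dl := by linarith
    positivity
  have hF : FM (-1) ξ τ = dl * (1 + SS (ξ / dl)) - bb τ := by unfold FM; ring
  rcases hc with rfl | rfl
  · have h6 : -(1 / 2) ≤ FM (-1) ξ τ := by
      rw [hF]; have := mul_nonneg dl_pos.le h5; unfold dl at *; linarith
    have h7 : cM (-1) 0 = -dl := by unfold cM; ring
    have h8 : -(1 / 2) ≤ kM (-1) ξ τ * FM (-1) ξ τ := by nlinarith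
    rw [h7]; unfold dl; linarith
  · have h6 := lt_of_ka_pos hk
    have h7 : 0 < (ξ / dl + 1) ^ 2 := by
      unfold sM at h6; rw [bb_zero, zero_div, add_zero, sub_neg_eq_add] at h6; linarith
    have h8 : 0 < 1 + SS (ξ / dl) := by
      rw [one_add_SS]
      have : 0 < 2 - ξ / dl := by linarith
      positivity
    have h9 : 0 < FM (-1) ξ 0 := by
      rw [hF, bb_zero, sub_zero]; exact mul_pos dl_pos h8
    have h10 : -1 ≤ cM (-1) l := by unfold cM dl; nlinarith
    have := mul_pos hk h9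
    linarith

/-- outside the tubes -/
theorem rest {l L ξ τ : ℝ} (hl : 0 ≤ l) (hl1 : l ≤ 1) (hL : 1 ≤ L) (hL2 : L ≤ 2)
    (hξ : |ξ| < 3 * dl) (hτ : |τ| < 1 / 20) (h : 1 / 9 ≤ sM (-1) ξ τ) (hc : l = 0 ∨ τ = 0) :
    0 < 1 + psiM l L ξ τ := by
  obtain ⟨t, rfl⟩ : ∃ t, ξ = t * dl := ⟨ξ / dl, by field_simp [dl_pos.ne']⟩
  have e : t * dl / dl = t := by field_simp [dl_pos.ne']
  have ht : |t| < 3 := by
    rw [abs_mul, abs_of_pos dl_pos] at hξ
    exact lt_of_mul_lt_mul_right hξ dl_pos.le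
  have ht' := abs_lt.1 ht
  have hS := SS_ge ht
  have hb0 := be_nonneg t
  have hb1 := be_le_one t
  have hLt : -6 ≤ L * t ∧ L * t ≤ 6 := ⟨by nlinarith, by nlinarith⟩
  unfold psiM
  rw [e]
  have key : ∀ c : ℝ, 0 ≤ c → c ≤ 1 → -(24 * dl) ≤ be t * (dl * SS t + L * (t * dl)) * c := by
    intro c c0 c1
    have h1 : 0 ≤ be t * c := mul_nonneg hb0 c0
    have h2 : be t * c ≤ 1 := mul_le_one₀ hb1 c0 c1
    have h3 : -24 ≤ be t * c * (SS t + L * t) := by nlinarith [hLt.1]
    have h4 : be t * (dl * SS t + L * (t * dl)) * c = dl * (be t * c * (SS t + L * t)) := by ring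
    rw [h4]; nlinarith [dl_pos]
  have hLd : L * (t * dl) ≤ 6 * dl := by nlinarith [dl_pos, hLt.2]
  rcases hc with rfl | rfl
  · have h1 := key _ (chi_nonneg τ) (chi_le_one τ)
    have h2 := bb_le τ
    have h3 : τ ^ 2 ≤ 1 / 400 := by rw [← sq_abs]; nlinarith [abs_nonneg τ]
    unfold dl at *
    linarith
  · have hchi : chi 0 = 1 := chi_one (by rw [bb_zero]; norm_num)
    rcases le_total 0 t with h0 | h0
    · have h1 := key _ (chi_nonneg 0) (chi_le_one 0)
      have h2 : 0 ≤ l * (1 - dl) * st t :=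
        mul_nonneg (mul_nonneg hl (by unfold dl; norm_num)) (st_nonneg h0)
      rw [bb_zero]
      unfold dl at *
      linarith
    · rw [hchi, bb_zero]
      have h1 : 0 < (t + 1) ^ 2 := by
        unfold sM at h; rw [bb_zero, zero_div, add_zero, e, sub_neg_eq_add] at h; linarith
      have h2 : 0 < 1 + SS t := by
        rw [one_add_SS]
        have : 0 < 2 - t := by linarith
        positivity
      have h3 : -1 ≤ l * st t := by nlinarith [neg_one_le_st t, st_nonpos h0]
      have h4 : 0 < 1 + be t * SS t := by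
        rcases hb0.eq_or_lt with h5 | h5
        · rw [← h5]; norm_num
        · nlinarith [mul_pos h5 h2]
      have h5 : 0 ≤ -(L * t) * (1 - be t) := mul_nonneg (by nlinarith) (by linarith)
      have h6 : 1 + (l * (1 - dl) * st t - L * (t * dl) - 0 + be t * (dl * SS t + L * (t * dl)) * 1) =
          (1 - dl) * (1 + l * st t) + dl * ((1 + be t * SS t) + -(L * t) * (1 - be t)) := by ring
      rw [h6]
      have h7 : 0 ≤ (1 - dl) * (1 + l * st t) := mul_nonneg (by unfold dl; norm_num) (by linarith)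
      have h8 : 0 < dl * ((1 + be t * SS t) + -(L * t) * (1 - be t)) :=
        mul_pos dl_pos (by linarith)
      linarith

end BI1x

theorem p_BI1 (hLAM : S_LAM) (hTRI : S_TRI) (hGV : S_GV) :
    S_BI1 := by
  intro q hq hk a n ha hy
  obtain ⟨hξ, hτ, -⟩ := id hq
  have hτ' := abs_lt.1 hτ
  have s1 := sg_le_one (hc (gg q))
  have s2 := neg_one_le_sg (hc (gg q))
  have hpi := pi_gt_three
  unfold yL at hy
  have hn : n = 0 := by
    rcases lt_trichotomy n 0 with h | h | h
    · have : (n : ℝ) ≤ -1 := by exact_mod_cast Int.le_sub_one_of_lt h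
      rcases ha with rfl | rfl <;> nlinarith
    · exact h
    · have : (1 : ℝ) ≤ n := by exact_mod_cast h
      rcases ha with rfl | rfl <;> nlinarith
  subst hn
  simp only [Int.cast_zero, zero_mul, add_zero] at hy
  have hah : 0 < a * hc (gg q) := by
    by_contra h
    rcases ha with rfl | rfl
    · have := sg_nonpos (t := hc (gg q)) (by linarith)
      nlinarith
    · have := sg_nonneg (t := hc (gg q)) (by linarith)
      nlinarith
  have hc' : lam (ze (gg q)) = 0 ∨ tau q = 0 := by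
    by_cases h : |hc (gg q)| < 1 / 2
    · have h1 := hTRI.sum (gg q)
      have h2 := abs_nonneg (hc (gg q))
      exact .inl (hLAM.zero _ (by linarith) (by linarith))
    · right
      rcases ha with rfl | rfl
      · rw [abs_of_pos (by linarith)] at h
        rw [sg_one (by linarith)] at hy
        linarith
      · rw [abs_of_neg (by linarith)] at h
        rw [sg_neg_one (by linarith)] at hy
        linarith
  have main : 0 < 1 + psiP q := by
    unfold psiP
    split_ifs with h1 h2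
    · obtain ⟨-, -, h3, -⟩ := tube (.inl rfl) h1 0 0
      have h4 : kk (-1) q = 1 := ka_one (by linarith)
      unfold kL at hk
      rw [h4, mul_one] at hk
      exact BI1x.plus (lam_nonneg _) hk (ka_le_one _) h1
    · obtain ⟨-, -, h3, -⟩ := tube (.inr rfl) h2 0 0
      rw [neg_neg] at h3
      have h4 : kk 1 q = 1 := ka_one (by linarith)
      unfold kL at hk
      rw [h4, one_mul] at hk
      exact BI1x.minus (lam_le_one _) hk h2 hc'
    · have h3 : kk 1 q = 1 := ka_one (by unfold ss at h1; linarith)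
      have h4 : kk (-1) q = 1 := ka_one (by unfold ss at h2; linarith)
      have h5 : gg q = GG q := by unfold gg kL; rw [h3, h4]; simp
      rw [h5, (hGV q hq).2.2.2.2] at hc'
      exact BI1x.rest (lam_nonneg _) (lam_le_one _) (hLAM.La_ge _) (hLAM.La_le _) hξ hτ
        (not_lt.1 h2) hc'
  unfold HL
  rw [← mul_assoc]
  exact mul_pos hah main

end Pool.Agent.P.MP_ff4c85_gt.T
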