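import Pool.Agent.P.MP_ff4c85_gt.T.Iface

/-! Step BO. -/

set_option autoImplicit false

namespace Pool.Agent.P.MP_ff4c85_gt.T

open Set Filter Topology Real
open scoped ContDiff Classical

namespace BOx

theorem zz0 (hS : Saw) (x a : ℝ) (m : ℤ) (ha : a = 1 ∨ a = -1) (hx : x = a * dl + m * PP) :
    a * ZZ x = 1 - 2 * dl := by
  have h1 : x - m * PP = a * dl := by rw [hx]; ring
  have h2 : a * dl / dl = a := mul_div_cancel_right₀ a dl_pos.ne'
  rw [hS.loc x m (by
    rw [h1]
    rcases ha with rfl | rfl <;> rw [abs_le] <;> unfold PP dl <;> norm_num), h1, h2]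
  rcases ha with rfl | rfl
  · rw [st_one (by norm_num)]; ring
  · rw [st_neg_one (by norm_num)]; ring

theorem zz1 (hS : Saw) (x a : ℝ) (m : ℤ) (ha : a = 1 ∨ a = -1)
    (hx : x = a * dl + PP / 2 + m * PP) : a * ZZ x = -dl := by
  have h1 : x - m * PP = a * dl + PP / 2 := by rw [hx]; ring
  rw [hS.loc x m (by
    rw [h1]
    rcases ha with rfl | rfl <;> rw [abs_le] <;> unfold PP dl <;> norm_num), h1]
  rcases ha with rfl | rfl
  · rw [st_one (by unfold PP dl; norm_num)]; unfold PP; ring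
  · rw [st_one (by unfold PP dl; norm_num)]; unfold PP; ring

theorem near (y a : ℝ) (ha : a = 1 ∨ a = -1) (h : 1 + a * sin y ≤ 3 * dl) :
    ∃ k : ℤ, |y - k * (2 * π) - -a * (π / 2)| ≤ 1 / 40 := by
  have hp : 0 < 2 * π := by positivity
  refine ⟨round ((y + a * (π / 2)) / (2 * π)), ?_⟩
  set k := round ((y + a * (π / 2)) / (2 * π)) with hk
  set τ := y - k * (2 * π) - -a * (π / 2) with hτ
  have h1 : |τ| ≤ π := by
    have h2 := abs_sub_round ((y + a * (π / 2)) / (2 * π))
    have h3 : τ = ((y + a * (π / 2)) / (2 * π) - k) * (2 * π) := by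
      rw [hτ]; field_simp; ring
    rw [h3, abs_mul, abs_of_pos hp]
    nlinarith
  have h4 : cos τ = -(a * sin y) := by
    have h5 : τ = y + a * (π / 2) - k * (2 * π) := by rw [hτ]; ring
    rw [h5, cos_sub_int_mul_two_pi]
    rcases ha with rfl | rfl
    · rw [one_mul, one_mul, cos_add_pi_div_two]
    · rw [neg_one_mul, neg_one_mul, neg_neg, ← sub_eq_add_neg, cos_sub_pi_div_two]
  by_contra hlt
  have h6 : cos |τ| ≤ cos (1 / 40) :=
    cos_le_cos_of_nonneg_of_le_pi (by norm_num) h1 (not_le.1 hlt).le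
  have h7 := bb_ge (τ := 1 / 40) (by rw [abs_of_pos] <;> norm_num)
  rw [cos_abs, h4] at h6
  unfold bb at h7
  unfold dl at h
  linarith

end BOx

theorem p_BO (hLAM : S_LAM) (hSAW : S_SAW) (hCORE : S_CORE) :
    S_BO := by
  refine ⟨fun p a n ha hy => ?_, fun p hp a j n ha hl hx => ?_⟩
  · have h1 := abs_le.1 (hSAW.bound p.1 _ _ (lam_nonneg p.2.2) (lam_le_one _)
      (lam_nonneg (p.2.2 - 6)) (lam_le_one _))
    have h2 := dl_pos
    unfold HH
    rw [hy, sin_add_int_mul_two_pi]
    rcases ha with rfl | rfl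
    · rw [one_mul, one_mul, sin_pi_div_two]; linarith [h1.1]
    · rw [neg_one_mul (π / 2), sin_neg, sin_pi_div_two]; linarith [h1.2]
  · have h0 := dl_pos
    have h1 : 1 - 3 * dl + a * sin p.2.1 ≤ a * HH p := by
      have e : a * HH p = lam p.2.2 * (a * ZZ p.1) + lam (p.2.2 - 6) * (a * ZZ (p.1 - PP / 2)) +
          a * sin p.2.1 := by unfold HH; ring
      obtain ⟨k, rfl | rfl⟩ := Int.even_or_odd' j
      · have h2 : lam p.2.2 = 1 := by
          rw [← hl, ← hLAM.per _ (-k)]; congr 1; push_cast; ring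
        rw [e, h2, BOx.zz0 hSAW p.1 a (k + n) ha (by rw [hx]; push_cast; ring),
          BOx.zz1 hSAW (p.1 - PP / 2) a (k + n - 1) ha (by rw [hx]; push_cast; ring)]
        nlinarith [lam_le_one (p.2.2 - 6)]
      · have h2 : lam (p.2.2 - 6) = 1 := by
          rw [← hl, ← hLAM.per _ (-k)]; congr 1; push_cast; ring
        rw [e, h2, BOx.zz1 hSAW p.1 a (k + n) ha (by rw [hx]; push_cast; ring),
          BOx.zz0 hSAW (p.1 - PP / 2) a (k + n) ha (by rw [hx]; push_cast; ring)]
        nlinarith [lam_le_one p.2.2]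
    by_contra hle
    obtain ⟨k, hk⟩ := BOx.near p.2.1 a ha (by linarith)
    obtain ⟨i, hi⟩ := hLAM.near _ (by rw [hl]; norm_num)
    refine hp (n - i, k, j + 2 * i) (hCORE.leg_mem _ (-a) ?_ ?_ hk ?_)
    · rcases ha with rfl | rfl <;> simp
    · have : (p - gam (n - i, k, j + 2 * i)).2.2 = p.2.2 - j * 6 - i * 12 := by
        simp only [gam, Prod.snd_sub]; push_cast; ring
      rw [this]; linarith
    · have : (p - gam (n - i, k, j + 2 * i)).1 = a * dl := by
        simp only [gam, Prod.fst_sub]; rw [hx]; push_cast; ring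
      rw [this]
      rcases ha with rfl | rfl <;> rw [abs_le] <;> constructor <;> linarith

end Pool.Agent.P.MP_ff4c85_gt.T
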