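import Pool.Agent.P.MP_ff4c85_gt.T.Iface

/-! Step CHA. -/

set_option autoImplicit false

namespace Pool.Agent.P.MP_ff4c85_gt.T

open Set Filter Topology Real
open scoped ContDiff Classical

namespace CHAx

theorem z_cont : Continuous (fun q : E => q.2.2) := by fun_prop

theorem uu_sm (G : Geo) (p : E) (hp : p ∈ VV) : ContDiffAt ℝ ∞ uu p := by
  have hr := G.rad p hp
  have h1 : ContDiff ℝ ∞ (fun q : E => 1 + 2 * deriv cc q.2.2 * U0 q) := by fun_prop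
  have h2 := h1.contDiffAt.sqrt hr.ne'
  have h3 : ContDiff ℝ ∞ (fun q : E => 2 * U0 q) := by fun_prop
  exact h3.contDiffAt.div (contDiffAt_const.add h2) (by positivity)

theorem xi_sm (G : Geo) (p : E) (hp : p ∈ VV) : ContDiffAt ℝ ∞ xi p := by
  have h1 : ContDiff ℝ ∞ (fun q : E => cos (tau q) - 1) := by fun_prop
  exact h1.contDiffAt.sub (uu_sm G p hp)

theorem tt_sm (G : Geo) (p : E) (hp : p ∈ VV) : ContDiffAt ℝ ∞ tt p := by
  have h1 : ContDiff ℝ ∞ (fun q : E => q.2.2) := by fun_prop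
  have h2 : ContDiff ℝ ∞ (fun q : E => cc q.2.2) := by fun_prop
  exact h1.contDiffAt.add (h2.contDiffAt.mul (uu_sm G p hp))

theorem top_eq (G : Geo) (q : E) (hq : q ∈ VV) (hz : 33 / 8 < q.2.2) :
    tt q = 5 - hh q * sg (hh q) := by
  have h0 : |q.2.2| = q.2.2 := abs_of_pos (by linarith)
  unfold tt
  rw [cc_top hz.le, G.top q hq (by rw [h0]; exact hz.le), h0]
  ring

theorem bot_eq (G : Geo) (q : E) (hq : q ∈ VV) (hz : q.2.2 < -(33 / 8)) :
    tt q = hh q * sg (hh q) - 5 := by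
  have h0 : |q.2.2| = -q.2.2 := abs_of_neg (by linarith)
  unfold tt
  rw [cc_bot hz.le, G.top q hq (by rw [h0]; linarith), h0]
  ring

theorem side_pos (G : Geo) (q : E) (hq : q ∈ VV) (hz : |q.2.2| < 17 / 4) (h : 0 < hh q) :
    1 / 2 < hh q := by
  have := G.side q hq hz
  rwa [abs_of_pos h] at this

theorem side_neg (G : Geo) (q : E) (hq : q ∈ VV) (hz : |q.2.2| < 17 / 4) (h : ¬ 0 < hh q) :
    hh q < -(1 / 2) := by
  have := G.side q hq hz
  rw [abs_of_nonpos (not_lt.1 h)] at this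
  linarith

theorem ev_pos {q : E} {c : ℝ} (h : c < hh q) : ∀ᶠ r in 𝓝 q, c < hh r :=
  hh_sm.continuous.continuousAt.eventually (eventually_gt_nhds h)

theorem ev_neg {q : E} {c : ℝ} (h : hh q < c) : ∀ᶠ r in 𝓝 q, hh r < c :=
  hh_sm.continuous.continuousAt.eventually (eventually_lt_nhds h)

theorem ev_gt {q : E} {c : ℝ} (h : c < q.2.2) : ∀ᶠ r : E in 𝓝 q, c < r.2.2 :=
  z_cont.continuousAt.eventually (eventually_gt_nhds h)

theorem ev_lt {q : E} {c : ℝ} (h : q.2.2 < c) : ∀ᶠ r : E in 𝓝 q, r.2.2 < c :=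
  z_cont.continuousAt.eventually (eventually_lt_nhds h)

theorem top_pt (G : Geo) (q : E) (hq : q ∈ VV) (hz : 33 / 8 < q.2.2) :
    dG q = fderiv ℝ (fun r => 5 - hh r) q ∧ GG q = 5 - hh q := by
  have hV : ∀ᶠ r in 𝓝 q, r ∈ VV := G.opn.mem_nhds hq
  unfold dG GG
  by_cases h1 : 21 / 5 < q.2.2
  · rw [if_pos h1, if_pos h1, fderiv_const_sub]
    exact ⟨rfl, rfl⟩
  · have h2 : ¬ q.2.2 < -(21 / 5) := by linarith
    have h3 : |q.2.2| < 17 / 4 := abs_lt.2 ⟨by linarith, by linarith⟩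
    rw [if_neg h1, if_neg h1, if_neg h2, if_neg h2]
    by_cases h4 : 0 < hh q
    · have h5 : tt =ᶠ[𝓝 q] fun r => 5 - hh r := by
        filter_upwards [hV, ev_gt hz, ev_pos (side_pos G q hq h3 h4)] with r a b c
        rw [top_eq G r a b, sg_one c.le, mul_one]
      rw [if_pos h4, if_pos h4, h5.fderiv_eq, h5.eq_of_nhds]
      exact ⟨rfl, rfl⟩
    · have h5 : tt =ᶠ[𝓝 q] fun r => 5 + hh r := by
        filter_upwards [hV, ev_gt hz, ev_neg (side_neg G q hq h3 h4)] with r a b c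
        rw [top_eq G r a b, sg_neg_one c.le]; ring
      rw [if_neg h4, if_neg h4, h5.fderiv_eq, h5.eq_of_nhds, fderiv_const_sub, fderiv_const_add]
      exact ⟨rfl, by ring⟩

theorem bot_pt (G : Geo) (q : E) (hq : q ∈ VV) (hz : q.2.2 < -(33 / 8)) :
    dG q = fderiv ℝ (fun r => hh r - 5) q ∧ ∃ n : ℤ, GG q = hh q - 5 + n * 20 := by
  have hV : ∀ᶠ r in 𝓝 q, r ∈ VV := G.opn.mem_nhds hq
  have h1 : ¬ 21 / 5 < q.2.2 := by linarith
  unfold dG GG
  rw [if_neg h1, if_neg h1]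
  by_cases h2 : q.2.2 < -(21 / 5)
  · rw [if_pos h2, if_pos h2, fderiv_sub_const]
    exact ⟨rfl, 0, by simp⟩
  · have h3 : |q.2.2| < 17 / 4 := abs_lt.2 ⟨by linarith, by linarith⟩
    rw [if_neg h2, if_neg h2]
    by_cases h4 : 0 < hh q
    · have h5 : tt =ᶠ[𝓝 q] fun r => hh r - 5 := by
        filter_upwards [hV, ev_lt hz, ev_pos (side_pos G q hq h3 h4)] with r a b c
        rw [bot_eq G r a b, sg_one c.le, mul_one]
      rw [if_pos h4, if_pos h4, h5.fderiv_eq, h5.eq_of_nhds]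
      exact ⟨rfl, 0, by simp⟩
    · have h5 : tt =ᶠ[𝓝 q] fun r => -5 - hh r := by
        filter_upwards [hV, ev_lt hz, ev_neg (side_neg G q hq h3 h4)] with r a b c
        rw [bot_eq G r a b, sg_neg_one c.le]; ring
      rw [if_neg h4, if_neg h4, h5.fderiv_eq, h5.eq_of_nhds, fderiv_const_sub, fderiv_sub_const,
        neg_neg]
      exact ⟨rfl, 1, by push_cast; ring⟩

theorem loc (G : Geo) (p : E) (hp : p ∈ VV) : ∃ g : E → ℝ, ContDiffAt ℝ ∞ g p ∧
    ∀ᶠ q in 𝓝 p, dG q = fderiv ℝ g q ∧ ∃ n : ℤ, GG q = g q + n * 20 := by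
  have hV : ∀ᶠ r in 𝓝 p, r ∈ VV := G.opn.mem_nhds hp
  by_cases h1 : 33 / 8 < p.2.2
  · refine ⟨fun r => 5 - hh r, contDiffAt_const.sub hh_sm.contDiffAt, ?_⟩
    filter_upwards [hV, ev_gt h1] with q a b
    exact ⟨(top_pt G q a b).1, 0, by rw [(top_pt G q a b).2]; simp⟩
  by_cases h2 : p.2.2 < -(33 / 8)
  · refine ⟨fun r => hh r - 5, hh_sm.contDiffAt.sub contDiffAt_const, ?_⟩
    filter_upwards [hV, ev_lt h2] with q a b
    exact bot_pt G q a b
  have h3 : p.2.2 < 21 / 5 := by linarith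
  have h4 : -(21 / 5) < p.2.2 := by linarith
  have h5 : |p.2.2| < 17 / 4 := abs_lt.2 ⟨by linarith, by linarith⟩
  by_cases h6 : 0 < hh p
  · refine ⟨tt, tt_sm G p hp, ?_⟩
    filter_upwards [ev_lt h3, ev_gt h4, ev_pos h6] with q a b c
    unfold dG GG
    rw [if_neg a.not_gt, if_neg a.not_gt, if_neg b.not_gt, if_neg b.not_gt, if_pos c, if_pos c]
    exact ⟨rfl, 0, by simp⟩
  · refine ⟨fun r => 10 - tt r, contDiffAt_const.sub (tt_sm G p hp), ?_⟩
    filter_upwards [ev_lt h3, ev_gt h4, ev_neg (side_neg G p hp h5 h6)] with q a b c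
    have d : ¬ 0 < hh q := by linarith
    unfold dG GG
    rw [if_neg a.not_gt, if_neg a.not_gt, if_neg b.not_gt, if_neg b.not_gt, if_neg d, if_neg d,
      fderiv_const_sub]
    exact ⟨rfl, 0, by simp⟩

theorem c3 (p : E) (hz : |p.2.2| < 4) : dG p = sn (hh p) • fderiv ℝ zz p := by
  have h0 := abs_lt.1 hz
  have h1 : ¬ 21 / 5 < p.2.2 := by linarith
  have h2 : ¬ p.2.2 < -(21 / 5) := by linarith
  have h5 : tt =ᶠ[𝓝 p] zz := by
    filter_upwards [ev_lt h0.2, ev_gt h0.1] with r a b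
    unfold tt zz
    rw [cc_zero (abs_le.2 ⟨b.le, a.le⟩)]; ring
  unfold dG
  rw [if_neg h1, if_neg h2, h5.fderiv_eq]
  by_cases h4 : 0 < hh p
  · rw [if_pos h4, sn_pos h4, one_smul]
  · rw [if_neg h4, sn_nonpos (not_lt.1 h4)]
    exact (neg_one_smul ℝ (fderiv ℝ zz p)).symm

end CHAx

theorem p_CHA (hGEO : S_GEO) :
    S_CHA :=
  ⟨CHAx.uu_sm hGEO, CHAx.xi_sm hGEO, CHAx.tt_sm hGEO, CHAx.loc hGEO, fun p _ hz => CHAx.c3 p hz⟩

end Pool.Agent.P.MP_ff4c85_gt.T
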