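import Pool.Agent.P.MP_ff4c85_gt.T.Iface

/-! Step CHB. -/

set_option autoImplicit false

namespace Pool.Agent.P.MP_ff4c85_gt.T

open Set Filter Topology Real
open scoped ContDiff Classical

namespace CHBx

noncomputable def ab (t : ℝ) : ℝ := t * sg t

theorem ab_diff : Differentiable ℝ ab := by
  unfold ab
  exact differentiable_id.mul (sg_sm.differentiable (by simp))

theorem ab_pos {t : ℝ} (h : 1 / 2 < t) : deriv ab t = 1 := by
  have h1 : ab =ᶠ[𝓝 t] fun s => s := by
    filter_upwards [lt_mem_nhds h] with s hs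
    rw [ab, sg_one hs.le, mul_one]
  rw [h1.deriv_eq]; simp

theorem ab_neg {t : ℝ} (h : t < -(1 / 2)) : deriv ab t = -1 := by
  have h1 : ab =ᶠ[𝓝 t] fun s => -s := by
    filter_upwards [gt_mem_nhds h] with s hs
    rw [ab, sg_neg_one hs.le]; ring
  rw [h1.deriv_eq]; simp

theorem comp {f : ℝ → ℝ} (hf : Differentiable ℝ f) {g : E → ℝ} {g' : Co} {p : E}
    (hg : HasFDerivAt g g' p) : HasFDerivAt (fun q => f (g q)) (deriv f (g p) • g') p :=
  (hf (g p)).hasDerivAt.comp_hasFDerivAt p hg

noncomputable def dx : Co := ContinuousLinearMap.fst ℝ ℝ (ℝ × ℝ)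
noncomputable def dy : Co := (ContinuousLinearMap.fst ℝ ℝ ℝ).comp (ContinuousLinearMap.snd ℝ ℝ (ℝ × ℝ))
noncomputable def dz : Co := (ContinuousLinearMap.snd ℝ ℝ ℝ).comp (ContinuousLinearMap.snd ℝ ℝ (ℝ × ℝ))

theorem hx (p : E) : HasFDerivAt (fun q : E => q.1) dx p := dx.hasFDerivAt
theorem hy (p : E) : HasFDerivAt (fun q : E => q.2.1) dy p := dy.hasFDerivAt
theorem hz (p : E) : HasFDerivAt (fun q : E => q.2.2) dz p := dz.hasFDerivAt

theorem hhh (p : E) : HasFDerivAt hh (cos p.2.1 • dy - dx) p := by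
  have := (comp differentiable_sin (hy p)).sub (hx p)
  rw [Real.deriv_sin] at this
  exact this

end CHBx

open CHBx in
theorem p_CHB (hGEO : S_GEO) (hCHA : S_CHA) :
    S_CHB := by
  intro p hp
  have hu := ((hCHA.uu_sm p hp).differentiableAt (by simp)).hasFDerivAt
  have hH := ((hh_sm.differentiable (by simp)) p).hasFDerivAt
  have hzz : fderiv ℝ zz p = dz := (hz p).fderiv
  set Du := fderiv ℝ uu p with hDu
  set Dh := fderiv ℝ hh p with hDh
  have hV : ∀ᶠ q in 𝓝 p, q ∈ VV := hGEO.opn.mem_nhds hp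
  have hzc : ContinuousAt (fun q : E => q.2.2) p := (hz p).continuousAt
  have part1 : crs Du (dG p) = crs Dh dz := by
    unfold dG
    split_ifs with h1 h2 h3
    · have h4 : uu =ᶠ[𝓝 p] fun q => q.2.2 - 5 + ab (hh q) := by
        filter_upwards [hV, hzc.eventually (lt_mem_nhds h1)] with q hq hq1
        have h5 : |q.2.2| = q.2.2 := abs_of_pos (by linarith)
        rw [hGEO.top q hq (by rw [h5]; linarith), h5, ab]
      have h5 : Du = dz + deriv ab (hh p) • Dh :=
        hu.unique ((((hz p).sub_const 5).add (comp ab_diff hH)).congr_of_eventuallyEq h4)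
      rw [h5, ← hDh, crs_neg_right, crs_add_left, crs_smul_left, crs_self, crs_swap dz Dh]
      simp
    · have h4 : uu =ᶠ[𝓝 p] fun q => -q.2.2 - 5 + ab (hh q) := by
        filter_upwards [hV, hzc.eventually (gt_mem_nhds h2)] with q hq hq1
        have h5 : |q.2.2| = -q.2.2 := abs_of_neg (by linarith)
        rw [hGEO.top q hq (by rw [h5]; linarith), h5, ab]
      have h5 : Du = -dz + deriv ab (hh p) • Dh :=
        hu.unique ((((hz p).neg.sub_const 5).add (comp ab_diff hH)).congr_of_eventuallyEq h4)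
      rw [h5, ← hDh, crs_add_left, crs_smul_left, crs_self, crs_neg_left, crs_swap dz Dh]
      simp
    all_goals
      have hs := hGEO.side p hp (by rw [abs_lt]; constructor <;> linarith)
      have hU : HasFDerivAt U0 (deriv ab (hh p) • Dh + deriv mm p.2.2 • dz) p :=
        ((comp ab_diff hH).sub_const 1).add (comp (mm_sm.differentiable (by simp)) (hz p))
      have h4 : U0 =ᶠ[𝓝 p] fun q => uu q + deriv cc q.2.2 * (uu q * uu q) * (1 / 2) := by
        filter_upwards [hV] with q hq
        rw [hGEO.quad q hq]; ring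
      have h5 := hU.unique ((hu.add (((comp (dcc_sm.differentiable (by simp)) (hz p)).mul
        (hu.mul hu)).mul_const (1 / 2))).congr_of_eventuallyEq h4)
      have h6 : fderiv ℝ tt p = dz + (cc p.2.2 • Du + uu p • (deriv cc p.2.2 • dz)) :=
        ((hz p).add ((comp (cc_sm.differentiable (by simp)) (hz p)).mul hu)).fderiv
      have h7 := congrArg (fun α => crs α dz) h5
      simp only [crs_add_left, crs_smul_left, crs_self, smul_zero, add_zero, Pi.mul_apply] at h7
      have h8 : crs Du (fderiv ℝ tt p) = deriv ab (hh p) • crs Dh dz := by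
        rw [h7, h6]
        simp only [crs_add_right, crs_smul_right, crs_self, smul_zero, zero_add]
        module
    · rw [h8, ab_pos (by rwa [abs_of_pos h3] at hs), one_smul]
    · rw [crs_neg_right, h8, ab_neg (by rw [abs_of_nonpos (not_lt.1 h3)] at hs; linarith)]
      simp
  refine ⟨by rw [cr, hzz]; exact part1, ?_⟩
  have hτ : HasFDerivAt tau (dy - (π / 2) • (deriv sg (hh p) • Dh)) p :=
    (hy p).sub ((comp (sg_sm.differentiable (by simp)) hH).const_mul (π / 2))
  have hξ : HasFDerivAt xi (deriv cos (tau p) • fderiv ℝ tau p - Du) p :=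
    ((comp differentiable_cos hτ.differentiableAt.hasFDerivAt).sub_const 1).sub hu
  have h1 : cr xi tau p = crs (fderiv ℝ tau p) Du := by
    rw [cr, hξ.fderiv, sub_eq_add_neg, crs_add_left, crs_smul_left, crs_self, crs_neg_left,
      crs_swap (fderiv ℝ tau p) Du]
    simp
  rw [h1, crs_cyc, part1, hτ.fderiv]
  simp only [sub_apply, smul_apply, crs_left, smul_zero,
    sub_zero]
  rw [hDh, (hhh p).fderiv, app_crs]
  simp [dx, dy, dz, e1, e2, e3]

end Pool.Agent.P.MP_ff4c85_gt.T
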