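import Pool.Agent.P.MP_ff4c85_gt.T.Iface

/-! Step COL. -/

set_option autoImplicit false

namespace Pool.Agent.P.MP_ff4c85_gt.T

open Set Filter Topology Real
open scoped ContDiff Classical

namespace COLx

theorem sn_mul {c r : ℝ} (hc : 0 < c) : sn (c * r) = sn r := by
  rcases lt_or_ge 0 r with h | h
  · rw [sn_pos h, sn_pos (mul_pos hc h)]
  · rw [sn_nonpos h, sn_nonpos (mul_nonpos_of_nonneg_of_nonpos hc.le h)]

theorem sn_cases (r : ℝ) : sn r = 1 ∨ sn r = -1 := by
  rcases lt_or_ge 0 r with h | h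
  · exact Or.inl (sn_pos h)
  · exact Or.inr (sn_nonpos h)

theorem sn_mul_self (r : ℝ) : sn r * r = |r| := by
  rcases lt_or_ge 0 r with h | h
  · rw [sn_pos h, abs_of_pos h, one_mul]
  · rw [sn_nonpos h, abs_of_nonpos h, neg_one_mul]

end COLx

theorem p_COL (hLAM : S_LAM) (hTRI : S_TRI) (hGEO : S_GEO) (hCORE : S_CORE) (hGV : S_GV) (hPSI : S_PSI) :
    S_COL := by
  intro q hq hS
  have hoff := hCORE.off q hq hS
  have hτ : |tau q| < 1 / 20 := hq.2.1
  obtain ⟨h1, h2, -⟩ := offcore hτ hoff 0 0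
  have hs1 : 1 < ss 1 q := h1
  have hs2 : 1 < ss (-1) q := h2
  have hk1 : kk 1 q = 1 := ka_one (by linarith)
  have hk2 : kk (-1) q = 1 := ka_one (by linarith)
  have hkL : kL q = 1 := by unfold kL; rw [hk1, hk2, mul_one]
  have hgg : gg q = GG q := by unfold gg; rw [hkL, Real.log_one, sub_zero]
  have hpsi : psiP q = psi q := by
    unfold psiP
    rw [if_neg (by linarith), if_neg (by linarith)]
  obtain ⟨g1, g2, ⟨c, hc0, g3⟩, g4, -⟩ := hGV q hq
  obtain ⟨p1, p2⟩ := hPSI q hq hS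
  refine ⟨hkL, ?_, ?_, ?_, ?_⟩
  · unfold xL
    rw [hgg]
    split_ifs with h
    · have hz := g4 h
      have hside := hGEO.side q hq (by linarith)
      have ha : 0 < sn (hh q) * hh q := by rw [COLx.sn_mul_self]; linarith
      obtain ⟨-, l2, -, -⟩ := hGEO.leg q hq hz.le (sn (hh q)) (COLx.sn_cases _) ha
      rw [g3, COLx.sn_mul hc0, l2]
      rcases COLx.sn_cases (hh q) with e | e <;> rw [e] <;> ring
    · rfl
  · unfold yL
    rw [hgg, g2]
    unfold tau
    ring
  · unfold zL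
    rw [hgg, g1]
  · unfold HL
    rw [hgg, hpsi, g3]
    rcases lt_or_ge |q.2.2| 4 with hz | hz
    · have hside := hGEO.side q hq (by linarith)
      refine ⟨c * |hh q|, mul_pos hc0 (by linarith), ?_⟩
      rw [p1 hz, ← COLx.sn_mul_self]
      ring
    · obtain ⟨e1, e2⟩ := p2 (by linarith)
      have hu := abs_lt.1 (hGEO.u_lt q hq)
      refine ⟨c * (1 + uu q), mul_pos hc0 (by linarith), ?_⟩
      rw [e1, e2]
      ring

end Pool.Agent.P.MP_ff4c85_gt.T
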