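import Pool.Agent.P.MP_ff4c85_gt.T.Iface

/-! Step CORE. -/

set_option autoImplicit false

namespace Pool.Agent.P.MP_ff4c85_gt.T

open Set Filter Topology Real
open scoped ContDiff Classical

namespace COREx

theorem sub : Sc ⊆ VV := fun p hp => by
  obtain ⟨h1, h2, h3⟩ := hp
  exact ⟨by linarith [dl_pos], by linarith, by linarith⟩

theorem cpt (G : Geo) : IsCompact Sc := by
  refine Metric.isCompact_of_isClosed_isBounded ?_
    ((Metric.isBounded_closedBall (x := (0 : E)) (r := 6)).subset fun p hp => ?_)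
  · exact (isClosed_le G.xi_cont.abs continuous_const).inter
      ((isClosed_le tau_sm.continuous.abs continuous_const).inter
        (isClosed_le U0_sm.continuous.abs continuous_const))
  · have h1 := G.x_lt p (sub hp)
    have h2 := G.y_lt p (sub hp)
    have h3 := G.z_lt p (sub hp)
    rw [mem_closedBall_zero_iff, Prod.norm_def, Prod.norm_def, Real.norm_eq_abs, Real.norm_eq_abs,
      Real.norm_eq_abs]
    exact max_le (by linarith) (max_le (by linarith [pi_lt_four]) (by linarith))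

theorem leg_mem (p : E) (a : ℝ) (ha : a = 1 ∨ a = -1) (hz : |p.2.2| ≤ 4)
    (hy : |p.2.1 - a * (π / 2)| ≤ 1 / 40) (hx : |p.1| ≤ 2 * dl) : p ∈ Sc := by
  have hs : sin p.2.1 = a * cos (p.2.1 - a * (π / 2)) := by
    rcases ha with rfl | rfl
    · rw [one_mul, one_mul, cos_sub_pi_div_two]
    · rw [neg_one_mul, neg_one_mul, sub_neg_eq_add, cos_add_pi_div_two, neg_neg]
  have hc1 := cos_le_one (p.2.1 - a * (π / 2))
  have hc2 := one_sub_sq_div_two_le_cos (x := p.2.1 - a * (π / 2))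
  have hq : (p.2.1 - a * (π / 2)) ^ 2 ≤ (1 / 40) ^ 2 := by
    rw [← sq_abs]; exact pow_le_pow_left₀ (abs_nonneg _) hy 2
  have hx' := abs_le.1 hx
  have hd : dl = 1 / 1000000 := rfl
  have hsg : sg (hh p) = a := by
    rcases ha with rfl | rfl
    · exact sg_one (by unfold hh; linarith)
    · exact sg_neg_one (by unfold hh; linarith)
  have hU : U0 p = cos (p.2.1 - a * (π / 2)) - a * p.1 - 1 := by
    unfold U0
    rw [hsg, mm_zero hz]
    unfold hh
    rw [hs]
    rcases ha with rfl | rfl <;> ring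
  have hu : uu p = U0 p := by
    unfold uu
    rw [dcc_leg hz, mul_zero, zero_mul, add_zero, sqrt_one]
    ring
  have ht : tau p = p.2.1 - a * (π / 2) := by unfold tau; rw [hsg]; ring
  have hxi : xi p = a * p.1 := by unfold xi; rw [hu, hU, ht]; ring
  refine ⟨?_, by rw [ht]; exact hy, ?_⟩
  · rw [hxi]
    rcases ha with rfl | rfl
    · rwa [one_mul]
    · rwa [neg_one_mul, abs_neg]
  · rw [hU, abs_le]
    rcases ha with rfl | rfl <;> constructor <;> linarith

theorem x_small (G : Geo) {q : E} (hq : q ∈ VV) (hz : |q.2.2| ≤ 4) : |q.1| < 3 * dl := by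
  have h1 := G.side q hq (by linarith)
  have h2 : |xi q| < 3 * dl := hq.1
  rcases lt_abs.1 h1 with h | h
  · have := (G.leg q hq hz 1 (Or.inl rfl) (by linarith)).2.1
    rwa [this, one_mul] at h2
  · have := (G.leg q hq hz (-1) (Or.inr rfl) (by linarith)).2.1
    rwa [this, neg_one_mul, abs_neg] at h2

theorem int_zero {m : ℤ} (h1 : (m : ℝ) < 1) (h2 : -1 < (m : ℝ)) : m = 0 := by
  have a : m < 1 := by exact_mod_cast h1
  have b : -1 < m := by exact_mod_cast h2
  omega

theorem odd (G : Geo) (p : E) (i k j i' k' : ℤ) (h : p - gam (i, k, j) ∈ VV)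
    (h' : p - gam (i', k', j + 1) ∈ VV) : False := by
  have hd : dl = 1 / 1000000 := rfl
  have hP : PP = 2 - 2 * dl := rfl
  have key : ∀ x x' : ℝ, x = p.1 - (i * PP + j * (PP / 2)) →
      x' = p.1 - (i' * PP + (j + 1) * (PP / 2)) → |x| + |x'| < 4 / 5 + 3 * dl → False := by
    intro x x' e e' hl
    have e2 : x - x' = (2 * (i' - i) + 1) * (PP / 2) := by rw [e, e']; ring
    have h3 := abs_le.1 (abs_sub x x')
    rcases le_or_gt 0 (i' - i) with h4 | h4
    · have : (0 : ℝ) ≤ i' - i := by exact_mod_cast h4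
      nlinarith [le_abs_self (x - x')]
    · have h5 : i' - i ≤ -1 := by omega
      have : (i' - i : ℝ) ≤ -1 := by exact_mod_cast h5
      nlinarith [neg_abs_le (x - x')]
  have z1 : (p - gam (i, k, j)).2.2 = p.2.2 - j * 6 := rfl
  have z2 : (p - gam (i', k', j + 1)).2.2 = p.2.2 - (j + 1) * 6 := by
    simp [gam]
  have x1 : (p - gam (i, k, j)).1 = p.1 - (i * PP + j * (PP / 2)) := rfl
  have x2 : (p - gam (i', k', j + 1)).1 = p.1 - (i' * PP + (j + 1) * (PP / 2)) := by
    simp [gam]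
  have a1 := abs_lt.1 (G.z_lt _ h)
  have a2 := abs_lt.1 (G.z_lt _ h')
  rcases le_total (p.2.2 - j * 6) 3 with c | c
  · have := x_small G h (abs_le.2 ⟨by linarith, by linarith⟩)
    exact key _ _ x1 x2 (by linarith [G.x_lt _ h'])
  · have := x_small G h' (abs_le.2 ⟨by linarith, by linarith⟩)
    exact key _ _ x1 x2 (by linarith [G.x_lt _ h])

theorem disj (G : Geo) (p : E) (n n' : ℤ × ℤ × ℤ) (h : p - gam n ∈ VV) (h' : p - gam n' ∈ VV) :
    n = n' := by
  obtain ⟨i, k, j⟩ := n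
  obtain ⟨i', k', j'⟩ := n'
  have hd : dl = 1 / 1000000 := rfl
  have hP : PP = 2 - 2 * dl := rfl
  have a1 : |p.2.2 - j * 6| < 51 / 10 := G.z_lt _ h
  have a2 : |p.2.2 - j' * 6| < 51 / 10 := G.z_lt _ h'
  have b1 : |p.2.1 - k * (2 * π)| < π / 2 + 1 / 20 := G.y_lt _ h
  have b2 : |p.2.1 - k' * (2 * π)| < π / 2 + 1 / 20 := G.y_lt _ h'
  have c1 : |p.1 - (i * PP + j * (PP / 2))| < 4 / 5 := G.x_lt _ h
  have c2 : |p.1 - (i' * PP + j' * (PP / 2))| < 4 / 5 := G.x_lt _ h'
  rw [abs_lt] at a1 a2 b1 b2 c1 c2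
  have hk : k - k' = 0 := int_zero (by push_cast; nlinarith [pi_gt_three])
    (by push_cast; nlinarith [pi_gt_three])
  have j1 : j - j' < 2 := by
    have : ((j - j' : ℤ) : ℝ) < 2 := by push_cast; linarith
    exact_mod_cast this
  have j2 : -2 < j - j' := by
    have : -2 < ((j - j' : ℤ) : ℝ) := by push_cast; linarith
    exact_mod_cast this
  obtain rfl | rfl | rfl : j' = j ∨ j' = j + 1 ∨ j = j' + 1 := by omega
  · have hi : i - i' = 0 := int_zero (by push_cast; nlinarith) (by push_cast; nlinarith)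
    rw [sub_eq_zero.1 hk, sub_eq_zero.1 hi]
  · exact (odd G p _ _ _ _ _ h h').elim
  · exact (odd G p _ _ _ _ _ h' h).elim

end COREx

theorem p_CORE (hGEO : S_GEO) :
    S_CORE := by
  refine ⟨COREx.cpt hGEO, COREx.sub, fun p hp hn => ?_, COREx.leg_mem, COREx.disj hGEO⟩
  by_contra hc
  push Not at hc
  exact hn ⟨hc.1, hc.2, (Geo.U0_lt hGEO p hp).le⟩

end Pool.Agent.P.MP_ff4c85_gt.T
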