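import Pool.Agent.P.MP_ff4c85_gt.T.Iface

/-! Step DEC. -/

set_option autoImplicit false

namespace Pool.Agent.P.MP_ff4c85_gt.T

open Set Filter Topology Real
open scoped ContDiff Classical

namespace DECx

/-- chain rule for a function of three variables -/
theorem comp3 {F c a b : E → ℝ} {p : E} (hF : DifferentiableAt ℝ F (c p, a p, b p))
    (hc : DifferentiableAt ℝ c p) (ha : DifferentiableAt ℝ a p) (hb : DifferentiableAt ℝ b p) :
    fderiv ℝ (fun q => F (c q, a q, b q)) p =
      deriv (fun s => F (s, a p, b p)) (c p) • fderiv ℝ c p +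
        deriv (fun s => F (c p, s, b p)) (a p) • fderiv ℝ a p +
        deriv (fun s => F (c p, a p, s)) (b p) • fderiv ℝ b p := by
  have h0 := hF.hasFDerivAt
  have h1 : HasDerivAt (fun s => F (s, a p, b p)) (fderiv ℝ F (c p, a p, b p) e1) (c p) :=
    h0.comp_hasDerivAt (f := fun s => (s, a p, b p)) (c p)
      ((hasDerivAt_id _).prodMk ((hasDerivAt_const _ _).prodMk (hasDerivAt_const _ _)))
  have h2 : HasDerivAt (fun s => F (c p, s, b p)) (fderiv ℝ F (c p, a p, b p) e2) (a p) :=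
    h0.comp_hasDerivAt (f := fun s => (c p, s, b p)) (a p)
      ((hasDerivAt_const _ _).prodMk ((hasDerivAt_id _).prodMk (hasDerivAt_const _ _)))
  have h3 : HasDerivAt (fun s => F (c p, a p, s)) (fderiv ℝ F (c p, a p, b p) e3) (b p) :=
    h0.comp_hasDerivAt (f := fun s => (c p, a p, s)) (b p)
      ((hasDerivAt_const _ _).prodMk ((hasDerivAt_const _ _).prodMk (hasDerivAt_id _)))
  have h4 : HasFDerivAt (fun q => F (c q, a q, b q)) _ p :=
    h0.comp (f := fun q => (c q, a q, b q)) p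
      (hc.hasFDerivAt.prodMk (ha.hasFDerivAt.prodMk hb.hasFDerivAt))
  rw [h4.fderiv, h1.deriv, h2.deriv, h3.deriv]
  refine ContinuousLinearMap.ext fun v => ?_
  generalize fderiv ℝ F (c p, a p, b p) = L
  change L (fderiv ℝ c p v, fderiv ℝ a p v, fderiv ℝ b p v) =
    L e1 * fderiv ℝ c p v + L e2 * fderiv ℝ a p v + L e3 * fderiv ℝ b p v
  rw [co_apply]
  ring

theorem cr_comp {f g : ℝ → ℝ → ℝ} {a b : E → ℝ} {p : E}
    (hf : ContDiff ℝ ∞ fun q : ℝ × ℝ => f q.1 q.2) (hg : ContDiff ℝ ∞ fun q : ℝ × ℝ => g q.1 q.2)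
    (ha : DifferentiableAt ℝ a p) (hb : DifferentiableAt ℝ b p) :
    cr (fun q => f (a q) (b q)) (fun q => g (a q) (b q)) p = br f g (a p) (b p) • cr a b p := by
  unfold cr br
  rw [fderiv_comp2 (hf.differentiable (by simp) _) ha hb,
    fderiv_comp2 (hg.differentiable (by simp) _) ha hb]
  simp only [crs_add_left, crs_add_right, crs_smul_left, crs_smul_right, crs_self]
  rw [crs_swap (fderiv ℝ b p)]
  module

theorem crs_pt (hL : Lam) (hG : Geo) (hA : ChA) {p : E} (hp : p ∈ VV) :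
    crs (fderiv ℝ pt p) (dG p) =
      d1 (ptM (lam p.2.2) (La p.2.2)) (xi p) (tau p) • crs (fderiv ℝ xi p) (dG p) +
        d2 (ptM (lam p.2.2) (La p.2.2)) (xi p) (tau p) • crs (fderiv ℝ tau p) (dG p) := by
  have hF : ContDiff ℝ ∞ fun q : E => ptM (lam q.1) (La q.1) q.2.1 q.2.2 :=
    ptM_sm.comp (f := fun q : E => (lam q.1, La q.1, q.2.1, q.2.2)) (by fun_prop)
  have h := comp3 (c := zz) (a := xi) (b := tau) (p := p) (hF.differentiable (by simp) _)
    (zz_sm.differentiable (by simp) _) ((hA.xi_sm p hp).differentiableAt (by simp))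
    (tau_sm.differentiable (by simp) _)
  have h0 : crs (deriv (fun s => ptM (lam s) (La s) (xi p) (tau p)) p.2.2 • fderiv ℝ zz p)
      (dG p) = 0 := by
    rcases lt_or_ge |p.2.2| 4 with hz | hz
    · rw [hA.c3 p hp hz, crs_smul_left, crs_smul_right, crs_self, smul_zero, smul_zero]
    · have h1 : ∀ᶠ s in 𝓝 p.2.2, 39 / 10 < |s| ∧ |s| < 51 / 10 :=
        (continuous_abs.continuousAt.eventually (eventually_gt_nhds (by linarith))).and
          (continuous_abs.continuousAt.eventually (eventually_lt_nhds (hG.z_lt p hp)))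
      have h2 : (fun s => ptM (lam s) (La s) (xi p) (tau p)) =ᶠ[𝓝 p.2.2]
          fun _ => ptM 0 (0 + 1) (xi p) (tau p) := h1.mono fun s hs => by
        simp only [La]
        rw [hL.zero s hs.1.le (by linarith [hs.2]), hL.one' s (by linarith [hs.1])
          (by linarith [hs.2])]
      rw [h2.deriv_eq, deriv_const, zero_smul, crs_zero_left]
  rw [show fderiv ℝ pt p = _ from h, crs_add_left, crs_add_left]
  erw [h0]
  rw [zero_add, crs_smul_left, crs_smul_left]
  rfl

end DECx

theorem p_DEC (hLAM : S_LAM) (hGEO : S_GEO) (hCHA : S_CHA) (hCHB : S_CHB) :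
    S_DEC := by
  intro p hp
  have ha : DifferentiableAt ℝ xi p := (hCHA.xi_sm p hp).differentiableAt (by simp)
  have hb : DifferentiableAt ℝ tau p := tau_sm.differentiable (by simp) _
  have h1 : ∀ e, cr (FF e) (kk e) p = br (FM e) (kM e) (xi p) (tau p) • cr xi tau p := fun e =>
    DECx.cr_comp (FM_sm e) (kM_sm e) ha hb
  have h2 := (hCHB p hp).2
  have h3 : vin p =
      d1 (ptM (lam p.2.2) (La p.2.2)) (xi p) (tau p) • crs (fderiv ℝ xi p) (dG p) +
        d2 (ptM (lam p.2.2) (La p.2.2)) (xi p) (tau p) • crs (fderiv ℝ tau p) (dG p) +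
        CM (xi p) (tau p) • cr xi tau p := by
    unfold vin CM muu
    rw [DECx.crs_pt hLAM hGEO hCHA hp, h1, h1]
    module
  unfold cr at h2 h3
  have h4 : fderiv ℝ xi p (crs (fderiv ℝ tau p) (dG p)) = 1 := by rw [← crs_cyc, h2]
  have h5 : fderiv ℝ tau p (crs (fderiv ℝ xi p) (dG p)) = -1 := by
    rw [crs_swap, map_neg, crs_cyc, h2]
  rw [h3]
  simp only [map_add, map_smul, smul_eq_mul, crs_left, crs_right, h2, h4, h5]
  refine ⟨?_, ?_, ?_⟩ <;> ring

end Pool.Agent.P.MP_ff4c85_gt.T
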