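import Pool.Agent.P.MP_ff4c85_gt.T.Iface

/-! Step DIAM. -/

set_option autoImplicit false

namespace Pool.Agent.P.MP_ff4c85_gt.T

open Set Filter Topology Real
open scoped ContDiff Classical

namespace DIAMx

theorem osc_le {g : ℝ → ℝ} (hg : Continuous g) {b P : ℝ} (hP : 0 < P)
    (h : ∀ t (n : ℤ), g t ≠ b + n * P) (s t : ℝ) : g s - g t ≤ P := by
  by_contra hc
  push Not at hc
  have h1 : g t ≤ b + (⌈(g t - b) / P⌉ : ℤ) * P := by
    have := Int.le_ceil ((g t - b) / P)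
    rw [div_le_iff₀ hP] at this
    linarith
  have h2 : b + (⌈(g t - b) / P⌉ : ℤ) * P ≤ g s := by
    have := (Int.ceil_lt_add_one ((g t - b) / P)).le
    have h3 := mul_le_mul_of_nonneg_right this hP.le
    rw [add_mul, div_mul_cancel₀ _ hP.ne'] at h3
    linarith
  obtain ⟨u, hu⟩ := intermediate_value_univ t s hg ⟨h1, h2⟩
  exact h u _ hu

theorem osc {g : ℝ → ℝ} (hg : Continuous g) {b P : ℝ} (hP : 0 < P)
    (h : ∀ t (n : ℤ), g t ≠ b + n * P) (s t : ℝ) : |g s - g t| ≤ P :=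
  abs_le.2 ⟨by linarith [osc_le hg hP h t s], osc_le hg hP h s t⟩

end DIAMx

theorem p_DIAM (hLAM : S_LAM) (hTRI : S_TRI) (hKS : S_KS) (hGLOB : S_GLOB) (hBAR : S_BAR) (hISL : S_ISL) :
    S_DIAM := by
  intro c hc s t
  have hcont : Continuous c := continuous_iff_continuousAt.2 fun u => (hc u).continuousAt
  by_cases hk : ∀ u, kE (c u) ≤ 0
  · exact hISL c hcont hk s t
  push Not at hk
  obtain ⟨u0, hu0⟩ := hk
  have hpos : ∀ u, 0 < kE (c u) := fun u => hKS c hc u0 u hu0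
  obtain ⟨hs, hx, hy⟩ := hGLOB c hc hpos
  obtain ⟨a, ha, hH⟩ : ∃ a : ℝ, (a = 1 ∨ a = -1) ∧ ∀ u, ¬ 0 < a * HE (c u) := by
    by_cases h0 : 0 < HE (c 0)
    · refine ⟨-1, Or.inr rfl, fun u hu => ?_⟩
      have h1 := (hs 0 u).1
      rw [sign_pos h0, sign_neg (by linarith)] at h1
      exact absurd h1 (by decide)
    · refine ⟨1, Or.inl rfl, fun u hu => h0 ?_⟩
      have h1 := (hs 0 u).1
      rw [sign_pos (show 0 < HE (c u) by linarith)] at h1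
      exact sign_eq_one_iff.1 h1
  obtain ⟨j, hj⟩ : ∃ j : ℤ, ∀ u, lam (zE (c u) - j * 6) = 1 := by
    rcases Lam.full hLAM (cl (zE (c 0))) with h | h
    · refine ⟨0, fun u => ?_⟩
      rw [← Tri.lam_cl hTRI, ← (hs 0 u).2]
      simpa using h
    · refine ⟨1, fun u => ?_⟩
      rw [← Tri.lam_cl hTRI, ← (hs 0 u).2]
      simpa using h
  have hPP : 0 < PP := by unfold PP dl; norm_num
  have hPP2 : PP ≤ 2 := by unfold PP; linarith [dl_pos]
  have ox := abs_le.1 (DIAMx.osc hx (b := j * (PP / 2) + a * dl) hPP (fun u n e =>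
    hH u (((hBAR _ (hpos u)).2.2.2 a ha).2 j n (hj u) e)) s t)
  have oy := abs_le.1 (DIAMx.osc hy (b := a * (π / 2)) (P := 2 * π) (by positivity) (fun u n e =>
    hH u (((hBAR _ (hpos u)).2.2.2 a ha).1 n e)) s t)
  have oz := (hs s t).2
  have z1 := abs_le.1 (Tri.cl_near hTRI (zE (c s)))
  have z2 := abs_le.1 (Tri.cl_near hTRI (zE (c t)))
  obtain ⟨a1, a2, a3, -⟩ := hBAR _ (hpos s)
  obtain ⟨b1, b2, b3, -⟩ := hBAR _ (hpos t)
  rw [abs_le] at a1 a2 a3 b1 b2 b3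
  rw [Prod.dist_eq, Prod.dist_eq, Real.dist_eq, Real.dist_eq, Real.dist_eq]
  refine max_le (abs_le.2 ⟨?_, ?_⟩) (max_le (abs_le.2 ⟨?_, ?_⟩) (abs_le.2 ⟨?_, ?_⟩)) <;>
    linarith [a1.1, a1.2, a2.1, a2.2, a3.1, a3.2, b1.1, b1.2, b2.1, b2.2, b3.1, b3.2, ox.1, ox.2,
      oy.1, oy.2, z1.1, z1.2, z2.1, z2.2, pi_le_four]

end Pool.Agent.P.MP_ff4c85_gt.T
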