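import Pool.Agent.P.MP_ff4c85_gt.T.Iface

/-! Step DIV. -/

set_option autoImplicit false

namespace Pool.Agent.P.MP_ff4c85_gt.T

open Set Filter Topology Real
open scoped ContDiff Classical

namespace DIVx

theorem tr_eq (D : E →L[ℝ] E) :
    LinearMap.trace ℝ E (D : E →ₗ[ℝ] E) = (D e1).1 + (D e2).2.1 + (D e3).2.2 := by
  let a1 : E →ₗ[ℝ] ℝ := LinearMap.fst ℝ ℝ (ℝ × ℝ)
  let a2 : E →ₗ[ℝ] ℝ := (LinearMap.fst ℝ ℝ ℝ).comp (LinearMap.snd ℝ ℝ (ℝ × ℝ))
  let a3 : E →ₗ[ℝ] ℝ := (LinearMap.snd ℝ ℝ ℝ).comp (LinearMap.snd ℝ ℝ (ℝ × ℝ))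
  have h : (D : E →ₗ[ℝ] E) =
      a1.smulRight (D e1) + a2.smulRight (D e2) + a3.smulRight (D e3) := by
    refine LinearMap.ext fun v => ?_
    have : v = v.1 • e1 + v.2.1 • e2 + v.2.2 • e3 := by simp [e1, e2, e3]
    change D v = v.1 • D e1 + v.2.1 • D e2 + v.2.2 • D e3
    conv_lhs => rw [this]
    simp only [map_add, map_smul]
  rw [h, map_add, map_add, LinearMap.trace_smulRight, LinearMap.trace_smulRight,
    LinearMap.trace_smulRight]
  rfl

theorem dv_eq {X : E → E} {p : E} {D : E →L[ℝ] E} (h : HasFDerivAt X D p) :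
    dv X p = (D e1).1 + (D e2).2.1 + (D e3).2.2 := by
  rw [dv, h.fderiv, tr_eq]

theorem fd_sm {f : E → ℝ} {p : E} (hf : ContDiffAt ℝ ∞ f p) : ContDiffAt ℝ ∞ (fderiv ℝ f) p :=
  hf.fderiv_right (by simp)

theorem fd_der {f : E → ℝ} {p : E} (hf : ContDiffAt ℝ ∞ f p) (v : E) :
    HasFDerivAt (fun q => fderiv ℝ f q v) ((fderiv ℝ (fderiv ℝ f) p).flip v) p := by
  have h := ((fd_sm hf).differentiableAt (by simp)).hasFDerivAt.clm_apply (hasFDerivAt_const v p)
  simpa using h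

end DIVx

open DIVx in
theorem p_DIV :
    S_DIV := by
  refine ⟨fun f g p hf hg => ?_, fun f g p hf hg => ?_, fun X Y p hX hY => ?_,
    fun X Y p hX hY => ?_, fun m X p hm hX => ?_⟩
  · have a := fun v : E => (fd_sm hf).clm_apply (contDiffAt_const (c := v))
    have b := fun v : E => (fd_sm hg).clm_apply (contDiffAt_const (c := v))
    exact (((a e2).mul (b e3)).sub ((a e3).mul (b e2))).prodMk
      ((((a e3).mul (b e1)).sub ((a e1).mul (b e3))).prodMk
        (((a e1).mul (b e2)).sub ((a e2).mul (b e1))))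
  · have a := fd_der hf
    have b := fd_der hg
    have h : HasFDerivAt (cr f g) _ p := (((a e2).mul (b e3)).sub ((a e3).mul (b e2))).prodMk
      ((((a e3).mul (b e1)).sub ((a e1).mul (b e3))).prodMk
        (((a e1).mul (b e2)).sub ((a e2).mul (b e1))))
    have h2 : minSmoothness ℝ 2 ≤ ∞ := by
      rw [minSmoothness_of_isRCLikeNormedField]
      exact WithTop.coe_le_coe.2 (le_top : ((2 : ℕ) : ℕ∞) ≤ ⊤)
    have sf := hf.isSymmSndFDerivAt h2
    have sg := hg.isSymmSndFDerivAt h2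
    rw [dv_eq h]
    simp only [ContinuousLinearMap.prod_apply, sub_apply,
      add_apply, smul_apply, smul_eq_mul,
      ContinuousLinearMap.flip_apply]
    rw [sf.eq e2 e1, sf.eq e3 e1, sf.eq e3 e2, sg.eq e2 e1, sg.eq e3 e1, sg.eq e3 e2]
    ring
  · rw [dv_eq (hX.hasFDerivAt.fun_add hY.hasFDerivAt), dv_eq hX.hasFDerivAt, dv_eq hY.hasFDerivAt]
    simp only [add_apply, Prod.fst_add, Prod.snd_add]
    ring
  · rw [dv_eq (hX.hasFDerivAt.fun_sub hY.hasFDerivAt), dv_eq hX.hasFDerivAt, dv_eq hY.hasFDerivAt]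
    simp only [sub_apply, Prod.fst_sub, Prod.snd_sub]
    ring
  · rw [dv_eq (hm.hasFDerivAt.fun_smul hX.hasFDerivAt), dv_eq hX.hasFDerivAt,
      co_apply (fderiv ℝ m p) (X p)]
    simp only [add_apply, smul_apply,
      ContinuousLinearMap.smulRight_apply, Prod.fst_add, Prod.snd_add, Prod.smul_fst,
      Prod.smul_snd, smul_eq_mul]
    ring

end Pool.Agent.P.MP_ff4c85_gt.T
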