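import Pool.Agent.P.MP_ff4c85_gt.T.Iface

/-! Step GEO. -/

set_option autoImplicit false

namespace Pool.Agent.P.MP_ff4c85_gt.T

open Set Filter Topology Real
open scoped ContDiff Classical

namespace GEOx

theorem dcc_le (hTH : S_TH) (z : ℝ) : |deriv cc z| ≤ 64 := by
  rw [dcc_eq, abs_le]
  have h1 := hTH (8 * (-z - 4))
  have h2 := hTH (8 * (z - 4))
  have h3 := dth_nonneg (8 * (-z - 4))
  have h4 := dth_nonneg (8 * (z - 4))
  rcases le_total 0 z with h | h
  · have := dth_of_nonpos (x := 8 * (-z - 4)) (by linarith)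
    constructor <;> linarith
  · have := dth_of_nonpos (x := 8 * (z - 4)) (by linarith)
    constructor <;> linarith

theorem uu_cont : Continuous uu := by
  have h1 : Continuous U0 := U0_sm.continuous
  have h2 : Continuous (deriv cc) := dcc_sm.continuous
  unfold uu
  refine Continuous.div (by fun_prop) (by fun_prop) fun p => ?_
  positivity

theorem xi_cont : Continuous xi := by
  have h1 : Continuous tau := tau_sm.continuous
  have h2 := uu_cont
  unfold xi
  fun_prop

theorem opn : IsOpen VV := by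
  have h1 : Continuous U0 := U0_sm.continuous
  have h2 : Continuous tau := tau_sm.continuous
  exact (isOpen_lt xi_cont.abs continuous_const).inter
    ((isOpen_lt h2.abs continuous_const).inter (isOpen_lt h1.abs continuous_const))

theorem rad (hTH : S_TH) {p : E} (hp : p ∈ VV) : 0 < 1 + 2 * deriv cc p.2.2 * U0 p := by
  have h1 : |deriv cc p.2.2 * U0 p| ≤ 64 * (1 / 200) := by
    rw [abs_mul]
    exact mul_le_mul (dcc_le hTH _) hp.2.2.le (abs_nonneg _) (by norm_num)
  have := abs_le.1 h1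
  linarith

theorem quad (hTH : S_TH) {p : E} (hp : p ∈ VV) :
    U0 p = uu p + deriv cc p.2.2 * uu p ^ 2 / 2 := by
  have h1 := Real.sq_sqrt (rad hTH hp).le
  have h2 := Real.sqrt_nonneg (1 + 2 * deriv cc p.2.2 * U0 p)
  unfold uu
  generalize √(1 + 2 * deriv cc p.2.2 * U0 p) = r at h1 h2
  have h3 : 1 + r ≠ 0 := by positivity
  field_simp
  linear_combination (U0 p) * h1

theorem u_lt {p : E} (hp : p ∈ VV) : |uu p| < 1 / 790 := by
  have h1 := abs_lt.1 hp.1
  have h2 := bb_le (tau p)
  have h3 := bb_nonneg (tau p)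
  have h4 : tau p ^ 2 < (1 / 20) ^ 2 := by
    rw [← sq_abs]; exact pow_lt_pow_left₀ hp.2.1 (abs_nonneg _) (by norm_num)
  unfold xi dl at h1
  unfold bb at h2 h3
  rw [abs_lt]
  constructor <;> linarith

theorem U0_lt (hTH : S_TH) {p : E} (hp : p ∈ VV) : |U0 p| < 1 / 400 := by
  have h1 := u_lt hp
  have h2 : uu p ^ 2 < (1 / 790) ^ 2 := by
    rw [← sq_abs]; exact pow_lt_pow_left₀ h1 (abs_nonneg _) (by norm_num)
  have h3 : |deriv cc p.2.2 * uu p ^ 2| ≤ 64 * (1 / 790) ^ 2 := by
    rw [abs_mul, abs_of_nonneg (sq_nonneg (uu p))]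
    exact mul_le_mul (dcc_le hTH _) h2.le (sq_nonneg _) (by norm_num)
  have h4 := abs_le.1 h3
  have h5 := abs_lt.1 h1
  rw [quad hTH hp, abs_lt]
  constructor <;> linarith

theorem mul_sg {h : ℝ} (hh : 1 / 2 ≤ |h|) : h * sg h = |h| := by
  rcases le_total 0 h with h0 | h0
  · rw [abs_of_nonneg h0] at hh ⊢; rw [sg_one hh, mul_one]
  · rw [abs_of_nonpos h0] at hh ⊢; rw [sg_neg_one (by linarith)]; ring

theorem h_lt (hTH : S_TH) {p : E} (hp : p ∈ VV) : |hh p| < 101 / 100 := by
  by_contra h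
  have h1 := abs_lt.1 (U0_lt hTH hp)
  have h2 := mm_nonneg p.2.2
  have h3 := mul_sg (h := hh p) (by linarith)
  unfold U0 at h1
  linarith

theorem xb {y h : ℝ} (h0 : 0 ≤ h) (h1 : h < 101 / 100) (h2 : |y - π / 2 * sg h| < 1 / 20) :
    |sin y - h| < 4 / 5 := by
  have h3 := abs_le.1 ((abs_sin_sub_sin_le y (π / 2 * sg h)).trans h2.le)
  have h4 := sin_le_one y
  rw [abs_lt]
  rcases le_total (1 / 2) h with a | a
  · rw [sg_one a, mul_one, sin_pi_div_two] at h3
    constructor <;> linarith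
  rcases le_total h (1 / 4) with b | b
  · rw [sg_zero (by rw [abs_of_nonneg h0]; exact b), mul_zero, sin_zero] at h3
    constructor <;> linarith
  · have h5 : 0 ≤ sin (π / 2 * sg h) := by
      refine sin_nonneg_of_nonneg_of_le_pi ?_ ?_
      · exact mul_nonneg (by positivity) (sg_nonneg h0)
      · nlinarith [sg_le_one h, pi_pos]
    constructor <;> linarith

theorem x_lt (hTH : S_TH) {p : E} (hp : p ∈ VV) : |p.1| < 4 / 5 := by
  have h1 := abs_lt.1 (h_lt hTH hp)
  have h2 : |p.2.1 - π / 2 * sg (hh p)| < 1 / 20 := hp.2.1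
  have h3 : p.1 = sin p.2.1 - hh p := by unfold hh; ring
  rw [h3]
  rcases le_total 0 (hh p) with h | h
  · exact xb h h1.2 h2
  · have := xb (y := -p.2.1) (h := -hh p) (by linarith) (by linarith) (by
      rw [sg_neg, ← abs_neg]; convert h2 using 2; ring)
    rw [← abs_neg]
    convert this using 2
    rw [sin_neg]; ring

theorem side (hTH : S_TH) {p : E} (hp : p ∈ VV) (hz : |p.2.2| < 17 / 4) : 1 / 2 < |hh p| := by
  have h1 := abs_lt.1 (U0_lt hTH hp)
  have h2 : mm p.2.2 ≤ 1 / 4 := by
    rcases le_total 4 |p.2.2| with h | h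
    · linarith [mm_le h]
    · rw [mm_zero h]; norm_num
  have h3 := mul_sg_le (hh p)
  unfold U0 at h1
  linarith

end GEOx

theorem p_GEO (hTH : S_TH) :
    S_GEO := by
  refine ⟨GEOx.uu_cont, GEOx.xi_cont, GEOx.opn, fun p => GEOx.rad hTH, fun p => GEOx.quad hTH,
    fun p => GEOx.u_lt, fun p => GEOx.U0_lt hTH, fun p hp => ?_, fun p hp => ?_,
    fun p => GEOx.h_lt hTH, fun p => GEOx.x_lt hTH, fun p => GEOx.side hTH,
    fun p hp hz => ?_, fun p hp hz a ha h0 => ?_⟩
  · by_contra h
    have h1 := abs_lt.1 (GEOx.U0_lt hTH hp)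
    have h2 := mm_top (z := p.2.2) (by linarith)
    have h3 := mul_sg_nonneg (hh p)
    unfold U0 at h1
    linarith
  · have h1 := abs_lt.1 hp.2.1
    unfold tau at h1
    rw [abs_lt]
    constructor <;> nlinarith [sg_le_one (hh p), neg_one_le_sg (hh p), pi_pos]
  · have h1 := GEOx.quad hTH hp
    rw [dcc_top hz] at h1
    unfold U0 at h1
    rw [mm_top hz] at h1
    linarith
  · have h1 := GEOx.quad hTH hp
    have h2 := GEOx.side hTH hp (by linarith)
    have h3 : sg (hh p) = a := by
      rcases ha with rfl | rfl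
      · rw [abs_of_nonneg (by linarith)] at h2; exact sg_one h2.le
      · rw [abs_of_nonpos (by linarith)] at h2; exact sg_neg_one (by linarith)
    rw [dcc_leg hz] at h1
    unfold U0 at h1
    rw [mm_zero hz, h3] at h1
    have h4 : tau p = p.2.1 - a * (π / 2) := by unfold tau; rw [h3]; ring
    have h5 : uu p = a * hh p - 1 := by linarith
    refine ⟨h4, ?_, h5, ?_⟩
    · unfold xi
      rw [h4, h5]
      unfold hh
      rcases ha with rfl | rfl
      · rw [one_mul, cos_sub_pi_div_two]; ring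
      · rw [neg_one_mul, sub_neg_eq_add, cos_add_pi_div_two]; ring
    · unfold tt
      rw [cc_zero hz]; ring

end Pool.Agent.P.MP_ff4c85_gt.T
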