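import Pool.Agent.P.MP_ff4c85_gt.T.Iface

/-! Step GLOB. -/

set_option autoImplicit false

namespace Pool.Agent.P.MP_ff4c85_gt.T

open Set Filter Topology Real
open scoped ContDiff Classical

namespace GLOBx

theorem loc_const {f : ℝ → ℝ} {t₀ : ℝ} (h : ∀ᶠ t in 𝓝 t₀, HasDerivAt f 0 t) :
    ∀ᶠ t in 𝓝 t₀, f t = f t₀ := by
  obtain ⟨ε, hε, hb⟩ := Metric.eventually_nhds_iff_ball.1 h
  filter_upwards [Metric.ball_mem_nhds t₀ hε] with t ht
  exact Metric.isOpen_ball.is_const_of_deriv_eq_zero (convex_ball t₀ ε).isPreconnected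
    (fun y hy => (hb y hy).differentiableAt.differentiableWithinAt)
    (fun y hy => (hb y hy).deriv) ht (Metric.mem_ball_self hε)

theorem sign_pos_mul {a b : ℝ} (ha : 0 < a) : SignType.sign (a * b) = SignType.sign b := by
  rw [sign_mul, sign_pos ha, one_mul]

theorem loc (hGEO : S_GEO) (hASM : S_ASM) (hLOC : S_LOC) (c : ℝ → E) (hc : Traj c)
    (hk : ∀ t, 0 < kE (c t)) (t₀ : ℝ) :
    (∀ᶠ t in 𝓝 t₀, SignType.sign (HE (c t)) = SignType.sign (HE (c t₀)) ∧
      cl (zE (c t)) = cl (zE (c t₀))) ∧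
    ContinuousAt (fun t => xE (c t)) t₀ ∧ ContinuousAt (fun t => yE (c t)) t₀ := by
  have hcc : Continuous c := continuous_iff_continuousAt.2 fun t => (hc t).continuousAt
  rcases hASM.cover (c t₀) with hO | ⟨n, hn⟩
  · have hev : ∀ᶠ t in 𝓝 t₀, c t ∈ OO := hcc.continuousAt.eventually (hASM.opn.mem_nhds hO)
    have hH : ∀ᶠ t in 𝓝 t₀, HH (c t) = HH (c t₀) := by
      refine loc_const (f := fun t => HH (c t)) ?_
      filter_upwards [hev] with t ht
      have h1 := ((hASM.HH_sm.differentiable (by simp)) (c t)).hasFDerivAt.comp_hasDerivAt t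
        (hc t)
      rw [hASM.out _ ht, vout, cr, crs_left] at h1
      exact h1
    have hZ : ∀ᶠ t in 𝓝 t₀, zz (c t) = zz (c t₀) := by
      refine loc_const (f := fun t => zz (c t)) ?_
      filter_upwards [hev] with t ht
      have h1 := ((zz_sm.differentiable (by simp)) (c t)).hasFDerivAt.comp_hasDerivAt t (hc t)
      rw [hASM.out _ ht, vout, cr, crs_right] at h1
      exact h1
    obtain ⟨-, -, -, hz0, a0, ha0, hH0⟩ := hASM.outE _ hO
    refine ⟨?_, ?_, ?_⟩
    · filter_upwards [hev, hH, hZ] with t ht h1 h2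
      obtain ⟨-, -, -, hz, a, ha, hHt⟩ := hASM.outE _ ht
      refine ⟨?_, ?_⟩
      · rw [hHt, hH0, sign_pos_mul ha, sign_pos_mul ha0, h1]
      · rw [hz, hz0]; exact congrArg cl h2
    · refine ContinuousAt.congr (f := fun t => (c t).1) hcc.fst.continuousAt ?_
      filter_upwards [hev] with t ht
      exact (hASM.outE _ ht).2.1.symm
    · refine ContinuousAt.congr (f := fun t => (c t).2.1) hcc.snd.fst.continuousAt ?_
      filter_upwards [hev] with t ht
      exact (hASM.outE _ ht).2.2.1.symm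
  · have hev : ∀ᶠ t in 𝓝 t₀, c t - gam n ∈ VV :=
      (hcc.sub continuous_const).continuousAt.eventually (hGEO.opn.mem_nhds hn)
    have hd : ∀ᶠ t in 𝓝 t₀, HasDerivAt (fun s => c s - gam n) (vin (c t - gam n)) t := by
      filter_upwards [hev] with t ht
      have h1 := (hc t).sub_const (gam n)
      rw [(hASM.sel _ _ ht).1] at h1
      exact h1
    have hk0 : 0 < kL (c t₀ - gam n) := by
      rw [← (hASM.sel _ _ hn).2.1]; exact hk t₀
    obtain ⟨h1, h2, h3⟩ := hLOC (fun s => c s - gam n) t₀ hd hn hk0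
    refine ⟨?_, ?_, ?_⟩
    · filter_upwards [hev, h1] with t ht h4
      obtain ⟨-, -, -, -, hz, hH⟩ := hASM.sel _ _ ht
      obtain ⟨-, -, -, -, hz0, hH0⟩ := hASM.sel _ _ hn
      rw [hz, hz0, hH, hH0, h4.1, h4.2]
      exact ⟨rfl, rfl⟩
    · refine ContinuousAt.congr (h2.add (continuousAt_const (y := (gam n).1))) ?_
      filter_upwards [hev] with t ht
      exact (hASM.sel _ _ ht).2.2.1.symm
    · refine ContinuousAt.congr (h3.add (continuousAt_const (y := (gam n).2.1))) ?_
      filter_upwards [hev] with t ht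
      exact (hASM.sel _ _ ht).2.2.2.1.symm

end GLOBx

theorem p_GLOB (hTRI : S_TRI) (hGEO : S_GEO) (hASM : S_ASM) (hLOC : S_LOC) :
    S_GLOB := by
  intro c hc hk
  have h := GLOBx.loc hGEO hASM hLOC c hc hk
  refine ⟨fun s t => ⟨?_, ?_⟩, continuous_iff_continuousAt.2 fun t => (h t).2.1,
    continuous_iff_continuousAt.2 fun t => (h t).2.2⟩
  · have h1 : IsLocallyConstant fun t => SignType.sign (HE (c t)) :=
      (IsLocallyConstant.iff_eventually_eq _).2 fun t => (h t).1.mono fun _ hy => hy.1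
    exact h1.apply_eq_of_preconnectedSpace s t
  · have h1 : IsLocallyConstant fun t => cl (zE (c t)) :=
      (IsLocallyConstant.iff_eventually_eq _).2 fun t => (h t).1.mono fun _ hy => hy.2
    exact h1.apply_eq_of_preconnectedSpace s t

end Pool.Agent.P.MP_ff4c85_gt.T
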