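import Pool.Agent.P.MP_ff4c85_gt.T.Iface

/-! Step GOOD. -/

set_option autoImplicit false

namespace Pool.Agent.P.MP_ff4c85_gt.T

open Set Filter Topology Real
open scoped ContDiff Classical

namespace GOODx

theorem PP_pos : 0 < PP := by unfold PP dl; norm_num

theorem red (P : ℝ) (hP : 0 < P) (x : ℝ) : ∃ n : ℤ, |x + n * P| ≤ P := by
  refine ⟨-⌊x / P⌋, ?_⟩
  have h1 := Int.floor_le (x / P)
  have h2 := Int.lt_floor_add_one (x / P)
  rw [le_div_iff₀ hP] at h1
  rw [div_lt_iff₀ hP] at h2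
  push_cast
  rw [abs_le]
  constructor <;> nlinarith

theorem box (p : E) : ∃ n, p + gam n ∈ Metric.closedBall (0 : E) 7 := by
  obtain ⟨c, hc⟩ := red 6 (by norm_num) p.2.2
  obtain ⟨b, hb⟩ := red (2 * π) (by positivity) p.2.1
  obtain ⟨a, ha⟩ := red PP PP_pos (p.1 + c * (PP / 2))
  refine ⟨(a, b, c), ?_⟩
  rw [mem_closedBall_zero_iff]
  have hP : PP ≤ 7 := by unfold PP dl; norm_num
  have h1 : |p.1 + (a * PP + c * (PP / 2))| ≤ 7 := by
    rw [show p.1 + (a * PP + c * (PP / 2)) = p.1 + c * (PP / 2) + a * PP by ring]; linarith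
  have h2 : |p.2.1 + b * (2 * π)| ≤ 7 := by linarith [pi_lt_d2]
  have h3 : |p.2.2 + c * 6| ≤ 7 := by linarith
  simp only [gam, Prod.norm_def, Prod.fst_add, Prod.snd_add, Real.norm_eq_abs]
  exact max_le h1 (max_le h2 h3)

theorem bdd {F : Type} [NormedAddCommGroup F] {f : E → F} (hf : Continuous f)
    (hp : ∀ p n, f (p + gam n) = f p) : ∃ C : ℝ, ∀ p, ‖f p‖ ≤ C := by
  obtain ⟨C, hC⟩ := (isCompact_closedBall (0 : E) 7).exists_bound_of_continuousOn hf.continuousOn
  refine ⟨C, fun p => ?_⟩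
  obtain ⟨n, hn⟩ := box p
  rw [← hp p n]
  exact hC _ hn

noncomputable def vv : Fin 3 → E := ![gam (1, 0, 0), gam (0, 1, 0), gam (-1, 0, 2)]

theorem vv_li : LinearIndependent ℝ vv := by
  rw [Fintype.linearIndependent_iff]
  intro g hg i
  have hP := PP_pos
  simp only [vv, gam, Fin.sum_univ_three, Matrix.cons_val_zero, Matrix.cons_val_one,
    Matrix.cons_val_two, Matrix.head_cons, Matrix.tail_cons, Prod.smul_mk, Prod.mk_add_mk,
    Prod.mk_eq_zero, smul_eq_mul] at hg
  push_cast at hg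
  obtain ⟨h1, h2, h3⟩ := hg
  have e0 : g 0 = 0 := by
    have : g 0 * PP = 0 := by linarith
    exact (mul_eq_zero.1 this).resolve_right hP.ne'
  have e1 : g 1 = 0 := by
    have : g 1 * π = 0 := by linarith
    exact (mul_eq_zero.1 this).resolve_right pi_pos.ne'
  have e2 : g 2 = 0 := by linarith
  fin_cases i
  · exact e0
  · exact e1
  · exact e2

end GOODx

open GOODx in
theorem p_GOOD (hASM : S_ASM) (hSMO : S_SMO) (hDIAM : S_DIAM) :
    S_GOOD := by
  obtain ⟨hs, hd, hn⟩ := hSMO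
  have hper : ∀ p n, WW (p + gam n) = WW p := hASM.per
  obtain ⟨C, hC⟩ := bdd hs.continuous hper
  have hdiff : Differentiable ℝ WW := hs.differentiable (by simp)
  have hper' : ∀ p n, fderiv ℝ WW (p + gam n) = fderiv ℝ WW p := fun p n => by
    have h1 : (fun q => WW (q + gam n)) = WW := funext fun q => hper q n
    rw [← fderiv_comp_add_right (gam n), h1]
  obtain ⟨K, hK⟩ := bdd (hs.continuous_fderiv (by simp)) hper'
  have hcard : Fintype.card (Fin 3) = Module.finrank ℝ E := by simp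
  refine ⟨K.toNNReal, C, basisOfLinearIndependentOfCardEqFinrank vv_li hcard,
    ⟨hs, ?_, hC, hd, hn, hDIAM⟩, fun i p => ?_⟩
  · refine lipschitzWith_of_nnnorm_fderiv_le hdiff fun x => ?_
    rw [← NNReal.coe_le_coe, coe_nnnorm]
    exact (hK x).trans (Real.le_coe_toNNReal K)
  · rw [coe_basisOfLinearIndependentOfCardEqFinrank]
    fin_cases i
    · exact hper p _
    · exact hper p _
    · exact hper p _

end Pool.Agent.P.MP_ff4c85_gt.T
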