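import Pool.Agent.P.MP_ff4c85_gt.T.Iface

/-! Step GV. -/

set_option autoImplicit false

namespace Pool.Agent.P.MP_ff4c85_gt.T

open Set Filter Topology Real
open scoped ContDiff Classical

namespace GVx

theorem hc_five (T : Tri) {a : ℝ} (h : |a| ≤ 5) : hc (5 - a) = a ∧ hc (a - 5) = a := by
  have := abs_le.1 h
  constructor
  · rw [T.hc_eq _ (abs_le.2 ⟨by linarith, by linarith⟩), abs_of_nonneg (by linarith)]; ring
  · rw [T.hc_eq _ (abs_le.2 ⟨by linarith, by linarith⟩), abs_of_nonpos (by linarith)]; ring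

theorem hc_ten (T : Tri) {a : ℝ} (h : |a| ≤ 5) : hc (a - 10) = |a| - 5 := by
  have := abs_le.1 h
  rcases le_total 0 a with h0 | h0
  · rw [T.hc_eq _ (abs_le.2 ⟨by linarith, by linarith⟩), abs_of_nonpos (by linarith),
      abs_of_nonneg h0]; ring
  · rw [← T.hc_per _ 1, T.hc_eq _ (abs_le.2 ⟨by push_cast; linarith, by push_cast; linarith⟩),
      abs_of_nonneg (by push_cast; linarith), abs_of_nonpos h0]; push_cast; ring

theorem hc_ten' (T : Tri) {a : ℝ} (h : |a| ≤ 5) : hc (10 - a) = |a| - 5 := by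
  have := hc_ten T (a := -a) (by rwa [abs_neg])
  rw [abs_neg, ← T.hc_per _ 1] at this
  rw [← this]; congr 1; push_cast; ring

theorem cl_up (T : Tri) {a : ℝ} (h1 : 39 / 10 ≤ a) (h2 : a ≤ 6) : cl a = 6 := by
  have := T.cl_eq a 1 (abs_le.2 ⟨by push_cast; linarith, by push_cast; linarith⟩)
  simpa using this

theorem cl_dn (T : Tri) {a : ℝ} (h1 : a ≤ -(39 / 10)) (h2 : -6 ≤ a) : cl a = -6 := by
  have := T.cl_eq a (-1) (abs_le.2 ⟨by push_cast; linarith, by push_cast; linarith⟩)
  simpa using this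

theorem main (G : Geo) (T : Tri) (p : E) (hp : p ∈ VV) :
    cl (ze (GG p)) = cl p.2.2 ∧ sg (hc (GG p)) = sg (hh p) ∧
      (∃ c : ℝ, 0 < c ∧ hc (GG p) = c * hh p) ∧ (|ze (GG p)| < 39 / 10 → |p.2.2| < 4) := by
  have hz := abs_lt.1 (G.z_lt p hp)
  have hh1 := G.h_lt p hp
  have hh0 := abs_nonneg (hh p)
  have h5 : |hh p| ≤ 5 := by linarith
  unfold GG
  split_ifs with c1 c2 c3
  · have e1 := (hc_five T h5).1
    have e2 : ze (5 - hh p) = 5 - |hh p| := by
      rw [ze, T.hc_eq _ (by rw [show 5 - hh p - 5 = -hh p by ring, abs_neg]; linarith),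
        show 5 - hh p - 5 = -hh p by ring, abs_neg]
    rw [e1, e2]
    refine ⟨by rw [cl_up T (by linarith) (by linarith), cl_up T (by linarith) (by linarith)], rfl,
      ⟨1, one_pos, (one_mul _).symm⟩, fun h => ?_⟩
    have := abs_lt.1 h
    linarith
  · have e1 := (hc_five T h5).2
    have e2 : ze (hh p - 5) = |hh p| - 5 := by
      rw [ze, show hh p - 5 - 5 = hh p - 10 by ring, hc_ten T h5]
    rw [e1, e2]
    refine ⟨by rw [cl_dn T (by linarith) (by linarith), cl_dn T (by linarith) (by linarith)], rfl,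
      ⟨1, one_pos, (one_mul _).symm⟩, fun h => ?_⟩
    have := abs_lt.1 h
    linarith
  all_goals
    have hs := G.side p hp (abs_lt.2 ⟨by linarith, by linarith⟩)
    have hd : |tt p - p.2.2| < 1 / 790 := by
      rw [tt, add_sub_cancel_left, abs_mul]
      exact (mul_le_of_le_one_left (abs_nonneg _) (abs_cc_le _)).trans_lt (G.u_lt p hp)
    have hd' := abs_lt.1 hd
    have ht : |tt p| ≤ 22 / 5 := abs_le.2 ⟨by linarith, by linarith⟩
    have hcl : cl (tt p) = cl p.2.2 := by
      by_cases h4 : |p.2.2| ≤ 4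
      · rw [tt, cc_zero h4, zero_mul, add_zero]
      · rcases lt_abs.1 (not_le.1 h4) with h | h
        · rw [cl_up T (by linarith) (by linarith), cl_up T (by linarith) (by linarith)]
        · rw [cl_dn T (by linarith) (by linarith), cl_dn T (by linarith) (by linarith)]
    have hl : |tt p| < 39 / 10 → |p.2.2| < 4 := fun h => by
      have := abs_lt.1 h
      exact abs_lt.2 ⟨by linarith, by linarith⟩
  · have e1 := T.hc_eq (tt p) (by linarith)
    have e2 : ze (tt p) = tt p := (hc_five T (a := tt p) (by linarith)).2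
    rw [abs_of_pos c3] at hs
    rw [e1, e2]
    exact ⟨hcl, by rw [sg_one (by linarith), sg_one hs.le],
      ⟨(5 - |tt p|) / hh p, div_pos (by linarith) c3, by field_simp⟩, hl⟩
  · have e1 := hc_ten' T (a := tt p) (by linarith)
    have e2 : ze (10 - tt p) = tt p := by
      rw [ze, show 10 - tt p - 5 = 5 - tt p by ring, (hc_five T (a := tt p) (by linarith)).1]
    rw [abs_of_nonpos (not_lt.1 c3)] at hs
    have hn : hh p < 0 := by linarith
    rw [e1, e2]
    exact ⟨hcl, by rw [sg_neg_one (by linarith), sg_neg_one (by linarith)],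
      ⟨(|tt p| - 5) / hh p, div_pos_of_neg_of_neg (by linarith) hn,
        (div_mul_cancel₀ _ hn.ne).symm⟩, hl⟩

end GVx

theorem p_GV (hGEO : S_GEO) (hTRI : S_TRI) :
    S_GV := by
  intro p hp
  obtain ⟨h1, h2, h3, h4⟩ := GVx.main hGEO hTRI p hp
  refine ⟨h1, h2, h3, h4, ?_⟩
  have a := Tri.lam_cl hTRI (ze (GG p)) 0
  have b := Tri.lam_cl hTRI p.2.2 0
  simp only [Int.cast_zero, zero_mul, sub_zero] at a b
  rw [← a, ← b, h1]

end Pool.Agent.P.MP_ff4c85_gt.T
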