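import Pool.Agent.P.MP_ff4c85_gt.T.Iface

/-! Step INA. -/

set_option autoImplicit false

namespace Pool.Agent.P.MP_ff4c85_gt.T

open Set Filter Topology Real
open scoped ContDiff Classical

theorem p_INA (hGEO : S_GEO) (hCHA : S_CHA) :
    S_INA := by
  intro p _ h1 h2
  have hc : ∀ e : ℝ, Continuous (ss e) := fun e =>
    (sM_sm e).continuous.comp (f := fun q : E => (xi q, tau q)) (hGEO.xi_cont.prodMk tau_sm.continuous)
  have hk : ∀ e : ℝ, 1 / 16 < ss e p → kk e =ᶠ[𝓝 p] fun _ => 1 := fun e h =>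
    ((hc e).continuousAt.eventually (eventually_gt_nhds h)).mono fun q hq => ka_one hq.le
  have hd : ∀ e : ℝ, 1 / 16 < ss e p → cr (FF e) (kk e) p = 0 := fun e h => by
    unfold cr
    rw [(hk e h).fderiv_eq, fderiv_fun_const]
    exact crs_zero_right _
  have hpt : pt =ᶠ[𝓝 p] psi := by
    filter_upwards [hk 1 h1, hk (-1) h2] with q a b
    change kM 1 (xi q) (tau q) = 1 at a
    change kM (-1) (xi q) (tau q) = 1 at b
    unfold pt psi ptM
    rw [a, b]; ring
  have hmu : muu p = 0 := by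
    change 1 / 16 < sM 1 (xi p) (tau p) at h1
    change 1 / 16 < sM (-1) (xi p) (tau p) at h2
    unfold muu muM
    rw [mu_zero (by linarith), mu_zero (by linarith), add_zero]
  have hv : vin p = crs (fderiv ℝ psi p) (dG p) := by
    unfold vin
    rw [hpt.fderiv_eq, hd 1 h1, hd (-1) h2, hmu, zero_smul, sub_zero, sub_zero, add_zero]
  refine ⟨hv, ?_, ?_⟩
  · rw [hv]; exact crs_left _ _
  · rw [hv]; exact crs_right _ _

end Pool.Agent.P.MP_ff4c85_gt.T
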