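import Pool.Agent.P.MP_ff4c85_gt.T.Iface

/-! Step INB. -/

set_option autoImplicit false

namespace Pool.Agent.P.MP_ff4c85_gt.T

open Set Filter Topology Real
open scoped ContDiff Classical

namespace INBx

theorem pt_eq {e ξ τ : ℝ} (he : e = 1 ∨ e = -1) (h : sM e ξ τ < 1 / 9) (l L : ℝ) :
    ptM l L ξ τ = cM e l + kM e ξ τ * FM e ξ τ ∧ kM (-e) ξ τ = 1 := by
  obtain ⟨-, -, h1, h2⟩ := tube he h l L
  have h3 : kM (-e) ξ τ = 1 := ka_one (by linarith)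
  refine ⟨?_, h3⟩
  unfold ptM
  rw [h2]
  rcases he with rfl | rfl
  · rw [h3]; ring
  · rw [neg_neg] at h3
    rw [h3]; ring

theorem df1 {f : ℝ → ℝ → ℝ} (hf : ContDiff ℝ ∞ fun q : ℝ × ℝ => f q.1 q.2) (τ : ℝ) :
    Differentiable ℝ fun a => f a τ :=
  (hf.differentiable (by simp)).comp (f := fun a => (a, τ)) (by fun_prop)

theorem df2 {f : ℝ → ℝ → ℝ} (hf : ContDiff ℝ ∞ fun q : ℝ × ℝ => f q.1 q.2) (ξ : ℝ) :
    Differentiable ℝ fun a => f ξ a :=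
  (hf.differentiable (by simp)).comp (f := fun a => (ξ, a)) (by fun_prop)

theorem der1 {e ξ τ : ℝ} (he : e = 1 ∨ e = -1) (h : sM e ξ τ < 1 / 9) (l L : ℝ) :
    d1 (ptM l L) ξ τ = d1 (kM e) ξ τ * FM e ξ τ + kM e ξ τ * d1 (FM e) ξ τ ∧
      d1 (kM (-e)) ξ τ = 0 := by
  have h0 : ∀ᶠ a in 𝓝 ξ, sM e a τ < 1 / 9 :=
    (df1 (sM_sm e) τ).continuous.continuousAt.eventually_lt continuousAt_const h
  constructor
  · have h1 : (fun a => ptM l L a τ) =ᶠ[𝓝 ξ] fun a => cM e l + kM e a τ * FM e a τ :=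
      h0.mono fun a ha => (pt_eq he ha l L).1
    rw [d1, h1.deriv_eq]
    exact (((df1 (kM_sm e) τ ξ).hasDerivAt.mul (df1 (FM_sm e) τ ξ).hasDerivAt).const_add _).deriv
  · have h1 : (fun a => kM (-e) a τ) =ᶠ[𝓝 ξ] fun _ => 1 :=
      h0.mono fun a ha => (pt_eq he ha l L).2
    rw [d1, h1.deriv_eq, deriv_const]

theorem der2 {e ξ τ : ℝ} (he : e = 1 ∨ e = -1) (h : sM e ξ τ < 1 / 9) (l L : ℝ) :
    d2 (ptM l L) ξ τ = d2 (kM e) ξ τ * FM e ξ τ + kM e ξ τ * d2 (FM e) ξ τ ∧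
      d2 (kM (-e)) ξ τ = 0 := by
  have h0 : ∀ᶠ a in 𝓝 τ, sM e ξ a < 1 / 9 :=
    (df2 (sM_sm e) ξ).continuous.continuousAt.eventually_lt continuousAt_const h
  constructor
  · have h1 : (fun a => ptM l L ξ a) =ᶠ[𝓝 τ] fun a => cM e l + kM e ξ a * FM e ξ a :=
      h0.mono fun a ha => (pt_eq he ha l L).1
    rw [d2, h1.deriv_eq]
    exact (((df2 (kM_sm e) ξ τ).hasDerivAt.mul (df2 (FM_sm e) ξ τ).hasDerivAt).const_add _).deriv
  · have h1 : (fun a => kM (-e) ξ a) =ᶠ[𝓝 τ] fun _ => 1 :=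
      h0.mono fun a ha => (pt_eq he ha l L).2
    rw [d2, h1.deriv_eq, deriv_const]

theorem cm_eq {e ξ τ : ℝ} (he : e = 1 ∨ e = -1) (h : sM e ξ τ < 1 / 9) :
    CM ξ τ - muM ξ τ = -br (FM e) (kM e) ξ τ := by
  have h0 : br (FM (-e)) (kM (-e)) ξ τ = 0 := by
    rw [br, (der1 he h 0 0).2, (der2 he h 0 0).2]; ring
  unfold CM
  rcases he with rfl | rfl
  · rw [h0]; ring
  · rw [neg_neg] at h0
    rw [h0]; ring

end INBx

open INBx in
theorem p_INB (hCHA : S_CHA) (hDEC : S_DEC) :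
    S_INB := by
  intro p hp e he h
  obtain ⟨h1, h2, h3⟩ := hDEC p hp
  have hx : DifferentiableAt ℝ xi p := (hCHA.xi_sm p hp).differentiableAt (by simp)
  have ht : DifferentiableAt ℝ tau p := tau_sm.differentiable (by simp) p
  have ch : ∀ f : ℝ → ℝ → ℝ, (ContDiff ℝ ∞ fun q : ℝ × ℝ => f q.1 q.2) →
      HasFDerivAt (fun q => f (xi q) (tau q))
        (d1 f (xi p) (tau p) • fderiv ℝ xi p + d2 f (xi p) (tau p) • fderiv ℝ tau p) p :=
    fun f hf => by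
      have h0 := hf.differentiable (by simp) (xi p, tau p)
      rw [← fderiv_comp2 h0 hx ht]
      exact (h0.comp (f := fun q => (xi q, tau q)) p (hx.prodMk ht)).hasFDerivAt
  have hk : HasFDerivAt (kk e) _ p := ch _ (kM_sm e)
  have hF : HasFDerivAt (FF e) _ p := ch _ (FM_sm e)
  have hm : HasFDerivAt (fun q => kk e q * FF e q) _ p := hk.mul hF
  have a1 := (der1 he h (lam p.2.2) (La p.2.2)).1
  have a2 := (der2 he h (lam p.2.2) (La p.2.2)).1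
  rw [hm.fderiv, hk.fderiv, h3, muu, cm_eq he h, br]
  simp only [ContinuousLinearMap.add_apply, ContinuousLinearMap.smul_apply, smul_eq_mul, h1, h2,
    a1, a2, kk, FF]
  constructor <;> ring

end Pool.Agent.P.MP_ff4c85_gt.T
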