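import Pool.Agent.P.MP_ff4c85_gt.T.Iface

/-! Step ISL. -/

set_option autoImplicit false

namespace Pool.Agent.P.MP_ff4c85_gt.T

open Set Filter Topology Real
open scoped ContDiff Classical

theorem p_ISL (hGEO : S_GEO) (hCORE : S_CORE) (hASM : S_ASM) :
    S_ISL := by
  intro c hc hk s t
  have h1 : ∀ t, ∃ n, c t - gam n ∈ VV := fun t => by
    by_contra h
    have := hk t
    rw [kE, dif_neg h] at this
    linarith
  choose n hn using h1
  have h2 : IsLocallyConstant n := by
    refine (IsLocallyConstant.iff_eventually_eq n).2 fun t => ?_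
    have : ∀ᶠ s in 𝓝 t, c s - gam (n t) ∈ VV :=
      (hc.sub continuous_const).continuousAt.eventually (hGEO.opn.mem_nhds (hn t))
    exact this.mono fun s hs => hCORE.disj _ _ _ (hn s) hs
  have h3 : n s = n t := h2.apply_eq_of_preconnectedSpace s t
  have h4 : ∀ p ∈ VV, ‖p‖ ≤ 50 := fun p hp => by
    have a1 := hGEO.x_lt p hp
    have a2 := hGEO.y_lt p hp
    have a3 := hGEO.z_lt p hp
    rw [Prod.norm_def, Prod.norm_def, Real.norm_eq_abs, Real.norm_eq_abs, Real.norm_eq_abs]
    exact max_le (by linarith) (max_le (by linarith [pi_lt_four]) (by linarith))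
  have h5 := h4 _ (hn s)
  have h6 := h4 _ (hn t)
  rw [h3] at h5
  rw [← dist_sub_right _ _ (gam (n t)), dist_eq_norm]
  exact (norm_sub_le _ _).trans (by linarith)

end Pool.Agent.P.MP_ff4c85_gt.T
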