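import Pool.Agent.P.MP_ff4c85_gt.T.Iface

/-! Step KS. -/

set_option autoImplicit false

namespace Pool.Agent.P.MP_ff4c85_gt.T

open Set Filter Topology Real
open scoped ContDiff Classical

namespace KSx

/-- local linear equation -/
def Lin (k : ℝ → ℝ) (t₀ : ℝ) : Prop :=
  ∃ q : ℝ → ℝ, ContinuousAt q t₀ ∧ ∀ᶠ t in 𝓝 t₀, HasDerivAt k (k t * q t) t

theorem Lin.congr {k k' : ℝ → ℝ} {t₀ : ℝ} (h : Lin k t₀) (e : k' =ᶠ[𝓝 t₀] k) : Lin k' t₀ := by
  obtain ⟨q, hq, h⟩ := h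
  refine ⟨q, hq, ?_⟩
  filter_upwards [h, e.eventually_nhds] with t h1 h2
  rw [h2.self_of_nhds]
  exact h1.congr_of_eventuallyEq h2

theorem Lin.one (t₀ : ℝ) : Lin (fun _ => 1) t₀ :=
  ⟨fun _ => 0, continuousAt_const, Eventually.of_forall fun t => by
    simpa using hasDerivAt_const t (1 : ℝ)⟩

theorem Lin.mul {k k' : ℝ → ℝ} {t₀ : ℝ} (h : Lin k t₀) (h' : Lin k' t₀) :
    Lin (fun t => k t * k' t) t₀ := by
  obtain ⟨q, hq, h⟩ := h
  obtain ⟨q', hq', h'⟩ := h'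
  refine ⟨fun t => q t + q' t, hq.add hq', ?_⟩
  filter_upwards [h, h'] with t h1 h2
  have h3 := h1.mul h2
  have e : k t * k' t * (q t + q' t) = k t * q t * k' t + k t * (k' t * q' t) := by ring
  rw [e]
  exact h3

theorem Lin.zero {k : ℝ → ℝ} {t₀ : ℝ} (h : Lin k t₀) (h0 : k t₀ = 0) :
    ∀ᶠ t in 𝓝 t₀, k t = 0 := by
  obtain ⟨q, hq, h⟩ := h
  have hb : ∀ᶠ t in 𝓝 t₀, ‖q t‖₊ ≤ ‖q t₀‖₊ + 1 :=
    (hq.nnnorm.eventually (gt_mem_nhds (lt_add_one _))).mono fun t ht => le_of_lt ht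
  refine ODE_solution_unique_of_eventually (v := fun t x => x * q t) (s := fun _ => univ)
    (K := ‖q t₀‖₊ + 1) (g := fun _ => 0) ?_ ?_ ?_ h0
  · filter_upwards [hb] with t ht
    refine LipschitzWith.lipschitzOnWith (LipschitzWith.of_dist_le_mul fun x y => ?_)
    rw [Real.dist_eq, Real.dist_eq, ← sub_mul, abs_mul, mul_comm]
    exact mul_le_mul_of_nonneg_right (by exact_mod_cast ht) (abs_nonneg _)
  · filter_upwards [h] with t ht using ⟨ht, mem_univ _⟩
  · exact Eventually.of_forall fun t => ⟨by simpa using hasDerivAt_const t (0 : ℝ), mem_univ _⟩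

theorem pos_of_lin {k : ℝ → ℝ} (h : ∀ t, Lin k t) {s : ℝ} (hs : 0 < k s) (t : ℝ) : 0 < k t := by
  have hc : Continuous k := continuous_iff_continuousAt.2 fun t => by
    obtain ⟨q, -, h⟩ := h t
    exact h.self_of_nhds.continuousAt
  have hcl : IsClopen {t | k t = 0} :=
    ⟨isClosed_eq hc continuous_const, isOpen_iff_mem_nhds.2 fun t ht => (h t).zero ht⟩
  by_contra ht
  obtain ⟨r, hr⟩ := intermediate_value_univ t s hc ⟨not_lt.1 ht, hs.le⟩
  have := hcl.eq_univ ⟨r, hr⟩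
  have h1 : s ∈ {t | k t = 0} := this ▸ mem_univ s
  exact hs.ne' h1

theorem lin_kk (hGEO : S_GEO) (hCHA : S_CHA) (hINB : S_INB) (hVSM : S_VSM) {p : ℝ → E} {t₀ : ℝ}
    (hp : ∀ᶠ t in 𝓝 t₀, HasDerivAt p (vin (p t)) t) (h0 : p t₀ ∈ VV) {e : ℝ}
    (he : e = 1 ∨ e = -1) : Lin (fun t => kk e (p t)) t₀ := by
  have hpc : ContinuousAt p t₀ := hp.self_of_nhds.continuousAt
  have hV : ∀ᶠ t in 𝓝 t₀, p t ∈ VV := hpc.eventually (hGEO.opn.mem_nhds h0)
  have hxt : ∀ r ∈ VV, ContDiffAt ℝ ∞ (fun r => (xi r, tau r)) r := fun r hr =>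
    (hCHA.xi_sm r hr).prodMk tau_sm.contDiffAt
  have hs : ContinuousAt (fun t => ss e (p t)) t₀ :=
    ContinuousAt.comp (f := p) (g := ss e)
      (((sM_sm e).contDiffAt.comp _ (hxt _ h0)).continuousAt) hpc
  rcases lt_or_ge (ss e (p t₀)) (1 / 9) with h1 | h1
  · obtain ⟨g, hg, hG⟩ := hCHA.loc _ h0
    have hG' : dG =ᶠ[𝓝 (p t₀)] fderiv ℝ g := hG.mono fun r hr => hr.1
    have hdG : ContinuousAt dG (p t₀) :=
      (hg.continuousAt_fderiv (by simp)).congr hG'.symm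
    have hm : ContinuousAt muu (p t₀) := (muM_sm.contDiffAt.comp _ (hxt _ h0)).continuousAt
    have hv : ContinuousAt vin (p t₀) := (hVSM _ h0).1.continuousAt
    refine ⟨fun t => dG (p t) (vin (p t)) - muu (p t),
      ContinuousAt.comp (f := p) (g := fun r => dG r (vin r) - muu r)
        ((hdG.clm_apply hv).sub hm) hpc, ?_⟩
    filter_upwards [hp, hV, hs.eventually (gt_mem_nhds h1)] with t h2 h3 h4
    have h5 : DifferentiableAt ℝ (kk e) (p t) :=
      ((kM_sm e).contDiffAt.comp _ (hxt _ h3)).differentiableAt (by simp)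
    have h6 := h5.hasFDerivAt.comp_hasDerivAt t h2
    rw [(hINB _ h3 e he h4).2] at h6
    exact h6
  · refine (Lin.one t₀).congr ?_
    filter_upwards [hs.eventually (lt_mem_nhds (show (1 : ℝ) / 16 < ss e (p t₀) by linarith))]
      with t ht
    exact ka_one ht.le

end KSx

open KSx in
theorem p_KS (hGEO : S_GEO) (hCHA : S_CHA) (hINB : S_INB) (hVSM : S_VSM) (hASM : S_ASM) :
    S_KS := by
  intro c hc s t hs
  refine pos_of_lin (k := fun t => kE (c t)) (fun t₀ => ?_) hs t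
  have hcc : ContinuousAt c t₀ := (hc t₀).continuousAt
  rcases hASM.cover (c t₀) with h | ⟨n, h⟩
  · refine (Lin.one t₀).congr ?_
    filter_upwards [hcc.eventually (hASM.opn.mem_nhds h)] with t ht
    exact (hASM.outE _ ht).1
  · have hV : ∀ᶠ t in 𝓝 t₀, c t - gam n ∈ VV :=
      (hcc.sub continuousAt_const).eventually (hGEO.opn.mem_nhds h)
    have hp : ∀ᶠ t in 𝓝 t₀, HasDerivAt (fun t => c t - gam n) (vin (c t - gam n)) t := by
      filter_upwards [hV] with t ht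
      rw [← (hASM.sel _ n ht).1]
      exact (hc t).sub_const _
    refine ((lin_kk hGEO hCHA hINB hVSM hp h (Or.inl rfl)).mul
      (lin_kk hGEO hCHA hINB hVSM hp h (Or.inr rfl))).congr ?_
    filter_upwards [hV] with t ht
    exact (hASM.sel _ n ht).2.1

end Pool.Agent.P.MP_ff4c85_gt.T
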