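import Pool.Agent.P.MP_ff4c85_gt.T.Iface

/-! Step LAM. -/

set_option autoImplicit false

namespace Pool.Agent.P.MP_ff4c85_gt.T

open Set Filter Topology Real
open scoped ContDiff Classical

namespace LAMx

theorem per (z : ℝ) (j : ℤ) : lam (z + j * 12) = lam z := by
  unfold lam
  rw [show π * (z + j * 12) / 6 = π * z / 6 + j * (2 * π) by ring, cos_add_int_mul_two_pi]

theorem neg (z : ℝ) : lam (-z) = lam z := by
  unfold lam
  rw [show π * -z / 6 = -(π * z / 6) by ring, cos_neg]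

theorem abs_eq (z : ℝ) : lam |z| = lam z := by
  rcases abs_choice z with h | h <;> rw [h]
  exact neg z

theorem one (z : ℝ) (h : |z| ≤ 3) : lam z = 1 := by
  obtain ⟨h1, h2⟩ := abs_le.1 h
  have : 0 ≤ cos (π * z / 6) :=
    cos_nonneg_of_neg_pi_div_two_le_of_le (by nlinarith [pi_pos]) (by nlinarith [pi_pos])
  exact th_one (by linarith)

theorem zero0 (z : ℝ) (h1 : 39 / 10 ≤ z) (h2 : z ≤ 6) : lam z = 0 := by
  have h3 := mul_le_sin (x := π * (z - 3) / 6) (by nlinarith [pi_pos]) (by nlinarith [pi_pos])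
  rw [show 2 / π * (π * (z - 3) / 6) = (z - 3) / 3 by field_simp; ring] at h3
  have h4 : cos (π * z / 6) = -sin (π * (z - 3) / 6) := by
    rw [← cos_add_pi_div_two]; congr 1; ring
  exact th_zero (by linarith)

theorem zero (z : ℝ) (h1 : 39 / 10 ≤ |z|) (h2 : |z| ≤ 81 / 10) : lam z = 0 := by
  rw [← abs_eq]
  rcases le_total |z| 6 with h | h
  · exact zero0 _ h1 h
  · rw [← neg, ← per _ 1]
    exact zero0 _ (by push_cast; linarith) (by push_cast; linarith)

theorem one' (z : ℝ) (h1 : 3 ≤ |z|) (h2 : |z| ≤ 9) : lam (z - 6) = 1 := by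
  rcases abs_choice z with h | h <;> rw [h] at h1 h2
  · exact one _ (abs_le.2 ⟨by linarith, by linarith⟩)
  · rw [← per _ 1]
    exact one _ (abs_le.2 ⟨by push_cast; linarith, by push_cast; linarith⟩)

theorem red (z : ℝ) : ∃ j : ℤ, |z - j * 12| ≤ 6 := by
  refine ⟨round (z / 12), ?_⟩
  have := abs_le.1 (abs_sub_round (z / 12))
  exact abs_le.2 ⟨by linarith [this.1], by linarith [this.2]⟩

theorem full (z : ℝ) : lam z = 1 ∨ lam (z - 6) = 1 := by
  obtain ⟨j, hj⟩ := red z
  rcases le_total |z - j * 12| 3 with h | h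
  · left
    rw [← one _ h, ← per (z - j * 12) j, sub_add_cancel]
  · right
    rw [← one' _ h (by linarith), ← per (z - j * 12 - 6) j]
    congr 1; ring

theorem near (z : ℝ) (h : 0 < lam z) : ∃ j : ℤ, |z - j * 12| < 39 / 10 := by
  obtain ⟨j, hj⟩ := red z
  refine ⟨j, lt_of_not_ge fun h1 => h.ne' ?_⟩
  rw [← zero _ h1 (by linarith), ← per (z - j * 12) j, sub_add_cancel]

end LAMx

theorem p_LAM :
    S_LAM := by
  refine ⟨LAMx.per, LAMx.neg, LAMx.one, LAMx.zero, LAMx.one', LAMx.full, LAMx.near,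
    fun z => ?_, fun z => ?_⟩ <;> unfold La
  · rcases LAMx.full z with h | h <;> linarith [lam_nonneg z, lam_nonneg (z - 6)]
  · linarith [lam_le_one z, lam_le_one (z - 6)]

end Pool.Agent.P.MP_ff4c85_gt.T
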