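import Pool.Agent.P.MP_ff4c85_gt.T.Iface

/-! Step LOC. -/

set_option autoImplicit false

namespace Pool.Agent.P.MP_ff4c85_gt.T

open Set Filter Topology Real
open scoped ContDiff Classical

namespace LOCx

theorem const {f : ℝ → ℝ} {t₀ : ℝ} (h : ∀ᶠ t in 𝓝 t₀, HasDerivAt f 0 t) :
    ∀ᶠ t in 𝓝 t₀, f t = f t₀ := by
  obtain ⟨r, hr, h1⟩ := Metric.eventually_nhds_iff_ball.1 h
  filter_upwards [Metric.ball_mem_nhds t₀ hr] with t ht
  exact Metric.isOpen_ball.is_const_of_deriv_eq_zero (convex_ball t₀ r).isPreconnected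
    (fun s hs => (h1 s hs).differentiableAt.differentiableWithinAt)
    (fun s hs => (h1 s hs).deriv) ht (Metric.mem_ball_self hr)

theorem two {F : ℝ × ℝ → ℝ} (hF : ContDiff ℝ ∞ F) (hC : ChA) {p : E} (hp : p ∈ VV) :
    DifferentiableAt ℝ (fun q => F (xi q, tau q)) p :=
  (hF.contDiffAt.comp p ((hC.xi_sm p hp).prodMk tau_sm.contDiffAt)).differentiableAt (by simp)

theorem psi_diff (hC : ChA) {p : E} (hp : p ∈ VV) : DifferentiableAt ℝ psi p := by
  have h1 : ContDiffAt ℝ ∞ (fun q : E => lam q.2.2) p := by fun_prop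
  have h2 : ContDiffAt ℝ ∞ (fun q : E => La q.2.2) p := by fun_prop
  exact (psiM_sm.contDiffAt.comp p (h1.prodMk (h2.prodMk
    ((hC.xi_sm p hp).prodMk tau_sm.contDiffAt)))).differentiableAt (by simp)

theorem inside {e : ℝ} (he : e = 1 ∨ e = -1) {q : E} (h : ss e q < 1 / 9) :
    kL q = kk e q ∧ psiP q = cM e (lam (ze (gg q))) + kk e q * FF e q ∧
      (0 < kk e q → muu q = 0) := by
  have h1 : 1 < ss (-e) q := (tube he h 0 0).2.2.1
  have h2 : kk (-e) q = 1 := ka_one (s := ss (-e) q) (by linarith)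
  have h3 : mu (ss (-e) q) = 0 := mu_zero (by linarith)
  have h4 : 0 < kk e q → mu (ss e q) = 0 := fun k => mu_zero (lt_of_ka_pos k).le
  rcases he with rfl | rfl
  · refine ⟨by rw [kL, h2, mul_one], if_pos h, fun k => ?_⟩
    change mu (ss 1 q) + mu (ss (-1) q) = 0
    rw [h3, h4 k, add_zero]
  · rw [neg_neg] at h1 h2 h3
    refine ⟨by rw [kL, h2, one_mul], ?_, fun k => ?_⟩
    · rw [psiP, if_neg (by linarith), if_pos h]
    · change mu (ss 1 q) + mu (ss (-1) q) = 0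
      rw [h3, h4 k, add_zero]

theorem outside (hGV : S_GV) {q : E} (hq : q ∈ VV) (h1 : 1 / 16 < ss 1 q)
    (h2 : 1 / 16 < ss (-1) q) : gg q = GG q ∧ psiP q = psi q := by
  have k1 : kk 1 q = 1 := ka_one h1.le
  have k2 : kk (-1) q = 1 := ka_one h2.le
  have h3 : gg q = GG q := by rw [gg, kL, k1, k2, mul_one, Real.log_one, sub_zero]
  refine ⟨h3, ?_⟩
  rw [psiP, h3, (hGV q hq).2.2.2.2, k1, k2, one_mul, one_mul]
  split_ifs with a b
  · exact ((tube (.inl rfl) a _ _).2.2.2).symm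
  · exact ((tube (.inr rfl) b _ _).2.2.2).symm
  · rfl

end LOCx

theorem p_LOC (hTRI : S_TRI) (hGEO : S_GEO) (hCHA : S_CHA) (hGV : S_GV) (hINA : S_INA) (hINB : S_INB) :
    S_LOC := by
  intro c t₀ hc hV hk
  have c0 : ContinuousAt c t₀ := hc.self_of_nhds.continuousAt
  have eV : ∀ᶠ t in 𝓝 t₀, c t ∈ VV := c0.eventually (hGEO.opn.mem_nhds hV)
  obtain ⟨g, g1, g2⟩ := hCHA.loc _ hV
  have g3 : ∀ᶠ t in 𝓝 t₀, DifferentiableAt ℝ g (c t) :=
    c0.eventually (((g1.of_le (m := 1) (by simp)).eventually (by simp)).mono fun q hq =>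
      hq.differentiableAt (by simp))
  have g4 := c0.eventually g2
  have gd : ∀ᶠ t in 𝓝 t₀, HasDerivAt (fun s => g (c s)) (dG (c t) (vin (c t))) t := by
    filter_upwards [hc, g3, g4] with t a b d
    rw [d.1]
    exact b.hasFDerivAt.comp_hasDerivAt t a
  have sc : ∀ e, ContinuousAt (fun t => ss e (c t)) t₀ := fun e =>
    (LOCx.two (sM_sm e) hCHA hV).continuousAt.comp c0
  have key : ∃ u : ℝ, ∀ᶠ t in 𝓝 t₀, (∃ n : ℤ, gg (c t) = u + n * 20) ∧
      (ze (gg (c t)) = ze (gg (c t₀)) → psiP (c t) = psiP (c t₀)) := by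
    by_cases hA : ∃ e : ℝ, (e = 1 ∨ e = -1) ∧ ss e (c t₀) < 1 / 9
    · obtain ⟨e, he, hs⟩ := hA
      have e1 : ∀ᶠ t in 𝓝 t₀, ss e (c t) < 1 / 9 := (sc e).eventually_lt continuousAt_const hs
      have k0 : 0 < kk e (c t₀) := by rw [← (LOCx.inside he hs).1]; exact hk
      have e2 : ∀ᶠ t in 𝓝 t₀, 0 < kk e (c t) := continuousAt_const.eventually_lt
        ((LOCx.two (kM_sm e) hCHA hV).continuousAt.comp c0) k0
      have d1 : ∀ᶠ t in 𝓝 t₀, HasDerivAt (fun s => g (c s) - Real.log (kk e (c s))) 0 t := by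
        filter_upwards [hc, eV, gd, e1, e2] with t a v b s k
        have h1 : HasDerivAt (fun s => kk e (c s)) (fderiv ℝ (kk e) (c t) (vin (c t))) t :=
          (LOCx.two (kM_sm e) hCHA v).hasFDerivAt.comp_hasDerivAt t a
        have h2 := b.sub (h1.log k.ne')
        rw [(hINB _ v e he s).2, (LOCx.inside he s).2.2 k, sub_zero,
          mul_div_cancel_left₀ _ k.ne', sub_self] at h2
        exact h2
      have d2 : ∀ᶠ t in 𝓝 t₀, HasDerivAt (fun s => kk e (c s) * FF e (c s)) 0 t := by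
        filter_upwards [hc, eV, e1] with t a v s
        have h0 : DifferentiableAt ℝ (fun q => kk e q * FF e q) (c t) :=
          (LOCx.two (kM_sm e) hCHA v).mul (LOCx.two (FM_sm e) hCHA v)
        have h1 := h0.hasFDerivAt.comp_hasDerivAt t a
        rw [(hINB _ v e he s).1] at h1
        exact h1
      refine ⟨g (c t₀) - Real.log (kk e (c t₀)), ?_⟩
      filter_upwards [LOCx.const d1, LOCx.const d2, g4, e1] with t a b d s
      obtain ⟨n, hn⟩ := d.2
      refine ⟨⟨n, ?_⟩, fun z => ?_⟩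
      · rw [gg, hn, (LOCx.inside he s).1, ← a]; ring
      · rw [(LOCx.inside he s).2.1, (LOCx.inside he hs).2.1, z, b]
    · have s0 : ∀ e : ℝ, (e = 1 ∨ e = -1) → ∀ᶠ t in 𝓝 t₀, 1 / 16 < ss e (c t) := fun e he =>
        continuousAt_const.eventually_lt (sc e) (by
          have := not_lt.1 fun h => hA ⟨e, he, h⟩
          linarith)
      have s1 := s0 1 (.inl rfl)
      have s2 := s0 (-1) (.inr rfl)
      have d1 : ∀ᶠ t in 𝓝 t₀, HasDerivAt (fun s => g (c s)) 0 t := by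
        filter_upwards [eV, gd, s1, s2] with t v b a a'
        rwa [(hINA _ v a a').2.2] at b
      have d2 : ∀ᶠ t in 𝓝 t₀, HasDerivAt (fun s => psi (c s)) 0 t := by
        filter_upwards [hc, eV, s1, s2] with t h v a a'
        have h1 := (LOCx.psi_diff hCHA v).hasFDerivAt.comp_hasDerivAt t h
        rw [(hINA _ v a a').2.1] at h1
        exact h1
      refine ⟨g (c t₀), ?_⟩
      filter_upwards [LOCx.const d1, LOCx.const d2, g4, eV, s1, s2] with t a b d v x y
      obtain ⟨n, hn⟩ := d.2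
      refine ⟨⟨n, ?_⟩, fun _ => ?_⟩
      · rw [(LOCx.outside hGV v x y).1, hn, a]
      · rw [(LOCx.outside hGV v x y).2, b,
          (LOCx.outside hGV hV s1.self_of_nhds s2.self_of_nhds).2]
  obtain ⟨u, key⟩ := key
  obtain ⟨n₀, h0⟩ := key.self_of_nhds.1
  have k2 : ∀ᶠ t in 𝓝 t₀, T.hc (gg (c t)) = T.hc (gg (c t₀)) ∧ ze (gg (c t)) = ze (gg (c t₀)) ∧
      psiP (c t) = psiP (c t₀) := by
    filter_upwards [key] with t ⟨⟨n, hn⟩, h⟩
    have z : ze (gg (c t)) = ze (gg (c t₀)) := by rw [hn, h0, hTRI.ze_per, hTRI.ze_per]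
    exact ⟨by rw [hn, h0, hTRI.hc_per, hTRI.hc_per], z, h z⟩
  refine ⟨k2.mono fun t h => ⟨by rw [HL, HL, h.1, h.2.2], h.2.1⟩, ?_, ?_⟩
  · have h1 : ContinuousAt (fun t => if |ze (gg (c t₀))| < 39 / 10 then
        sn (T.hc (gg (c t₀))) * xi (c t) else (c t).1) t₀ := by
      split_ifs
      · exact continuousAt_const.mul (hGEO.xi_cont.continuousAt.comp c0)
      · exact c0.fst
    exact h1.congr (k2.mono fun t h => by simp only [xL, h.1, h.2.1])
  · have h1 : ContinuousAt (fun t => π / 2 * sg (T.hc (gg (c t₀))) + tau (c t)) t₀ :=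
      continuousAt_const.add (tau_sm.continuous.continuousAt.comp c0)
    exact h1.congr (k2.mono fun t h => by simp only [yL, h.1])

end Pool.Agent.P.MP_ff4c85_gt.T
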