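import Pool.Agent.P.MP_ff4c85_gt.T.Iface

/-! Step MAT. -/

set_option autoImplicit false

namespace Pool.Agent.P.MP_ff4c85_gt.T

open Set Filter Topology Real
open scoped ContDiff Classical

theorem p_MAT (hSAW : S_SAW) (hGEO : S_GEO) (hCORE : S_CORE) (hCHA : S_CHA) (hCHB : S_CHB)
    (hINA : S_INA) (hPSI : S_PSI) :
    S_MAT := by
  intro p hp hS
  obtain ⟨h1, h2, -⟩ := offcore hp.2.1 (hCORE.off p hp hS) 0 0
  have h3 := (hINA p hp (by unfold ss; linarith) (by unfold ss; linarith)).1
  have hev : ∀ᶠ q in 𝓝 p, q ∈ VV ∧ q ∉ Sc := by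
    filter_upwards [hGEO.opn.mem_nhds hp, hCORE.cpt.isClosed.isOpen_compl.mem_nhds hS]
      with q hq hq' using ⟨hq, hq'⟩
  have hz : Continuous fun q : E => |q.2.2| := by fun_prop
  have hH : DifferentiableAt ℝ HH p := by
    have hZ := hSAW.sm
    have : ContDiff ℝ ∞ HH := by unfold HH; fun_prop
    exact this.differentiable (by simp) p
  rw [h3, vout, cr]
  rcases lt_or_ge |p.2.2| 4 with h | h
  · have e1 : ∀ᶠ q in 𝓝 p, |q.2.2| < 4 := hz.continuousAt.eventually_lt continuousAt_const h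
    have hs := hGEO.side p hp (by linarith)
    have e2 : ∀ᶠ q in 𝓝 p, sn (hh q) = sn (hh p) := by
      rcases lt_abs.1 hs with h4 | h4
      · have : ∀ᶠ q in 𝓝 p, 0 < hh q :=
          continuousAt_const.eventually_lt hh_sm.continuous.continuousAt (by linarith)
        exact this.mono fun q hq => by rw [sn_pos hq, sn_pos (by linarith)]
      · have : ∀ᶠ q in 𝓝 p, hh q < 0 :=
          hh_sm.continuous.continuousAt.eventually_lt continuousAt_const (by linarith)
        exact this.mono fun q hq => by rw [sn_nonpos hq.le, sn_nonpos (by linarith)]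
    have e3 : psi =ᶠ[𝓝 p] fun q => sn (hh p) * HH q - 1 := by
      filter_upwards [hev, e1, e2] with q hq h5 h6
      rw [(hPSI q hq.1 hq.2).1 h5, h6]
    have e4 : fderiv ℝ psi p = sn (hh p) • fderiv ℝ HH p := by
      rw [e3.fderiv_eq]
      exact ((hH.hasFDerivAt.const_mul (sn (hh p))).sub_const 1).fderiv
    have e5 : sn (hh p) * sn (hh p) = 1 := by
      unfold sn
      split_ifs <;> norm_num
    rw [e4, hCHA.c3 p hp h, crs_smul_left, crs_smul_right, smul_smul, e5, one_smul]
  · have e1 : ∀ᶠ q in 𝓝 p, 39 / 10 < |q.2.2| :=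
      continuousAt_const.eventually_lt hz.continuousAt (by linarith)
    have e3 : psi =ᶠ[𝓝 p] uu := by
      filter_upwards [hev, e1] with q hq h5
      exact ((hPSI q hq.1 hq.2).2 h5).1
    have e4 : HH =ᶠ[𝓝 p] hh := by
      filter_upwards [hev, e1] with q hq h5
      exact ((hPSI q hq.1 hq.2).2 h5).2
    rw [e3.fderiv_eq, e4.fderiv_eq, (hCHB p hp).1, cr]

end Pool.Agent.P.MP_ff4c85_gt.T
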