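import Pool.Agent.P.MP_ff4c85_gt.T.Iface

/-! Step NZA. -/

set_option autoImplicit false

namespace Pool.Agent.P.MP_ff4c85_gt.T

open Set Filter Topology Real
open scoped ContDiff Classical

namespace NZAx

theorem pt_eq {l L ξ τ : ℝ} (h1 : 1 / 16 < sM 1 ξ τ) (h2 : 1 / 16 < sM (-1) ξ τ) :
    ∀ᶠ q : ℝ × ℝ in 𝓝 (ξ, τ), ptM l L q.1 q.2 = psiM l L q.1 q.2 := by
  have a1 := ((sM_sm 1).continuous.tendsto (ξ, τ)).eventually (lt_mem_nhds h1)
  have a2 := ((sM_sm (-1)).continuous.tendsto (ξ, τ)).eventually (lt_mem_nhds h2)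
  filter_upwards [a1, a2] with q b1 b2
  unfold ptM kM
  rw [ka_one b1.le, ka_one b2.le]; ring

theorem d2_psi (l L ξ τ : ℝ) : d2 (psiM l L) ξ τ = -sin τ *
    (1 + 16000 * (be (ξ / dl) * (dl * SS (ξ / dl) + L * ξ)) * deriv th (16000 * bb τ - 1)) := by
  have h1 := ((th_der (16000 * bb τ - 1)).comp τ
    (((bb_der τ).const_mul 16000).sub_const 1)).const_sub 1
  have h2 := ((bb_der τ).const_sub (l * (1 - dl) * st (ξ / dl) - L * ξ)).add
    (h1.const_mul (be (ξ / dl) * (dl * SS (ξ / dl) + L * ξ)))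
  have h3 : HasDerivAt (fun a => psiM l L ξ a) _ τ := h2
  rw [d2, h3.deriv]; ring

theorem SS_der (t : ℝ) : HasDerivAt SS ((3 - 3 * t ^ 2) / 2) t := by
  have h := (((hasDerivAt_id t).const_mul 3).sub (hasDerivAt_pow 3 t)).div_const 2
  have h3 : HasDerivAt SS _ t := h
  convert h3 using 1
  norm_num

theorem be_der (t : ℝ) : HasDerivAt be
    (-2 * deriv th (4 - 2 * t) * th (4 + 2 * t) + th (4 - 2 * t) * (2 * deriv th (4 + 2 * t))) t := by
  have h1 := (th_der (4 - 2 * t)).comp t (((hasDerivAt_id t).const_mul 2).const_sub 4)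
  have h2 := (th_der (4 + 2 * t)).comp t (((hasDerivAt_id t).const_mul 2).const_add 4)
  have h3 : HasDerivAt be _ t := h1.mul h2
  convert h3 using 1
  simp only [Function.comp, id]; ring

theorem d1_psi (l L ξ : ℝ) : d1 (psiM l L) ξ 0 =
    l * (1 - dl) * deriv st (ξ / dl) / dl - L * (1 - be (ξ / dl)) +
      be (ξ / dl) * ((3 - 3 * (ξ / dl) ^ 2) / 2) +
      deriv be (ξ / dl) * (SS (ξ / dl) + L * (ξ / dl)) := by
  have h0 := (hasDerivAt_id ξ).div_const dl
  have h1 := ((st_sm.differentiable (by simp) (ξ / dl)).hasDerivAt).comp ξ h0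
  have h2 := ((be_sm.differentiable (by simp) (ξ / dl)).hasDerivAt).comp ξ h0
  have h3 := (SS_der (ξ / dl)).comp ξ h0
  have h4 := (hasDerivAt_id ξ).const_mul L
  have h5 := (((h1.const_mul (l * (1 - dl))).sub h4).sub_const (bb 0)).add
    ((h2.mul ((h3.const_mul dl).add h4)).mul_const (chi 0))
  have h6 : HasDerivAt (fun a => psiM l L a 0) _ ξ := h5
  have h7 : chi 0 = 1 := chi_one (by unfold bb; norm_num)
  have := dl_pos.ne'
  rw [d1, h6.deriv, h7]
  simp only [Function.comp, id, Pi.add_apply]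
  field_simp
  ring

theorem dst_zero {t : ℝ} (h : 1 < |t|) : deriv st t = 0 := by
  rcases lt_abs.1 h with h | h
  · exact IsLocalMax.deriv_eq_zero (Eventually.of_forall fun y => by
      rw [st_one (t := t) (by linarith)]; exact st_le_one y)
  · exact IsLocalMin.deriv_eq_zero (Eventually.of_forall fun y => by
      rw [st_neg_one (t := t) (by linarith)]; exact neg_one_le_st y)

theorem dbe_le {t L : ℝ} (hL : 1 ≤ L) (h : 1 < |t|) : deriv be t * (SS t + L * t) ≤ 0 := by
  rw [(be_der t).deriv]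
  unfold SS
  rcases lt_abs.1 h with h | h
  · rw [dth_of_one_le (x := 4 + 2 * t) (by linarith), th_one (x := 4 + 2 * t) (by linarith)]
    rcases le_total 2 t with h2 | h2
    · rw [dth_of_nonpos (by linarith)]; simp
    · have : 0 ≤ (3 * t - t ^ 3) / 2 + L * t := by
        nlinarith [mul_nonneg (by linarith : 0 ≤ t) (by nlinarith : 0 ≤ 4 - t ^ 2)]
      nlinarith [mul_nonneg (dth_nonneg (4 - 2 * t)) this]
  · rw [dth_of_one_le (x := 4 - 2 * t) (by linarith), th_one (x := 4 - 2 * t) (by linarith)]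
    rcases le_total t (-2) with h2 | h2
    · rw [dth_of_nonpos (by linarith)]; simp
    · have : 0 ≤ -((3 * t - t ^ 3) / 2 + L * t) := by
        nlinarith [mul_nonneg (by linarith : 0 ≤ -t) (by nlinarith : 0 ≤ 4 - t ^ 2)]
      nlinarith [mul_nonneg (dth_nonneg (4 + 2 * t)) this]

theorem w_ge {L t : ℝ} (h1 : 1 ≤ L) (h2 : L ≤ 2) : -5 ≤ be t * (SS t + L * t) := by
  rcases le_total 2 |t| with h | h
  · rw [be_zero h]; norm_num
  · have a := abs_le.1 h
    have : -5 ≤ SS t + L * t := by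
      unfold SS
      nlinarith [mul_nonneg (sq_nonneg (t + 1)) (by linarith : 0 ≤ 2 - t)]
    nlinarith [be_nonneg t, be_le_one t]

end NZAx

open NZAx in
theorem p_NZA (hTH : S_TH) :
    S_NZA := by
  intro l L ξ τ l0 _ L1 L2 _ hτ s1 s2 e1 e2
  have h := pt_eq (l := l) (L := L) s1 s2
  have c1 : Tendsto (fun a : ℝ => (a, τ)) (𝓝 ξ) (𝓝 (ξ, τ)) :=
    (continuous_id.prodMk continuous_const).tendsto ξ
  have c2 : Tendsto (fun a : ℝ => (ξ, a)) (𝓝 τ) (𝓝 (ξ, τ)) :=
    (continuous_const.prodMk continuous_id).tendsto τ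
  have f1 : d1 (psiM l L) ξ τ = 0 := by
    have g : (fun a => ptM l L a τ) =ᶠ[𝓝 ξ] fun a => psiM l L a τ := c1.eventually h
    rw [← e1]; exact g.deriv_eq.symm
  have f2 : d2 (psiM l L) ξ τ = 0 := by
    have g : (fun a => ptM l L ξ a) =ᶠ[𝓝 τ] fun a => psiM l L ξ a := c2.eventually h
    rw [← e2]; exact g.deriv_eq.symm
  have d0 := dl_pos
  have t0 : τ = 0 := by
    by_contra t0
    rw [d2_psi] at f2
    have a := (mul_eq_zero.1 f2).resolve_left (neg_ne_zero.2 (sin_ne (by linarith) t0))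
    have w := w_ge (t := ξ / dl) L1 L2
    have e : be (ξ / dl) * (dl * SS (ξ / dl) + L * ξ) =
        dl * (be (ξ / dl) * (SS (ξ / dl) + L * (ξ / dl))) := by field_simp
    rw [e] at a
    have b0 := dth_nonneg (16000 * bb τ - 1)
    have b8 := hTH (16000 * bb τ - 1)
    generalize deriv th (16000 * bb τ - 1) = b at a b0 b8
    generalize be (ξ / dl) * (SS (ξ / dl) + L * (ξ / dl)) = v at a w
    unfold dl at a
    nlinarith [mul_nonneg b0 (by linarith : 0 ≤ v + 5)]
  subst t0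
  rw [d1_psi] at f1
  have b0 : bb 0 = 0 := by unfold bb; norm_num
  unfold sM at s1 s2
  rw [b0] at s1 s2
  generalize ξ / dl = t at f1 s1 s2
  rcases lt_trichotomy |t| 1 with h | h | h
  · have a := abs_lt.1 h
    have p : 0 ≤ l * (1 - dl) * deriv st t / dl :=
      div_nonneg (mul_nonneg (mul_nonneg l0 (by unfold dl; norm_num)) st_mono.deriv_nonneg) d0.le
    rw [be_one (by linarith), (be_der t).deriv, dth_of_one_le (x := 4 - 2 * t) (by linarith),
      dth_of_one_le (x := 4 + 2 * t) (by linarith)] at f1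
    nlinarith
  · rcases abs_eq (by norm_num : (0 : ℝ) ≤ 1) |>.1 h with rfl | rfl
    · norm_num at s1
    · norm_num at s2
  · have a := dbe_le L1 h
    have q : 1 < t ^ 2 := by rw [← sq_abs]; nlinarith
    rw [dst_zero h] at f1
    have u0 := be_nonneg t
    have u1 := be_le_one t
    generalize be t = u at f1 u0 u1
    have : u * ((3 - 3 * t ^ 2) / 2) - L * (1 - u) < 0 := by
      rcases u0.eq_or_lt with rfl | u0
      · linarith
      · nlinarith [mul_pos u0 (by linarith : 0 < t ^ 2 - 1)]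
    simp only [mul_zero, zero_div] at f1
    linarith

end Pool.Agent.P.MP_ff4c85_gt.T
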