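import Pool.Agent.P.MP_ff4c85_gt.T.Iface

/-! Step NZO. -/

set_option autoImplicit false

namespace Pool.Agent.P.MP_ff4c85_gt.T

open Set Filter Topology Real
open scoped ContDiff Classical

namespace NZOx

theorem zz_fd (p : E) : fderiv ℝ zz p e1 = 0 ∧ fderiv ℝ zz p e2 = 0 ∧ fderiv ℝ zz p e3 = 1 := by
  have h : HasFDerivAt zz ((ContinuousLinearMap.snd ℝ ℝ ℝ).comp
      (ContinuousLinearMap.snd ℝ ℝ (ℝ × ℝ))) p :=
    ((ContinuousLinearMap.snd ℝ ℝ ℝ).comp (ContinuousLinearMap.snd ℝ ℝ (ℝ × ℝ))).hasFDerivAt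
  rw [h.fderiv]
  simp [e1, e2, e3]

theorem HH_fd (hS : Saw) (x y z : ℝ) :
    fderiv ℝ HH (x, y, z) e1 = lam z * deriv ZZ x + lam (z - 6) * deriv ZZ (x - PP / 2) ∧
      fderiv ℝ HH (x, y, z) e2 = cos y := by
  have hZ : Differentiable ℝ ZZ := hS.sm.differentiable (by simp)
  have hl : Differentiable ℝ lam := lam_sm.differentiable (by simp)
  have hH : HasFDerivAt HH (fderiv ℝ HH (x, y, z)) (x, y, z) := by
    refine DifferentiableAt.hasFDerivAt ?_
    unfold HH
    fun_prop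
  constructor
  · have h1 : HasDerivAt (fun s => HH (s, y, z)) (fderiv ℝ HH (x, y, z) e1) x :=
      hH.comp_hasDerivAt (f := fun s : ℝ => ((s, y, z) : E)) x
        ((hasDerivAt_id _).prodMk (hasDerivAt_const _ _))
    have h2 : HasDerivAt (fun s => HH (s, y, z))
        (lam z * deriv ZZ x + lam (z - 6) * deriv ZZ (x - PP / 2)) x :=
      ((((hZ x).hasDerivAt.const_mul (lam z)).add
        (((hZ (x - PP / 2)).hasDerivAt.comp_sub_const x (PP / 2)).const_mul
          (lam (z - 6)))).add_const (sin y))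
    exact h1.unique h2
  · have h1 : HasDerivAt (fun s => HH (x, s, z)) (fderiv ℝ HH (x, y, z) e2) y :=
      hH.comp_hasDerivAt (f := fun s : ℝ => ((x, s, z) : E)) y
        ((hasDerivAt_const _ _).prodMk ((hasDerivAt_id _).prodMk (hasDerivAt_const _ _)))
    exact h1.unique ((hasDerivAt_sin y).const_add
      (lam z * ZZ x + lam (z - 6) * ZZ (x - PP / 2)))

theorem cos_zero {y : ℝ} (h : cos y = 0) :
    ∃ (a : ℝ) (m : ℤ), (a = 1 ∨ a = -1) ∧ y = a * (π / 2) + m * (2 * π) := by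
  obtain ⟨k, rfl⟩ := cos_eq_zero_iff.1 h
  rcases Int.even_or_odd' k with ⟨m, rfl | rfl⟩
  · exact ⟨1, m, .inl rfl, by push_cast; ring⟩
  · exact ⟨-1, m + 1, .inr rfl, by push_cast; ring⟩

theorem far (hC : Core) {x y z : ℝ} (hp : ((x, y, z) : E) ∈ OO) (hy : cos y = 0) (j n : ℤ)
    (hz : |z - j * 6| < 39 / 10) : dl / 2 < |x - (n * PP + j * (PP / 2))| := by
  obtain ⟨a, m, ha, rfl⟩ := cos_zero hy
  by_contra h
  refine hp (n, m, j) (hC.leg_mem _ a ha ?_ ?_ ?_)
  · exact hz.le.trans (by norm_num)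
  · change |a * (π / 2) + m * (2 * π) - m * (2 * π) - a * (π / 2)| ≤ 1 / 40
    rw [add_sub_cancel_right, sub_self, abs_zero]
    norm_num
  · exact (not_lt.1 h).trans (by linarith [dl_pos])

end NZOx

open NZOx in
theorem p_NZO (hLAM : S_LAM) (hSAW : S_SAW) (hCORE : S_CORE) :
    S_NZO := by
  rintro ⟨x, y, z⟩ hp h0
  obtain ⟨a1, a2, a3⟩ := zz_fd (x, y, z)
  obtain ⟨b1, b2⟩ := HH_fd hSAW x y z
  simp only [vout, cr, crs, a1, a2, a3, b1, b2, Prod.mk_eq_zero, mul_one, mul_zero, sub_zero,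
    zero_sub, neg_eq_zero] at h0
  obtain ⟨hy, hx, -⟩ := h0
  have c1 : lam z * deriv ZZ x = -lam z := by
    rcases (lam_nonneg z).lt_or_eq with h | h
    · obtain ⟨j, hj⟩ := hLAM.near z h
      rw [(hSAW.der x fun n => ?_).deriv, mul_neg_one]
      have := far hCORE hp hy (2 * j) (n - j) (by convert hj using 2; push_cast; ring)
      convert this using 2
      push_cast; ring
    · rw [← h, zero_mul, neg_zero]
  have c2 : lam (z - 6) * deriv ZZ (x - PP / 2) = -lam (z - 6) := by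
    rcases (lam_nonneg (z - 6)).lt_or_eq with h | h
    · obtain ⟨j, hj⟩ := hLAM.near _ h
      rw [(hSAW.der _ fun n => ?_).deriv, mul_neg_one]
      have := far hCORE hp hy (2 * j + 1) (n - j) (by convert hj using 2; push_cast; ring)
      convert this using 2
      push_cast; ring
    · rw [← h, zero_mul, neg_zero]
  have := hLAM.La_ge z
  unfold La at this
  linarith

end Pool.Agent.P.MP_ff4c85_gt.T
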