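import Pool.Agent.P.MP_ff4c85_gt.T.Iface

/-! Step PSI. -/

set_option autoImplicit false

namespace Pool.Agent.P.MP_ff4c85_gt.T

open Set Filter Topology Real
open scoped ContDiff Classical

namespace PSIx

theorem Z0 (hSAW : S_SAW) {x : ℝ} (hx : |x| < 4 / 5) :
    ZZ x = -x + (1 - dl) * st (x / dl) := by
  have h := Saw.loc hSAW x 0 (by
    simp only [Int.cast_zero, zero_mul, sub_zero]
    unfold PP dl; linarith)
  simpa only [Int.cast_zero, zero_mul, sub_zero] using h

theorem Z1 (hSAW : S_SAW) {x : ℝ} (hx : |x| < 4 / 5) : ZZ (x - PP / 2) = -x := by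
  have hx' := abs_lt.1 hx
  have h := Saw.loc hSAW (x - PP / 2) 0 (by
    simp only [Int.cast_zero, zero_mul, sub_zero]
    rw [abs_le]
    unfold PP dl
    constructor <;> linarith)
  simp only [Int.cast_zero, zero_mul, sub_zero] at h
  have h2 : (x - PP / 2) / dl ≤ -(1 / 2) := by
    rw [div_le_iff₀ dl_pos]
    unfold PP dl
    linarith
  rw [h, st_neg_one h2]
  unfold PP
  ring

end PSIx

theorem p_PSI (hLAM : S_LAM) (hSAW : S_SAW) (hGEO : S_GEO) (hCORE : S_CORE) :
    S_PSI := by
  intro p hp hn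
  have hτ : |tau p| < 1 / 20 := hp.2.1
  have hoff := (offcore hτ (Core.off hCORE p hp hn) (lam p.2.2) (La p.2.2)).2.2
  have hx := Geo.x_lt hGEO p hp
  have hz := Geo.z_lt hGEO p hp
  have hZ0 := PSIx.Z0 hSAW hx
  have hZ1 := PSIx.Z1 hSAW hx
  refine ⟨fun h4 => ?_, fun h39 => ?_⟩
  · have hside := Geo.side hGEO p hp (by linarith)
    unfold psi
    rw [hoff]
    unfold HH La bb
    rw [hZ0, hZ1]
    rcases lt_abs.1 hside with h | h
    · have hl := Geo.leg hGEO p hp h4.le 1 (Or.inl rfl) (by linarith)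
      rw [sn_pos (by linarith), hl.1, hl.2.1, one_mul, one_mul, cos_sub_pi_div_two]
      ring
    · have hl := Geo.leg hGEO p hp h4.le (-1) (Or.inr rfl) (by linarith)
      have e1 : p.2.1 - -1 * (π / 2) = p.2.1 + π / 2 := by ring
      have e2 : -1 * p.1 / dl = -(p.1 / dl) := by ring
      rw [sn_nonpos (by linarith), hl.1, hl.2.1, e1, e2, st_neg, cos_add_pi_div_two]
      ring
  · have l0 := Lam.zero hLAM p.2.2 h39.le (by linarith)
    have l1 := Lam.one' hLAM p.2.2 (by linarith) (by linarith)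
    refine ⟨?_, ?_⟩
    · unfold psi
      rw [hoff]
      unfold La bb xi
      rw [l0, l1]
      ring
    · unfold HH hh
      rw [l0, l1, hZ1]
      ring

end Pool.Agent.P.MP_ff4c85_gt.T
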