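import Pool.Agent.P.MP_ff4c85_gt.T.Iface

/-! Step SAW. -/

set_option autoImplicit false

namespace Pool.Agent.P.MP_ff4c85_gt.T

open Set Filter Topology Real
open scoped ContDiff Classical

namespace SAWx

theorem rd {c : ℝ} (hc : 0 < c) (x : ℝ) : |x - round (x / c) * c| ≤ c / 2 := by
  have h := abs_sub_round (x / c)
  have e : x - round (x / c) * c = (x / c - round (x / c)) * c := by field_simp
  rw [e, abs_mul, abs_of_pos hc]
  nlinarith

theorem PP_pos : 0 < PP := by unfold PP dl; norm_num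

theorem hi {s : ℝ} (h : dl / 2 ≤ s) : st (s / dl) = 1 :=
  st_one (by rw [le_div_iff₀ dl_pos]; linarith)

theorem lo {s : ℝ} (h : s ≤ -(dl / 2)) : st (s / dl) = -1 :=
  st_neg_one (by rw [div_le_iff₀ dl_pos]; linarith)

theorem loc (x : ℝ) (n : ℤ) (h : |x - n * PP| ≤ PP - dl / 2) :
    ZZ x = -(x - n * PP) + (1 - dl) * st ((x - n * PP) / dl) := by
  have h1 := abs_le.1 (rd PP_pos x)
  have h2 := abs_le.1 h
  have hP : PP = 2 - 2 * dl := rfl
  have hd : dl = 1 / 1000000 := rfl
  have hp := PP_pos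
  unfold ZZ
  generalize round (x / PP) = r at h1 ⊢
  have a1 : r < n + 2 := by
    have : (r : ℝ) < n + 2 := lt_of_mul_lt_mul_right (by nlinarith) hp.le
    exact_mod_cast this
  have a2 : n < r + 2 := by
    have : (n : ℝ) < r + 2 := lt_of_mul_lt_mul_right (by nlinarith) hp.le
    exact_mod_cast this
  obtain rfl | rfl | rfl : r = n + 1 ∨ r = n ∨ n = r + 1 := by omega
  · push_cast at h1 ⊢
    rw [lo (by linarith), hi (by linarith)]
    linarith
  · rfl
  · push_cast at h2 ⊢
    rw [hi (by linarith), lo (by linarith)]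
    linarith

theorem ev (x : ℝ) : ∀ᶠ y in 𝓝 x, ZZ y =
    -(y - round (x / PP) * PP) + (1 - dl) * st ((y - round (x / PP) * PP) / dl) := by
  have h : |x - round (x / PP) * PP| < PP - dl / 2 :=
    (rd PP_pos x).trans_lt (by unfold PP dl; norm_num)
  have hc : Continuous fun y : ℝ => |y - round (x / PP) * PP| := by fun_prop
  exact (hc.continuousAt.eventually_lt continuousAt_const h).mono fun y hy => loc y _ hy.le

theorem core {s l₁ l₂ : ℝ} (hs : |s| ≤ PP / 2 / 2) (a1 : 0 ≤ l₁) (a2 : l₁ ≤ 1) (b1 : 0 ≤ l₂)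
    (b2 : l₂ ≤ 1) : |l₁ * (-s + (1 - dl) * st (s / dl)) + l₂ * -s| ≤ 1 - dl := by
  have h2 := abs_le.1 hs
  have hP : PP = 2 - 2 * dl := rfl
  have hd : 0 ≤ 1 - dl := by unfold dl; norm_num
  rw [abs_le]
  rcases le_total 0 s with h | h
  · have c1 := st_nonneg (div_nonneg h dl_pos.le)
    have c2 := st_le_one (s / dl)
    have c3 : 0 ≤ l₁ * st (s / dl) := mul_nonneg a1 c1
    have c4 : l₁ * st (s / dl) ≤ 1 := mul_le_one₀ a2 c1 c2
    constructor
    · nlinarith [mul_nonneg hd c3, mul_nonneg h (sub_nonneg.2 a2), mul_nonneg h (sub_nonneg.2 b2)]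
    · nlinarith [mul_nonneg hd (sub_nonneg.2 c4), mul_nonneg h a1, mul_nonneg h b1]
  · have c1 := st_nonpos (div_nonpos_of_nonpos_of_nonneg h dl_pos.le)
    have c2 := neg_one_le_st (s / dl)
    have c3 : 0 ≤ l₁ * -st (s / dl) := mul_nonneg a1 (by linarith)
    have c4 : l₁ * -st (s / dl) ≤ 1 := mul_le_one₀ a2 (by linarith) (by linarith)
    have h' : 0 ≤ -s := by linarith
    constructor
    · nlinarith [mul_nonneg hd (sub_nonneg.2 c4), mul_nonneg h' a1, mul_nonneg h' b1]
    · nlinarith [mul_nonneg hd c3, mul_nonneg h' (sub_nonneg.2 a2),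
        mul_nonneg h' (sub_nonneg.2 b2)]

end SAWx

open SAWx in
theorem p_SAW :
    S_SAW := by
  have hP : PP = 2 - 2 * dl := rfl
  have hd : dl = 1 / 1000000 := rfl
  refine ⟨contDiff_iff_contDiffAt.2 fun x => ?_, fun x n => ?_, loc, fun x l₁ l₂ a1 a2 b1 b2 => ?_,
    fun x h => ?_⟩
  · refine ContDiffAt.congr_of_eventuallyEq ?_ (ev x)
    refine ContDiff.contDiffAt ?_
    fun_prop
  · have e : (x + n * PP) / PP = x / PP + n := by field_simp [PP_pos.ne']
    unfold ZZ
    rw [e, round_add_intCast]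
    push_cast
    rw [show x + n * PP - (round (x / PP) + n) * PP = x - round (x / PP) * PP by ring]
  · have h := rd (half_pos PP_pos) x
    generalize round (x / (PP / 2)) = n at h
    have h2 := abs_le.1 h
    obtain ⟨m, rfl | rfl⟩ := Int.even_or_odd' n
    · push_cast at h h2
      have e : x - 2 * m * (PP / 2) = x - m * PP := by ring
      rw [e] at h h2
      rw [loc x m (abs_le.2 ⟨by linarith, by linarith⟩),
        loc (x - PP / 2) m (abs_le.2 ⟨by linarith, by linarith⟩),
        lo (s := x - PP / 2 - m * PP) (by linarith)]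
      have := core h a1 a2 b1 b2
      rwa [show -(x - PP / 2 - m * PP) + (1 - dl) * -1 = -(x - m * PP) by linarith]
    · push_cast at h h2
      have e : x - (2 * m + 1) * (PP / 2) = x - PP / 2 - m * PP := by ring
      rw [e] at h h2
      rw [loc x m (abs_le.2 ⟨by linarith, by linarith⟩),
        loc (x - PP / 2) m (abs_le.2 ⟨by linarith, by linarith⟩),
        hi (s := x - m * PP) (by linarith)]
      have := core h b1 b2 a1 a2
      rwa [show -(x - m * PP) + (1 - dl) * 1 = -(x - PP / 2 - m * PP) by linarith, add_comm]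
  · have hc : ContinuousAt (fun y : ℝ => y - round (x / PP) * PP) x := by fun_prop
    have hd1 : ∀ c : ℝ, HasDerivAt (fun y : ℝ => -(y - round (x / PP) * PP) + c) (-1) x :=
      fun c => (((hasDerivAt_id x).sub_const _).neg).add_const c
    rcases lt_abs.1 (h (round (x / PP))) with h1 | h1
    · refine (hd1 ((1 - dl) * 1)).congr_of_eventuallyEq ?_
      filter_upwards [ev x, continuousAt_const.eventually_lt hc h1] with y e1 e2
      rw [e1, hi e2.le]
    · refine (hd1 ((1 - dl) * -1)).congr_of_eventuallyEq ?_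
      filter_upwards [ev x, hc.eventually_lt (g := fun _ => -(dl / 2)) continuousAt_const
        (by linarith)] with y e1 e2
      rw [e1, lo e2.le]

end Pool.Agent.P.MP_ff4c85_gt.T
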