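import Pool.Agent.P.MP_ff4c85_gt.T.Iface

/-! Step SMO. -/

set_option autoImplicit false

namespace Pool.Agent.P.MP_ff4c85_gt.T

open Set Filter Topology Real
open scoped ContDiff Classical

namespace SMOx

theorem ev_out (hASM : S_ASM) {p : E} (hp : p ∈ OO) : WW =ᶠ[𝓝 p] vout :=
  (hASM.opn.eventually_mem hp).mono fun q hq => hASM.out q hq

theorem ev_in (hGEO : S_GEO) (hASM : S_ASM) {p : E} {n : ℤ × ℤ × ℤ} (hp : p - gam n ∈ VV) :
    WW =ᶠ[𝓝 p] fun q => vin (q - gam n) := by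
  have hc : Continuous fun q : E => q - gam n := continuous_id.sub continuous_const
  have h1 : ∀ᶠ q in 𝓝 p, q - gam n ∈ VV :=
    (hGEO.opn.preimage hc).eventually_mem (show p ∈ (fun q : E => q - gam n) ⁻¹' VV from hp)
  exact h1.mono fun q hq => (hASM.sel q n hq).1

theorem dv_congr {X Y : E → E} {p : E} (h : X =ᶠ[𝓝 p] Y) : dv X p = dv Y p := by
  unfold dv; rw [h.fderiv_eq]

theorem dv_shift (X : E → E) (p a : E) : dv (fun q => X (q - a)) p = dv X (p - a) := by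
  unfold dv; rw [fderiv_comp_sub]

theorem vin_ne (hLAM : S_LAM) (hNZA : S_NZA) (hNZB : S_NZB) (hDEC : S_DEC) {q : E}
    (hq : q ∈ VV) : vin q ≠ 0 := by
  intro h0
  obtain ⟨h1, h2, h3⟩ := hDEC q hq
  rw [h0, map_zero] at h1 h2 h3
  have hd1 : d1 (ptM (lam q.2.2) (La q.2.2)) (xi q) (tau q) = 0 := by linarith
  obtain ⟨hx, ht, -⟩ := hq
  by_cases ha : sM 1 (xi q) (tau q) < 1 / 9
  · exact hNZB 1 _ _ _ _ (Or.inl rfl) ht ha hd1 h1.symm h3.symm
  by_cases hb : sM (-1) (xi q) (tau q) < 1 / 9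
  · exact hNZB (-1) _ _ _ _ (Or.inr rfl) ht hb hd1 h1.symm h3.symm
  exact hNZA _ _ _ _ (lam_nonneg _) (lam_le_one _) (hLAM.La_ge _) (hLAM.La_le _) hx ht
    (by linarith [not_lt.1 ha]) (by linarith [not_lt.1 hb]) hd1 h1.symm

end SMOx

theorem p_SMO (hLAM : S_LAM) (hGEO : S_GEO) (hDIV : S_DIV) (hNZA : S_NZA) (hNZB : S_NZB) (hDEC : S_DEC) (hVSM : S_VSM) (hASM : S_ASM) (hNZO : S_NZO) :
    S_SMO := by
  refine ⟨contDiff_iff_contDiffAt.2 fun p => ?_, fun p => ?_, fun p => ?_⟩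
  · rcases hASM.cover p with hp | ⟨n, hp⟩
    · exact (hDIV.cr_sm HH zz p hASM.HH_sm.contDiffAt zz_sm.contDiffAt).congr_of_eventuallyEq
        (SMOx.ev_out hASM hp)
    · have h1 : ContDiffAt ℝ ∞ (fun q => vin (q - gam n)) p :=
        ContDiffAt.comp (g := vin) (f := fun q => q - gam n) p (hVSM _ hp).1
          (contDiffAt_id.sub contDiffAt_const)
      exact h1.congr_of_eventuallyEq (SMOx.ev_in hGEO hASM hp)
  · rcases hASM.cover p with hp | ⟨n, hp⟩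
    · rw [SMOx.dv_congr (SMOx.ev_out hASM hp)]
      exact hDIV.cr_dv HH zz p hASM.HH_sm.contDiffAt zz_sm.contDiffAt
    · rw [SMOx.dv_congr (SMOx.ev_in hGEO hASM hp), SMOx.dv_shift]
      exact (hVSM _ hp).2
  · rcases hASM.cover p with hp | ⟨n, hp⟩
    · rw [hASM.out p hp]; exact hNZO p hp
    · rw [(hASM.sel p n hp).1]; exact SMOx.vin_ne hLAM hNZA hNZB hDEC hp

end Pool.Agent.P.MP_ff4c85_gt.T
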