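import Pool.Agent.P.MP_ff4c85_gt.T.Iface

/-! Step TRI. -/

set_option autoImplicit false

namespace Pool.Agent.P.MP_ff4c85_gt.T

open Set Filter Topology Real
open scoped ContDiff Classical

namespace TRIx

theorem round_shift (z c : ℝ) (hc : c ≠ 0) (j : ℤ) : round ((z + j * c) / c) = round (z / c) + j := by
  rw [add_div, mul_div_cancel_right₀ _ hc, round_add_intCast]

theorem cl_add (z : ℝ) (j : ℤ) : cl (z + j * 6) = cl z + j * 6 := by
  unfold cl
  rw [round_shift z 6 (by norm_num) j]
  push_cast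
  rw [show z + j * 6 - (round (z / 6) + j) * 6 = z - round (z / 6) * 6 by ring]
  split_ifs <;> ring

theorem cl_zero {z : ℝ} (h : |z| ≤ 21 / 10) : cl z = 0 := by
  have h1 := abs_le.1 h
  have : round (z / 6) = 0 := round_eq_zero_iff.2 ⟨by linarith, by linarith⟩
  unfold cl
  rw [this]
  simp only [Int.cast_zero, zero_mul, sub_zero, if_pos h]

theorem hc_per (g : ℝ) (n : ℤ) : hc (g + n * 20) = hc g := by
  unfold hc
  rw [round_shift g 20 (by norm_num) n]
  push_cast
  rw [show g + n * 20 - (round (g / 20) + n) * 20 = g - round (g / 20) * 20 by ring]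

theorem hc_eq (g : ℝ) (h : |g| ≤ 10) : hc g = 5 - |g| := by
  have h1 := abs_le.1 h
  rcases h1.2.lt_or_eq with h2 | h2
  · have : round (g / 20) = 0 := round_eq_zero_iff.2 ⟨by linarith, by linarith⟩
    unfold hc
    rw [this]; simp
  · have h3 := hc_per (-10) 1
    have : round ((-10 : ℝ) / 20) = 0 := round_eq_zero_iff.2 ⟨by norm_num, by norm_num⟩
    rw [h2, show (10 : ℝ) = -10 + (1 : ℤ) * 20 by norm_num, h3, hc, this]
    norm_num

theorem ze_per (g : ℝ) (n : ℤ) : ze (g + n * 20) = ze g := by
  unfold ze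
  rw [show g + n * 20 - 5 = g - 5 + n * 20 by ring, hc_per]

theorem sum0 (g : ℝ) (h : |g| ≤ 10) : |hc g| + |ze g| = 5 := by
  have h1 := abs_le.1 h
  rw [hc_eq g h, ze]
  rcases le_total (-5) g with h2 | h2
  · rw [hc_eq (g - 5) (abs_le.2 ⟨by linarith, by linarith⟩)]
    rcases le_total 5 g with h3 | h3
    · rw [abs_of_nonneg (a := g) (by linarith), abs_of_nonneg (a := g - 5) (by linarith),
        abs_of_nonpos (by linarith), abs_of_nonneg (by linarith)]; ring
    · rw [abs_of_nonpos (a := g - 5) (by linarith),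
        abs_of_nonneg (a := 5 - |g|) (sub_nonneg.2 (abs_le.2 ⟨h2, h3⟩))]
      rw [show 5 - -(g - 5) = g by ring]; ring
  · rw [← hc_per (g - 5) 1, hc_eq _ (abs_le.2 ⟨by push_cast; linarith, by push_cast; linarith⟩)]
    push_cast
    rw [abs_of_nonpos (a := g) (by linarith), abs_of_nonneg (a := g - 5 + 1 * 20) (by linarith),
      abs_of_nonpos (by linarith), abs_of_nonpos (by linarith)]; ring

end TRIx

theorem p_TRI (hLAM : S_LAM) :
    S_TRI := by
  have key : ∀ (w : ℝ) (m : ℤ), |w| ≤ 21 / 10 → lam (m * 6) = lam (w + m * 6) := fun w m hw => by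
    have h1 := abs_le.1 hw
    obtain ⟨r, rfl | rfl⟩ := Int.even_or_odd' m
    · have e1 := hLAM.per 0 r
      have e2 := hLAM.per w r
      push_cast
      rw [show 2 * (r : ℝ) * 6 = 0 + r * 12 by ring, e1, show w + (0 + (r : ℝ) * 12) = w + r * 12 by ring,
        e2, hLAM.one 0 (by norm_num), hLAM.one w (by linarith)]
    · have e1 := hLAM.per 6 r
      have e2 := hLAM.per (w + 6) r
      push_cast
      rw [show (2 * (r : ℝ) + 1) * 6 = 6 + r * 12 by ring, e1,
        show w + (6 + (r : ℝ) * 12) = w + 6 + r * 12 by ring, e2,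
        hLAM.zero 6 (by norm_num) (by norm_num),
        hLAM.zero (w + 6) (by rw [abs_of_nonneg (by linarith)]; linarith)
          (by rw [abs_of_nonneg (by linarith)]; linarith)]
  refine ⟨fun z j => ?_, fun z => ?_, TRIx.cl_add, fun z j h => ?_, TRIx.hc_per, TRIx.hc_eq,
    TRIx.ze_per, fun g => ?_⟩
  · unfold cl
    split_ifs with h
    · have := key _ (round (z / 6) - j) h
      push_cast at this
      rw [show (round (z / 6) : ℝ) * 6 - j * 6 = (round (z / 6) - j) * 6 by ring, this]
      congr 1; ring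
    · rfl
  · unfold cl
    split_ifs with h
    · rwa [abs_sub_comm]
    · norm_num
  · have := TRIx.cl_add (z - j * 6) j
    rw [sub_add_cancel, TRIx.cl_zero h, zero_add] at this
    exact this
  · have h1 : |g - round (g / 20) * 20| ≤ 10 := by
      have h2 := abs_sub_round (g / 20)
      rw [show g - round (g / 20) * 20 = (g / 20 - round (g / 20)) * 20 by ring, abs_mul,
        abs_of_pos (a := (20 : ℝ)) (by norm_num)]
      linarith
    have h3 := TRIx.sum0 _ h1
    rw [← TRIx.hc_per _ (round (g / 20)), ← TRIx.ze_per _ (round (g / 20)), sub_add_cancel] at h3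
    exact h3

end Pool.Agent.P.MP_ff4c85_gt.T
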