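import Pool.Agent.P.MP_ff4c85_gt.T.Iface

/-! Step VSM. -/

set_option autoImplicit false

namespace Pool.Agent.P.MP_ff4c85_gt.T

open Set Filter Topology Real
open scoped ContDiff Classical

namespace VSMx

theorem c2 {f : ℝ → ℝ → ℝ} {a b : E → ℝ} {p : E} (hf : ContDiff ℝ ∞ fun q : ℝ × ℝ => f q.1 q.2)
    (ha : ContDiffAt ℝ ∞ a p) (hb : ContDiffAt ℝ ∞ b p) :
    ContDiffAt ℝ ∞ (fun q => f (a q) (b q)) p :=
  hf.contDiffAt.comp (f := fun q => (a q, b q)) p (ha.prodMk hb)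

theorem c4 {f : ℝ → ℝ → ℝ → ℝ → ℝ} {a b c d : E → ℝ} {p : E}
    (hf : ContDiff ℝ ∞ fun q : ℝ × ℝ × ℝ × ℝ => f q.1 q.2.1 q.2.2.1 q.2.2.2)
    (ha : ContDiffAt ℝ ∞ a p) (hb : ContDiffAt ℝ ∞ b p) (hc : ContDiffAt ℝ ∞ c p)
    (hd : ContDiffAt ℝ ∞ d p) : ContDiffAt ℝ ∞ (fun q => f (a q) (b q) (c q) (d q)) p :=
  hf.contDiffAt.comp (f := fun q => (a q, b q, c q, d q)) p (ha.prodMk (hb.prodMk (hc.prodMk hd)))

theorem main (hD : Dv) {v : E → E} {a g F k F' k' m x t : E → ℝ} {p : E}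
    (ha : ContDiffAt ℝ ∞ a p) (hg : ContDiffAt ℝ ∞ g p) (hF : ContDiffAt ℝ ∞ F p)
    (hk : ContDiffAt ℝ ∞ k p) (hF' : ContDiffAt ℝ ∞ F' p) (hk' : ContDiffAt ℝ ∞ k' p)
    (hm : ContDiffAt ℝ ∞ m p) (hx : ContDiffAt ℝ ∞ x p) (ht : ContDiffAt ℝ ∞ t p)
    (he : v =ᶠ[𝓝 p] fun q => cr a g q - cr F k q - cr F' k' q + m q • cr x t q)
    (h5 : fderiv ℝ m p (cr x t p) = 0) : ContDiffAt ℝ ∞ v p ∧ dv v p = 0 := by
  have h1 := hD.cr_sm _ _ p ha hg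
  have h2 := hD.cr_sm _ _ p hF hk
  have h3 := hD.cr_sm _ _ p hF' hk'
  have h4 := hD.cr_sm _ _ p hx ht
  have d : ∀ {F : Type} [NormedAddCommGroup F] [NormedSpace ℝ F] {X : E → F},
      ContDiffAt ℝ ∞ X p → DifferentiableAt ℝ X p := fun h => h.differentiableAt (by simp)
  have h7 : ContDiffAt ℝ ∞ (fun q => m q • cr x t q) p := hm.smul h4
  refine ⟨(((h1.sub h2).sub h3).add h7).congr_of_eventuallyEq he, ?_⟩
  have h6 : dv v p = dv (fun q => cr a g q - cr F k q - cr F' k' q + m q • cr x t q) p := by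
    rw [dv, dv, he.fderiv_eq]
  rw [h6, hD.add _ _ p (d ((h1.sub h2).sub h3)) (d h7),
    hD.sub _ _ p (d (h1.sub h2)) (d h3), hD.sub _ _ p (d h1) (d h2), hD.smul _ _ p (d hm) (d h4),
    hD.cr_dv _ _ p ha hg, hD.cr_dv _ _ p hF hk, hD.cr_dv _ _ p hF' hk', hD.cr_dv _ _ p hx ht, h5]
  simp

end VSMx

theorem p_VSM (hCHA : S_CHA) (hDIV : S_DIV) :
    S_VSM := by
  intro p hp
  have hA : ChA := hCHA
  obtain ⟨g, hg, hev⟩ := hA.loc p hp
  have hx := hA.xi_sm p hp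
  have ht : ContDiffAt ℝ ∞ tau p := tau_sm.contDiffAt
  have h1 : ContDiffAt ℝ ∞ (fun q : E => lam q.2.2) p := by fun_prop
  have h2 : ContDiffAt ℝ ∞ (fun q : E => La q.2.2) p := by fun_prop
  have hpt : ContDiffAt ℝ ∞ pt p := by
    unfold pt
    exact VSMx.c4 ptM_sm h1 h2 hx ht
  have hF : ∀ e, ContDiffAt ℝ ∞ (FF e) p := fun e => by
    unfold FF
    exact VSMx.c2 (FM_sm e) hx ht
  have hk : ∀ e, ContDiffAt ℝ ∞ (kk e) p := fun e => by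
    unfold kk
    exact VSMx.c2 (kM_sm e) hx ht
  have hm : ContDiffAt ℝ ∞ muu p := by
    unfold muu
    exact VSMx.c2 muM_sm hx ht
  refine VSMx.main hDIV hpt hg (hF 1) (hk 1) (hF (-1)) (hk (-1)) hm hx ht
    (hev.mono fun q hq => ?_) ?_
  · beta_reduce
    rw [vin, hq.1, ← cr]
  · unfold muu
    rw [fderiv_comp2 (f := muM) (muM_sm.differentiable (by simp) _)
      (hx.differentiableAt (by simp)) (ht.differentiableAt (by simp)), cr, add_apply, smul_apply,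
      smul_apply, crs_left, crs_right]
    simp

end Pool.Agent.P.MP_ff4c85_gt.T
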