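import Pool.Agent.P.MP_ff4c85_gt.T.TTH
import Pool.Agent.P.MP_ff4c85_gt.T.TLAM
import Pool.Agent.P.MP_ff4c85_gt.T.TTRI
import Pool.Agent.P.MP_ff4c85_gt.T.TSAW
import Pool.Agent.P.MP_ff4c85_gt.T.TDIV
import Pool.Agent.P.MP_ff4c85_gt.T.TGEO
import Pool.Agent.P.MP_ff4c85_gt.T.TCORE
import Pool.Agent.P.MP_ff4c85_gt.T.TCHA
import Pool.Agent.P.MP_ff4c85_gt.T.TCHB
import Pool.Agent.P.MP_ff4c85_gt.T.TGV
import Pool.Agent.P.MP_ff4c85_gt.T.TNZA
import Pool.Agent.P.MP_ff4c85_gt.T.TNZB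
import Pool.Agent.P.MP_ff4c85_gt.T.TDEC
import Pool.Agent.P.MP_ff4c85_gt.T.TINA
import Pool.Agent.P.MP_ff4c85_gt.T.TINB
import Pool.Agent.P.MP_ff4c85_gt.T.TVSM
import Pool.Agent.P.MP_ff4c85_gt.T.TPSI
import Pool.Agent.P.MP_ff4c85_gt.T.TMAT
import Pool.Agent.P.MP_ff4c85_gt.T.TCOL
import Pool.Agent.P.MP_ff4c85_gt.T.TASM
import Pool.Agent.P.MP_ff4c85_gt.T.TNZO
import Pool.Agent.P.MP_ff4c85_gt.T.TBO
import Pool.Agent.P.MP_ff4c85_gt.T.TBI1
import Pool.Agent.P.MP_ff4c85_gt.T.TBI2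
import Pool.Agent.P.MP_ff4c85_gt.T.TLOC
import Pool.Agent.P.MP_ff4c85_gt.T.TKS
import Pool.Agent.P.MP_ff4c85_gt.T.TGLOB
import Pool.Agent.P.MP_ff4c85_gt.T.TBAR
import Pool.Agent.P.MP_ff4c85_gt.T.TISL
import Pool.Agent.P.MP_ff4c85_gt.T.TDIAM
import Pool.Agent.P.MP_ff4c85_gt.T.TSMO
import Pool.Agent.P.MP_ff4c85_gt.T.TGOOD

/-! Assembly of the steps. -/

set_option autoImplicit false

namespace Pool.Agent.P.MP_ff4c85_gt.T

theorem all_TH : S_TH := p_TH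
theorem all_LAM : S_LAM := p_LAM
theorem all_TRI : S_TRI := p_TRI all_LAM
theorem all_SAW : S_SAW := p_SAW
theorem all_DIV : S_DIV := p_DIV
theorem all_GEO : S_GEO := p_GEO all_TH
theorem all_CORE : S_CORE := p_CORE all_GEO
theorem all_CHA : S_CHA := p_CHA all_GEO
theorem all_CHB : S_CHB := p_CHB all_GEO all_CHA
theorem all_GV : S_GV := p_GV all_GEO all_TRI
theorem all_NZA : S_NZA := p_NZA all_TH
theorem all_NZB : S_NZB := p_NZB
theorem all_DEC : S_DEC := p_DEC all_LAM all_GEO all_CHA all_CHB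
theorem all_INA : S_INA := p_INA all_GEO all_CHA
theorem all_INB : S_INB := p_INB all_CHA all_DEC
theorem all_VSM : S_VSM := p_VSM all_CHA all_DIV
theorem all_PSI : S_PSI := p_PSI all_LAM all_SAW all_GEO all_CORE
theorem all_MAT : S_MAT := p_MAT all_SAW all_GEO all_CORE all_CHA all_CHB all_INA all_PSI
theorem all_COL : S_COL := p_COL all_LAM all_TRI all_GEO all_CORE all_GV all_PSI
theorem all_ASM : S_ASM := p_ASM all_LAM all_TRI all_SAW all_GEO all_CORE all_MAT all_COL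
theorem all_NZO : S_NZO := p_NZO all_LAM all_SAW all_CORE
theorem all_BO : S_BO := p_BO all_LAM all_SAW all_CORE
theorem all_BI1 : S_BI1 := p_BI1 all_LAM all_TRI all_GV
theorem all_BI2 : S_BI2 := p_BI2 all_LAM all_TRI all_GEO all_GV
theorem all_LOC : S_LOC := p_LOC all_TRI all_GEO all_CHA all_GV all_INA all_INB
theorem all_KS : S_KS := p_KS all_GEO all_CHA all_INB all_VSM all_ASM
theorem all_GLOB : S_GLOB := p_GLOB all_TRI all_GEO all_ASM all_LOC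
theorem all_BAR : S_BAR := p_BAR all_TRI all_GEO all_ASM all_BO all_BI1 all_BI2
theorem all_ISL : S_ISL := p_ISL all_GEO all_CORE all_ASM
theorem all_DIAM : S_DIAM := p_DIAM all_LAM all_TRI all_KS all_GLOB all_BAR all_ISL
theorem all_SMO : S_SMO := p_SMO all_LAM all_GEO all_DIV all_NZA all_NZB all_DEC all_VSM all_ASM all_NZO
theorem all_GOOD : S_GOOD := p_GOOD all_ASM all_SMO all_DIAM

end Pool.Agent.P.MP_ff4c85_gt.T
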