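import Pool.Agent.P.MP_ff4c85_gt.T.Defs

/-! Small library: step functions, cross products, the planar model. -/

set_option autoImplicit false

open Set Filter Topology Real
open scoped ContDiff Classical

namespace Pool.Agent.P.MP_ff4c85_gt.T

/-! ### Step functions -/

theorem dl_pos : 0 < dl := by unfold dl; norm_num
theorem th_zero {x : ℝ} (h : x ≤ 0) : th x = 0 := smoothTransition.zero_of_nonpos h
theorem th_one {x : ℝ} (h : 1 ≤ x) : th x = 1 := smoothTransition.one_of_one_le h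
theorem th_nonneg (x : ℝ) : 0 ≤ th x := smoothTransition.nonneg x
theorem th_le_one (x : ℝ) : th x ≤ 1 := smoothTransition.le_one x
theorem th_mono : Monotone th := smoothTransition.monotone
@[fun_prop] theorem th_sm : ContDiff ℝ ∞ th := smoothTransition.contDiff
@[fun_prop] theorem th_diff : Differentiable ℝ th := th_sm.differentiable (by simp)
@[fun_prop] theorem th_cont : Continuous th := th_sm.continuous
theorem th_der (x : ℝ) : HasDerivAt th (deriv th x) x := (th_diff x).hasDerivAt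
theorem dth_nonneg (x : ℝ) : 0 ≤ deriv th x := th_mono.deriv_nonneg
theorem dth_of_neg {x : ℝ} (h : x < 0) : deriv th x = 0 := by
  have : th =ᶠ[𝓝 x] fun _ => 0 := (eventually_lt_nhds h).mono fun y hy => th_zero hy.le
  rw [this.deriv_eq, deriv_const]
theorem dth_of_one_lt {x : ℝ} (h : 1 < x) : deriv th x = 0 := by
  have : th =ᶠ[𝓝 x] fun _ => 1 := (eventually_gt_nhds h).mono fun y hy => th_one hy.le
  rw [this.deriv_eq, deriv_const]
theorem dth_of_nonpos {x : ℝ} (h : x ≤ 0) : deriv th x = 0 :=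
  IsLocalMin.deriv_eq_zero (Eventually.of_forall fun y => by rw [th_zero h]; exact th_nonneg y)
theorem dth_of_one_le {x : ℝ} (h : 1 ≤ x) : deriv th x = 0 :=
  IsLocalMax.deriv_eq_zero (Eventually.of_forall fun y => by rw [th_one h]; exact th_le_one y)

@[fun_prop] theorem st_sm : ContDiff ℝ ∞ st := by unfold st; fun_prop
@[fun_prop] theorem sg_sm : ContDiff ℝ ∞ sg := by unfold sg; fun_prop
@[fun_prop] theorem be_sm : ContDiff ℝ ∞ be := by unfold be; fun_prop
@[fun_prop] theorem SS_sm : ContDiff ℝ ∞ SS := by unfold SS; fun_prop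
@[fun_prop] theorem bb_sm : ContDiff ℝ ∞ bb := by unfold bb; fun_prop
@[fun_prop] theorem chi_sm : ContDiff ℝ ∞ chi := by unfold chi; fun_prop
@[fun_prop] theorem lam_sm : ContDiff ℝ ∞ lam := by unfold lam; fun_prop
@[fun_prop] theorem La_sm : ContDiff ℝ ∞ La := by unfold La; fun_prop
@[fun_prop] theorem mm_sm : ContDiff ℝ ∞ mm := by unfold mm; fun_prop
@[fun_prop] theorem cc_sm : ContDiff ℝ ∞ cc := by unfold cc; fun_prop
@[fun_prop] theorem dcc_sm : ContDiff ℝ ∞ (deriv cc) := (contDiff_infty_iff_deriv.1 cc_sm).2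
@[fun_prop] theorem ka_sm : ContDiff ℝ ∞ ka := by unfold ka; fun_prop
@[fun_prop] theorem mu_sm : ContDiff ℝ ∞ mu :=
  expNegInvGlue.contDiff.comp (contDiff_const.sub contDiff_id)

theorem st_neg (t : ℝ) : st (-t) = -st t := by unfold st; rw [mul_neg, neg_neg]; ring
theorem st_one {t : ℝ} (h : 1 / 2 ≤ t) : st t = 1 := by
  unfold st; rw [th_one (by linarith), th_zero (by linarith)]; ring
theorem st_neg_one {t : ℝ} (h : t ≤ -(1 / 2)) : st t = -1 := by
  unfold st; rw [th_zero (by linarith), th_one (by linarith)]; ring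
theorem st_nonneg {t : ℝ} (h : 0 ≤ t) : 0 ≤ st t := by
  unfold st; rw [th_zero (x := -(2 * t)) (by linarith), sub_zero]; exact th_nonneg _
theorem st_nonpos {t : ℝ} (h : t ≤ 0) : st t ≤ 0 := by
  have := st_nonneg (neg_nonneg.2 h); rw [st_neg] at this; linarith
theorem st_le_one (t : ℝ) : st t ≤ 1 := by
  unfold st; linarith [th_le_one (2 * t), th_nonneg (-(2 * t))]
theorem neg_one_le_st (t : ℝ) : -1 ≤ st t := by
  unfold st; linarith [th_nonneg (2 * t), th_le_one (-(2 * t))]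
theorem st_mono : Monotone st := fun a b h => by
  unfold st
  linarith [th_mono (show 2 * a ≤ 2 * b by linarith), th_mono (show -(2 * b) ≤ -(2 * a) by linarith)]

theorem sg_neg (t : ℝ) : sg (-t) = -sg t := by unfold sg; rw [mul_neg, neg_neg]; ring
theorem sg_one {t : ℝ} (h : 1 / 2 ≤ t) : sg t = 1 := by
  unfold sg; rw [th_one (by linarith), th_zero (by linarith)]; ring
theorem sg_neg_one {t : ℝ} (h : t ≤ -(1 / 2)) : sg t = -1 := by
  unfold sg; rw [th_zero (by linarith), th_one (by linarith)]; ring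
theorem sg_zero {t : ℝ} (h : |t| ≤ 1 / 4) : sg t = 0 := by
  have := abs_le.1 h
  unfold sg; rw [th_zero (by linarith), th_zero (by linarith)]; ring
theorem sg_nonneg {t : ℝ} (h : 0 ≤ t) : 0 ≤ sg t := by
  unfold sg; rw [th_zero (x := -(4 * t) - 1) (by linarith), sub_zero]; exact th_nonneg _
theorem sg_nonpos {t : ℝ} (h : t ≤ 0) : sg t ≤ 0 := by
  have := sg_nonneg (neg_nonneg.2 h); rw [sg_neg] at this; linarith
theorem sg_le_one (t : ℝ) : sg t ≤ 1 := by
  unfold sg; linarith [th_le_one (4 * t - 1), th_nonneg (-(4 * t) - 1)]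
theorem neg_one_le_sg (t : ℝ) : -1 ≤ sg t := by
  unfold sg; linarith [th_nonneg (4 * t - 1), th_le_one (-(4 * t) - 1)]
theorem mul_sg_nonneg (t : ℝ) : 0 ≤ t * sg t := by
  rcases le_total 0 t with h | h
  · exact mul_nonneg h (sg_nonneg h)
  · exact mul_nonneg_of_nonpos_of_nonpos h (sg_nonpos h)
theorem mul_sg_le (t : ℝ) : t * sg t ≤ |t| := by
  rcases le_total 0 t with h | h
  · rw [abs_of_nonneg h]; nlinarith [sg_le_one t]
  · rw [abs_of_nonpos h]; nlinarith [neg_one_le_sg t]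

theorem be_one {t : ℝ} (h : |t| ≤ 3 / 2) : be t = 1 := by
  have := abs_le.1 h
  unfold be; rw [th_one (by linarith), th_one (by linarith)]; ring
theorem be_zero {t : ℝ} (h : 2 ≤ |t|) : be t = 0 := by
  unfold be
  rcases le_abs.1 h with h | h
  · rw [th_zero (x := 4 - 2 * t) (by linarith), zero_mul]
  · rw [th_zero (x := 4 + 2 * t) (by linarith), mul_zero]
theorem be_nonneg (t : ℝ) : 0 ≤ be t := mul_nonneg (th_nonneg _) (th_nonneg _)
theorem be_le_one (t : ℝ) : be t ≤ 1 := mul_le_one₀ (th_le_one _) (th_nonneg _) (th_le_one _)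
theorem be_neg (t : ℝ) : be (-t) = be t := by
  unfold be; rw [mul_neg, sub_neg_eq_add, ← sub_eq_add_neg, mul_comm]
theorem SS_neg (t : ℝ) : SS (-t) = -SS t := by unfold SS; ring

theorem bb_nonneg (τ : ℝ) : 0 ≤ bb τ := by unfold bb; linarith [cos_le_one τ]
theorem bb_le (τ : ℝ) : bb τ ≤ τ ^ 2 / 2 := by unfold bb; linarith [one_sub_sq_div_two_le_cos (x := τ)]
theorem bb_ge {τ : ℝ} (h : |τ| ≤ 1) : τ ^ 2 / 5 ≤ bb τ := by
  have h1 := cos_le_one_sub_mul_cos_sq (x := τ) (h.trans (by linarith [pi_gt_three]))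
  have h2 : 1 / 5 ≤ 2 / π ^ 2 := by
    rw [div_le_div_iff₀ (by norm_num) (by positivity)]; nlinarith [pi_lt_d2, pi_pos]
  unfold bb; nlinarith [sq_nonneg τ]
theorem bb_der (τ : ℝ) : HasDerivAt bb (sin τ) τ := by
  have h := (hasDerivAt_cos τ).const_sub 1
  rw [neg_neg] at h
  exact h
theorem sin_ne {τ : ℝ} (h : |τ| ≤ 1) (h0 : τ ≠ 0) : sin τ ≠ 0 := fun e => by
  have := abs_le.1 h
  exact h0 ((sin_eq_zero_iff_of_lt_of_lt (by linarith [pi_gt_three]) (by linarith [pi_gt_three])).1 e)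
theorem chi_one {τ : ℝ} (h : bb τ ≤ 1 / 16000) : chi τ = 1 := by
  unfold chi; rw [th_zero (by linarith)]; ring
theorem chi_zero {τ : ℝ} (h : 1 / 8000 ≤ bb τ) : chi τ = 0 := by
  unfold chi; rw [th_one (by linarith)]; ring
theorem chi_nonneg (τ : ℝ) : 0 ≤ chi τ := by unfold chi; linarith [th_le_one (16000 * bb τ - 1)]
theorem chi_le_one (τ : ℝ) : chi τ ≤ 1 := by unfold chi; linarith [th_nonneg (16000 * bb τ - 1)]

theorem lam_nonneg (z : ℝ) : 0 ≤ lam z := th_nonneg _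
theorem lam_le_one (z : ℝ) : lam z ≤ 1 := th_le_one _

theorem mm_nonneg (z : ℝ) : 0 ≤ mm z := by
  have h : ∀ a : ℝ, 0 ≤ a * th (8 * a) := fun a => by
    rcases le_total 0 a with h | h
    · exact mul_nonneg h (th_nonneg _)
    · rw [th_zero (by linarith), mul_zero]
  exact add_nonneg (h _) (h _)
theorem mm_zero {z : ℝ} (h : |z| ≤ 4) : mm z = 0 := by
  have := abs_le.1 h
  unfold mm; rw [th_zero (by linarith), th_zero (by linarith)]; ring
theorem mm_top {z : ℝ} (h : 33 / 8 ≤ |z|) : mm z = |z| - 4 := by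
  unfold mm
  rcases le_total 0 z with h0 | h0
  · rw [abs_of_nonneg h0] at h ⊢; rw [th_one (by linarith), th_zero (by linarith)]; ring
  · rw [abs_of_nonpos h0] at h ⊢; rw [th_zero (by linarith), th_one (by linarith)]; ring
theorem mm_le {z : ℝ} (h : 4 ≤ |z|) : mm z ≤ |z| - 4 := by
  unfold mm
  rcases le_total 0 z with h0 | h0
  · rw [abs_of_nonneg h0] at h ⊢; rw [th_zero (x := 8 * (-z - 4)) (by linarith)]
    nlinarith [th_le_one (8 * (z - 4))]
  · rw [abs_of_nonpos h0] at h ⊢; rw [th_zero (x := 8 * (z - 4)) (by linarith)]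
    nlinarith [th_le_one (8 * (-z - 4))]
theorem cc_zero {z : ℝ} (h : |z| ≤ 4) : cc z = 0 := by
  have := abs_le.1 h
  unfold cc; rw [th_zero (by linarith), th_zero (by linarith)]; ring
theorem cc_top {z : ℝ} (h : 33 / 8 ≤ z) : cc z = -1 := by
  unfold cc; rw [th_zero (by linarith), th_one (by linarith)]; ring
theorem cc_bot {z : ℝ} (h : z ≤ -(33 / 8)) : cc z = 1 := by
  unfold cc; rw [th_one (by linarith), th_zero (by linarith)]; ring
theorem abs_cc_le (z : ℝ) : |cc z| ≤ 1 := by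
  unfold cc
  rw [abs_le]
  constructor <;> linarith [th_nonneg (8 * (-z - 4)), th_le_one (8 * (-z - 4)),
    th_nonneg (8 * (z - 4)), th_le_one (8 * (z - 4))]
theorem dcc_eq (z : ℝ) :
    deriv cc z = -(8 * deriv th (8 * (-z - 4))) - 8 * deriv th (8 * (z - 4)) := by
  have h1 := (th_der (8 * (-z - 4))).comp z
    ((((hasDerivAt_id z).neg).sub_const 4).const_mul 8)
  have h2 := (th_der (8 * (z - 4))).comp z (((hasDerivAt_id z).sub_const 4).const_mul 8)
  have h3 : HasDerivAt cc _ z := h1.sub h2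
  rw [h3.deriv]; ring
theorem dcc_leg {z : ℝ} (h : |z| ≤ 4) : deriv cc z = 0 := by
  have := abs_le.1 h
  rw [dcc_eq, dth_of_nonpos (by linarith), dth_of_nonpos (by linarith)]; ring
theorem dcc_top {z : ℝ} (h : 33 / 8 ≤ |z|) : deriv cc z = 0 := by
  rw [dcc_eq]
  rcases le_abs.1 h with h | h
  · rw [dth_of_nonpos (by linarith), dth_of_one_le (by linarith)]; ring
  · rw [dth_of_one_le (by linarith), dth_of_nonpos (by linarith)]; ring

theorem ka_one {s : ℝ} (h : 1 / 16 ≤ s) : ka s = 1 := by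
  unfold ka; rw [th_one (by linarith)]; ring
theorem ka_low {s : ℝ} (h : s ≤ 1 / 32) : ka s = s - 1 / 64 := by
  unfold ka; rw [th_zero (by linarith)]; ring
theorem ka_pos {s : ℝ} (h : 1 / 64 < s) : 0 < ka s := by
  rcases le_total (1 / 16) s with h1 | h1
  · rw [ka_one h1]; norm_num
  · unfold ka
    nlinarith [th_nonneg (32 * s - 1), th_le_one (32 * s - 1)]
theorem lt_of_ka_pos {s : ℝ} (h : 0 < ka s) : 1 / 64 < s := by
  by_contra h1
  rw [ka_low (by linarith)] at h; linarith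
theorem ka_le_one (s : ℝ) : ka s ≤ 1 := by
  rcases le_total (1 / 16) s with h1 | h1
  · rw [ka_one h1]
  · unfold ka
    nlinarith [th_nonneg (32 * s - 1), th_le_one (32 * s - 1)]
theorem mu_pos {s : ℝ} (h : s < 1 / 64) : 0 < mu s := expNegInvGlue.pos_of_pos (by linarith)
theorem mu_zero {s : ℝ} (h : 1 / 64 ≤ s) : mu s = 0 := expNegInvGlue.zero_of_nonpos (by linarith)
theorem sn_pos {r : ℝ} (h : 0 < r) : sn r = 1 := if_pos h
theorem sn_nonpos {r : ℝ} (h : r ≤ 0) : sn r = -1 := if_neg (not_lt.2 h)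

/-! ### Cross products -/

theorem co_apply (γ : Co) (v : E) : γ v = v.1 * γ e1 + v.2.1 * γ e2 + v.2.2 * γ e3 := by
  have : v = v.1 • e1 + v.2.1 • e2 + v.2.2 • e3 := by
    simp [e1, e2, e3]
  conv_lhs => rw [this]
  simp only [map_add, map_smul, smul_eq_mul]
theorem app_crs (α β γ : Co) : γ (crs α β) =
    (α e2 * β e3 - α e3 * β e2) * γ e1 + (α e3 * β e1 - α e1 * β e3) * γ e2 +
      (α e1 * β e2 - α e2 * β e1) * γ e3 := co_apply γ _
theorem crs_left (α β : Co) : α (crs α β) = 0 := by rw [app_crs]; ring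
theorem crs_right (α β : Co) : β (crs α β) = 0 := by rw [app_crs]; ring
theorem crs_cyc (α β γ : Co) : γ (crs α β) = α (crs β γ) := by rw [app_crs, app_crs]; ring
theorem crs_swap (α β : Co) : crs α β = -crs β α := by
  simp only [crs, Prod.neg_mk, Prod.mk.injEq]; refine ⟨?_, ?_, ?_⟩ <;> ring
theorem crs_self (α : Co) : crs α α = 0 := by
  simp only [crs, Prod.mk_eq_zero]; refine ⟨?_, ?_, ?_⟩ <;> ring
theorem crs_add_left (α α' β : Co) : crs (α + α') β = crs α β + crs α' β := by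
  simp only [crs, Prod.mk_add_mk, Prod.mk.injEq, ContinuousLinearMap.add_apply]
  refine ⟨?_, ?_, ?_⟩ <;> ring
theorem crs_add_right (α β β' : Co) : crs α (β + β') = crs α β + crs α β' := by
  simp only [crs, Prod.mk_add_mk, Prod.mk.injEq, ContinuousLinearMap.add_apply]
  refine ⟨?_, ?_, ?_⟩ <;> ring
theorem crs_smul_left (c : ℝ) (α β : Co) : crs (c • α) β = c • crs α β := by
  simp only [crs, Prod.smul_mk, Prod.mk.injEq, ContinuousLinearMap.smul_apply, smul_eq_mul]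
  refine ⟨?_, ?_, ?_⟩ <;> ring
theorem crs_smul_right (c : ℝ) (α β : Co) : crs α (c • β) = c • crs α β := by
  simp only [crs, Prod.smul_mk, Prod.mk.injEq, ContinuousLinearMap.smul_apply, smul_eq_mul]
  refine ⟨?_, ?_, ?_⟩ <;> ring
theorem crs_neg_left (α β : Co) : crs (-α) β = -crs α β := by
  rw [← neg_one_smul ℝ α, crs_smul_left, neg_one_smul]
theorem crs_neg_right (α β : Co) : crs α (-β) = -crs α β := by
  rw [← neg_one_smul ℝ β, crs_smul_right, neg_one_smul]
theorem crs_zero_left (β : Co) : crs 0 β = 0 := by simp [crs]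
theorem crs_zero_right (α : Co) : crs α 0 = 0 := by simp [crs]

/-- chain rule for a function of two variables -/
theorem fderiv_comp2 {f : ℝ → ℝ → ℝ} {a b : E → ℝ} {p : E}
    (hf : DifferentiableAt ℝ (fun q : ℝ × ℝ => f q.1 q.2) (a p, b p))
    (ha : DifferentiableAt ℝ a p) (hb : DifferentiableAt ℝ b p) :
    fderiv ℝ (fun q => f (a q) (b q)) p =
      d1 f (a p) (b p) • fderiv ℝ a p + d2 f (a p) (b p) • fderiv ℝ b p := by
  have h0 := hf.hasFDerivAt
  have h1 : HasDerivAt (fun s => f s (b p)) (fderiv ℝ (fun q : ℝ × ℝ => f q.1 q.2) (a p, b p) (1, 0))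
      (a p) := h0.comp_hasDerivAt (f := fun s => (s, b p)) (a p)
        ((hasDerivAt_id _).prodMk (hasDerivAt_const _ _))
  have h2 : HasDerivAt (fun s => f (a p) s) (fderiv ℝ (fun q : ℝ × ℝ => f q.1 q.2) (a p, b p) (0, 1))
      (b p) := h0.comp_hasDerivAt (f := fun s => (a p, s)) (b p)
        ((hasDerivAt_const _ _).prodMk (hasDerivAt_id _))
  have h3 : HasFDerivAt (fun q => f (a q) (b q)) _ p :=
    h0.comp (f := fun q => (a q, b q)) p (ha.hasFDerivAt.prodMk hb.hasFDerivAt)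
  rw [h3.fderiv, d1, d2, h1.deriv, h2.deriv]
  refine ContinuousLinearMap.ext fun v => ?_
  generalize fderiv ℝ (fun q : ℝ × ℝ => f q.1 q.2) (a p, b p) = L
  have h4 : (fderiv ℝ a p v, fderiv ℝ b p v) =
      fderiv ℝ a p v • ((1 : ℝ), (0 : ℝ)) + fderiv ℝ b p v • ((0 : ℝ), (1 : ℝ)) := by simp
  change L (fderiv ℝ a p v, fderiv ℝ b p v) = L (1, 0) * fderiv ℝ a p v + L (0, 1) * fderiv ℝ b p v
  rw [h4, map_add, map_smul, map_smul, smul_eq_mul, smul_eq_mul]
  ring

@[fun_prop] theorem zz_sm : ContDiff ℝ ∞ zz := by unfold zz; fun_prop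
@[fun_prop] theorem hh_sm : ContDiff ℝ ∞ hh := by unfold hh; fun_prop
@[fun_prop] theorem U0_sm : ContDiff ℝ ∞ U0 := by unfold U0; fun_prop
@[fun_prop] theorem tau_sm : ContDiff ℝ ∞ tau := by unfold tau; fun_prop
theorem gam_add (n n' : ℤ × ℤ × ℤ) : gam (n + n') = gam n + gam n' := by
  simp only [gam, Prod.fst_add, Prod.snd_add, Prod.mk_add_mk, Prod.mk.injEq]
  push_cast
  refine ⟨?_, ?_, ?_⟩ <;> ring

/-! ### The planar model -/

theorem psiM_sm : ContDiff ℝ ∞ (fun q : ℝ × ℝ × ℝ × ℝ => psiM q.1 q.2.1 q.2.2.1 q.2.2.2) := by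
  unfold psiM; fun_prop
theorem sM_sm (e : ℝ) : ContDiff ℝ ∞ (fun q : ℝ × ℝ => sM e q.1 q.2) := by unfold sM; fun_prop
theorem kM_sm (e : ℝ) : ContDiff ℝ ∞ (fun q : ℝ × ℝ => kM e q.1 q.2) := ka_sm.comp (sM_sm e)
theorem FM_sm (e : ℝ) : ContDiff ℝ ∞ (fun q : ℝ × ℝ => FM e q.1 q.2) := by unfold FM; fun_prop
theorem muM_sm : ContDiff ℝ ∞ (fun q : ℝ × ℝ => muM q.1 q.2) :=
  (mu_sm.comp (sM_sm 1)).add (mu_sm.comp (sM_sm (-1)))
theorem ptM_sm : ContDiff ℝ ∞ (fun q : ℝ × ℝ × ℝ × ℝ => ptM q.1 q.2.1 q.2.2.1 q.2.2.2) := by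
  unfold ptM kM sM FM psiM; fun_prop
theorem sM_nonneg (e ξ τ : ℝ) : 0 ≤ sM e ξ τ :=
  add_nonneg (sq_nonneg _) (div_nonneg (bb_nonneg _) dl_pos.le)

/-- inside a tube -/
theorem tube {e ξ τ : ℝ} (he : e = 1 ∨ e = -1) (h : sM e ξ τ < 1 / 9) (l L : ℝ) :
    |ξ / dl - e| < 1 / 3 ∧ bb τ < dl / 9 ∧ 1 < sM (-e) ξ τ ∧
      psiM l L ξ τ = cM e l + FM e ξ τ := by
  have h0 := div_nonneg (bb_nonneg τ) dl_pos.le
  have h1 : (ξ / dl - e) ^ 2 < (1 / 3) ^ 2 := by unfold sM at h; linarith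
  have h2 : |ξ / dl - e| < 1 / 3 := abs_lt_of_sq_lt_sq h1 (by norm_num)
  have h3 : bb τ < dl / 9 := by
    have : bb τ / dl < 1 / 9 := by unfold sM at h; nlinarith [sq_nonneg (ξ / dl - e)]
    rw [div_lt_iff₀ dl_pos] at this; linarith
  have h4 := abs_lt.1 h2
  refine ⟨h2, h3, ?_, ?_⟩
  · unfold sM
    rcases he with rfl | rfl <;> nlinarith
  · have h5 : chi τ = 1 := chi_one (by unfold dl at h3; linarith)
    unfold psiM cM FM
    rcases he with rfl | rfl
    · rw [h5, st_one (by linarith), be_one (abs_le.2 ⟨by linarith, by linarith⟩)]; ring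
    · rw [h5, st_neg_one (by linarith), be_one (abs_le.2 ⟨by linarith, by linarith⟩)]; ring

/-- outside the core -/
theorem offcore {ξ τ : ℝ} (hτ : |τ| < 1 / 20) (h : 2 * dl < |ξ| ∨ 1 / 40 < |τ|) (l L : ℝ) :
    1 < sM 1 ξ τ ∧ 1 < sM (-1) ξ τ ∧ psiM l L ξ τ = l * (1 - dl) * st (ξ / dl) - L * ξ - bb τ := by
  have h0 := div_nonneg (bb_nonneg τ) dl_pos.le
  rcases h with h | h
  · have h1 : 2 < |ξ / dl| := by rw [abs_div, abs_of_pos dl_pos, lt_div_iff₀ dl_pos]; exact h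
    refine ⟨?_, ?_, ?_⟩
    · unfold sM; rcases lt_abs.1 h1 with h2 | h2 <;> nlinarith
    · unfold sM; rcases lt_abs.1 h1 with h2 | h2 <;> nlinarith
    · unfold psiM; rw [be_zero h1.le]; ring
  · have h1 : 1 / 8000 ≤ bb τ := by
      have h2 := bb_ge (τ := τ) (by linarith)
      have h3 : (1 / 40) ^ 2 < τ ^ 2 := by rw [← sq_abs τ]; nlinarith
      linarith
    have h2 : 1 < bb τ / dl := by rw [lt_div_iff₀ dl_pos]; unfold dl; linarith
    refine ⟨?_, ?_, ?_⟩
    · unfold sM; nlinarith [sq_nonneg (ξ / dl - 1)]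
    · unfold sM; nlinarith [sq_nonneg (ξ / dl - -1)]
    · unfold psiM; rw [chi_zero h1]; ring

end Pool.Agent.P.MP_ff4c85_gt.T
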