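import Pool.Agent.P.MP_ff4c85_gt.Fin

/-! Definitions for the smooth divergence free field in dimension three. -/

set_option autoImplicit false

open Set Filter Topology Real
open scoped ContDiff Classical

namespace Pool.Agent.P.MP_ff4c85_gt.T

noncomputable section

/-! ### Vector calculus -/

abbrev E : Type := ℝ × ℝ × ℝ
abbrev Co : Type := E →L[ℝ] ℝ

def e1 : E := (1, 0, 0)
def e2 : E := (0, 1, 0)
def e3 : E := (0, 0, 1)

/-- cross product of two covectors -/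
def crs (α β : Co) : E :=
  (α e2 * β e3 - α e3 * β e2, α e3 * β e1 - α e1 * β e3, α e1 * β e2 - α e2 * β e1)

/-- cross product of two gradients -/
def cr (f g : E → ℝ) (p : E) : E := crs (fderiv ℝ f p) (fderiv ℝ g p)

/-- divergence -/
def dv (X : E → E) (p : E) : ℝ := LinearMap.trace ℝ E (fderiv ℝ X p : E →ₗ[ℝ] E)

/-! ### Functions of one variable -/

def th (x : ℝ) : ℝ := Real.smoothTransition x
def dl : ℝ := 1 / 1000000
def PP : ℝ := 2 - 2 * dl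
def st (t : ℝ) : ℝ := th (2 * t) - th (-(2 * t))
def sg (h : ℝ) : ℝ := th (4 * h - 1) - th (-(4 * h) - 1)
def be (t : ℝ) : ℝ := th (4 - 2 * t) * th (4 + 2 * t)
def SS (t : ℝ) : ℝ := (3 * t - t ^ 3) / 2
def bb (τ : ℝ) : ℝ := 1 - cos τ
def chi (τ : ℝ) : ℝ := 1 - th (16000 * bb τ - 1)
def lam (z : ℝ) : ℝ := th (4 * cos (π * z / 6) + 1)
def La (z : ℝ) : ℝ := lam z + lam (z - 6)
def ZZ (x : ℝ) : ℝ :=
  -(x - round (x / PP) * PP) + (1 - dl) * st ((x - round (x / PP) * PP) / dl)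
def mm (z : ℝ) : ℝ := (z - 4) * th (8 * (z - 4)) + (-z - 4) * th (8 * (-z - 4))
def cc (z : ℝ) : ℝ := th (8 * (-z - 4)) - th (8 * (z - 4))
def ka (s : ℝ) : ℝ := (s - 1 / 64) * (1 - th (32 * s - 1)) + th (32 * s - 1)
def mu (s : ℝ) : ℝ := expNegInvGlue (1 / 64 - s)
def hc (g : ℝ) : ℝ := 5 - |g - round (g / 20) * 20|
def ze (g : ℝ) : ℝ := hc (g - 5)
def cl (z : ℝ) : ℝ := if |z - round (z / 6) * 6| ≤ 21 / 10 then round (z / 6) * 6 else z
def sn (r : ℝ) : ℝ := if 0 < r then 1 else -1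

/-! ### The outer field and the lattice -/

def zz (p : E) : ℝ := p.2.2
def HH (p : E) : ℝ := lam p.2.2 * ZZ p.1 + lam (p.2.2 - 6) * ZZ (p.1 - PP / 2) + sin p.2.1
def vout (p : E) : E := cr HH zz p
def gam (n : ℤ × ℤ × ℤ) : E := (n.1 * PP + n.2.2 * (PP / 2), n.2.1 * (2 * π), n.2.2 * 6)

/-! ### The torus and its chart -/

def hh (p : E) : ℝ := sin p.2.1 - p.1
def U0 (p : E) : ℝ := hh p * sg (hh p) - 1 + mm p.2.2
def uu (p : E) : ℝ := 2 * U0 p / (1 + √(1 + 2 * deriv cc p.2.2 * U0 p))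
def tt (p : E) : ℝ := p.2.2 + cc p.2.2 * uu p
def tau (p : E) : ℝ := p.2.1 - π / 2 * sg (hh p)
def xi (p : E) : ℝ := cos (tau p) - 1 - uu p

def VV : Set E := {p | |xi p| < 3 * dl ∧ |tau p| < 1 / 20 ∧ |U0 p| < 1 / 200}
def Sc : Set E := {p | |xi p| ≤ 2 * dl ∧ |tau p| ≤ 1 / 40 ∧ |U0 p| ≤ 1 / 400}
/-- the points outside all translates of the core -/
def OO : Set E := {p | ∀ n, p - gam n ∉ Sc}

def GG (p : E) : ℝ :=
  if 21 / 5 < p.2.2 then 5 - hh p else if p.2.2 < -(21 / 5) then hh p - 5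
  else if 0 < hh p then tt p else 10 - tt p

def dG (p : E) : Co :=
  if 21 / 5 < p.2.2 then -fderiv ℝ hh p else if p.2.2 < -(21 / 5) then fderiv ℝ hh p
  else if 0 < hh p then fderiv ℝ tt p else -fderiv ℝ tt p

/-! ### The planar model -/

def psiM (l L ξ τ : ℝ) : ℝ :=
  l * (1 - dl) * st (ξ / dl) - L * ξ - bb τ + be (ξ / dl) * (dl * SS (ξ / dl) + L * ξ) * chi τ
def sM (e ξ τ : ℝ) : ℝ := (ξ / dl - e) ^ 2 + bb τ / dl
def kM (e ξ τ : ℝ) : ℝ := ka (sM e ξ τ)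
def FM (e ξ τ : ℝ) : ℝ := -e * (dl * (1 - e * SS (ξ / dl))) - bb τ
def cM (e l : ℝ) : ℝ := e * (l * (1 - dl) + dl)
def ptM (l L ξ τ : ℝ) : ℝ :=
  psiM l L ξ τ + (kM 1 ξ τ - 1) * FM 1 ξ τ + (kM (-1) ξ τ - 1) * FM (-1) ξ τ
def muM (ξ τ : ℝ) : ℝ := mu (sM 1 ξ τ) + mu (sM (-1) ξ τ)
/-- partial derivatives and the bracket of functions of two variables -/
def d1 (f : ℝ → ℝ → ℝ) (ξ τ : ℝ) : ℝ := deriv (fun a => f a τ) ξ
def d2 (f : ℝ → ℝ → ℝ) (ξ τ : ℝ) : ℝ := deriv (fun a => f ξ a) τ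
def br (f g : ℝ → ℝ → ℝ) (ξ τ : ℝ) : ℝ := d1 f ξ τ * d2 g ξ τ - d2 f ξ τ * d1 g ξ τ
def CM (ξ τ : ℝ) : ℝ := muM ξ τ - br (FM 1) (kM 1) ξ τ - br (FM (-1)) (kM (-1)) ξ τ

/-! ### The inner field and the global field -/

def psi (p : E) : ℝ := psiM (lam p.2.2) (La p.2.2) (xi p) (tau p)
def pt (p : E) : ℝ := ptM (lam p.2.2) (La p.2.2) (xi p) (tau p)
def ss (e : ℝ) (p : E) : ℝ := sM e (xi p) (tau p)
def kk (e : ℝ) (p : E) : ℝ := kM e (xi p) (tau p)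
def FF (e : ℝ) (p : E) : ℝ := FM e (xi p) (tau p)
def muu (p : E) : ℝ := muM (xi p) (tau p)

def vin (p : E) : E :=
  crs (fderiv ℝ pt p) (dG p) - cr (FF 1) (kk 1) p - cr (FF (-1)) (kk (-1)) p + muu p • cr xi tau p

def WW (p : E) : E := if h : ∃ n, p - gam n ∈ VV then vin (p - gam h.choose) else vout p

/-! ### Effective coordinates -/

def kL (p : E) : ℝ := kk 1 p * kk (-1) p
def gg (p : E) : ℝ := GG p - Real.log (kL p)
def psiP (p : E) : ℝ :=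
  if ss 1 p < 1 / 9 then cM 1 (lam (ze (gg p))) + kk 1 p * FF 1 p
  else if ss (-1) p < 1 / 9 then cM (-1) (lam (ze (gg p))) + kk (-1) p * FF (-1) p
  else psi p
def xL (p : E) : ℝ := if |ze (gg p)| < 39 / 10 then sn (hc (gg p)) * xi p else p.1
def yL (p : E) : ℝ := π / 2 * sg (hc (gg p)) + tau p
def zL (p : E) : ℝ := ze (gg p)
def HL (p : E) : ℝ := hc (gg p) * (1 + psiP p)

def kE (p : E) : ℝ := if h : ∃ n, p - gam n ∈ VV then kL (p - gam h.choose) else 1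
def xE (p : E) : ℝ :=
  if h : ∃ n, p - gam n ∈ VV then xL (p - gam h.choose) + (gam h.choose).1 else p.1
def yE (p : E) : ℝ :=
  if h : ∃ n, p - gam n ∈ VV then yL (p - gam h.choose) + (gam h.choose).2.1 else p.2.1
def zE (p : E) : ℝ :=
  if h : ∃ n, p - gam n ∈ VV then zL (p - gam h.choose) + (gam h.choose).2.2 else p.2.2
def HE (p : E) : ℝ := if h : ∃ n, p - gam n ∈ VV then HL (p - gam h.choose) else HH p

/-- trajectory of the global field -/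
def Traj (c : ℝ → E) : Prop := ∀ t, HasDerivAt c (WW (c t)) t

end

end Pool.Agent.P.MP_ff4c85_gt.T
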