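import Pool.Agent.P.MP_ff4c85_gt.T.Basic

/-! Statements of the steps. -/

set_option autoImplicit false

open Set Filter Topology Real
open scoped ContDiff Classical

namespace Pool.Agent.P.MP_ff4c85_gt.T

-- deps:
def S_TH : Prop := ∀ x, deriv th x ≤ 8

structure Lam : Prop where
  per : ∀ (z : ℝ) (j : ℤ), lam (z + j * 12) = lam z
  neg : ∀ z, lam (-z) = lam z
  one : ∀ z, |z| ≤ 3 → lam z = 1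
  zero : ∀ z, 39 / 10 ≤ |z| → |z| ≤ 81 / 10 → lam z = 0
  one' : ∀ z, 3 ≤ |z| → |z| ≤ 9 → lam (z - 6) = 1
  full : ∀ z, lam z = 1 ∨ lam (z - 6) = 1
  near : ∀ z, 0 < lam z → ∃ j : ℤ, |z - j * 12| < 39 / 10
  La_ge : ∀ z, 1 ≤ La z
  La_le : ∀ z, La z ≤ 2

-- deps:
def S_LAM : Prop := Lam

structure Tri : Prop where
  lam_cl : ∀ (z : ℝ) (j : ℤ), lam (cl z - j * 6) = lam (z - j * 6)
  cl_near : ∀ z, |cl z - z| ≤ 21 / 10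
  cl_add : ∀ (z : ℝ) (j : ℤ), cl (z + j * 6) = cl z + j * 6
  cl_eq : ∀ (z : ℝ) (j : ℤ), |z - j * 6| ≤ 21 / 10 → cl z = j * 6
  hc_per : ∀ (g : ℝ) (n : ℤ), hc (g + n * 20) = hc g
  hc_eq : ∀ g, |g| ≤ 10 → hc g = 5 - |g|
  ze_per : ∀ (g : ℝ) (n : ℤ), ze (g + n * 20) = ze g
  sum : ∀ g, |hc g| + |ze g| = 5

-- deps: LAM
def S_TRI : Prop := Tri

structure Saw : Prop where
  sm : ContDiff ℝ ∞ ZZ
  per : ∀ (x : ℝ) (n : ℤ), ZZ (x + n * PP) = ZZ x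
  loc : ∀ (x : ℝ) (n : ℤ), |x - n * PP| ≤ PP - dl / 2 →
    ZZ x = -(x - n * PP) + (1 - dl) * st ((x - n * PP) / dl)
  bound : ∀ x l₁ l₂ : ℝ, 0 ≤ l₁ → l₁ ≤ 1 → 0 ≤ l₂ → l₂ ≤ 1 →
    |l₁ * ZZ x + l₂ * ZZ (x - PP / 2)| ≤ 1 - dl
  der : ∀ x : ℝ, (∀ n : ℤ, dl / 2 < |x - n * PP|) → HasDerivAt ZZ (-1) x

-- deps:
def S_SAW : Prop := Saw

structure Dv : Prop where
  cr_sm : ∀ (f g : E → ℝ) (p : E), ContDiffAt ℝ ∞ f p → ContDiffAt ℝ ∞ g p →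
    ContDiffAt ℝ ∞ (cr f g) p
  cr_dv : ∀ (f g : E → ℝ) (p : E), ContDiffAt ℝ ∞ f p → ContDiffAt ℝ ∞ g p → dv (cr f g) p = 0
  add : ∀ (X Y : E → E) (p : E), DifferentiableAt ℝ X p → DifferentiableAt ℝ Y p →
    dv (fun q => X q + Y q) p = dv X p + dv Y p
  sub : ∀ (X Y : E → E) (p : E), DifferentiableAt ℝ X p → DifferentiableAt ℝ Y p →
    dv (fun q => X q - Y q) p = dv X p - dv Y p
  smul : ∀ (m : E → ℝ) (X : E → E) (p : E), DifferentiableAt ℝ m p → DifferentiableAt ℝ X p →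
    dv (fun q => m q • X q) p = fderiv ℝ m p (X p) + m p * dv X p

-- deps:
def S_DIV : Prop := Dv

structure Geo : Prop where
  uu_cont : Continuous uu
  xi_cont : Continuous xi
  opn : IsOpen VV
  rad : ∀ p ∈ VV, 0 < 1 + 2 * deriv cc p.2.2 * U0 p
  quad : ∀ p ∈ VV, U0 p = uu p + deriv cc p.2.2 * uu p ^ 2 / 2
  u_lt : ∀ p ∈ VV, |uu p| < 1 / 790
  U0_lt : ∀ p ∈ VV, |U0 p| < 1 / 400
  z_lt : ∀ p ∈ VV, |p.2.2| < 51 / 10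
  y_lt : ∀ p ∈ VV, |p.2.1| < π / 2 + 1 / 20
  h_lt : ∀ p ∈ VV, |hh p| < 101 / 100
  x_lt : ∀ p ∈ VV, |p.1| < 4 / 5
  side : ∀ p ∈ VV, |p.2.2| < 17 / 4 → 1 / 2 < |hh p|
  top : ∀ p ∈ VV, 33 / 8 ≤ |p.2.2| → uu p = |p.2.2| - 5 + hh p * sg (hh p)
  leg : ∀ p ∈ VV, |p.2.2| ≤ 4 → ∀ a : ℝ, (a = 1 ∨ a = -1) → 0 < a * hh p →
    tau p = p.2.1 - a * (π / 2) ∧ xi p = a * p.1 ∧ uu p = a * hh p - 1 ∧ tt p = p.2.2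

-- deps: TH
def S_GEO : Prop := Geo

structure Core : Prop where
  cpt : IsCompact Sc
  sub : Sc ⊆ VV
  off : ∀ p ∈ VV, p ∉ Sc → 2 * dl < |xi p| ∨ 1 / 40 < |tau p|
  leg_mem : ∀ (p : E) (a : ℝ), (a = 1 ∨ a = -1) → |p.2.2| ≤ 4 → |p.2.1 - a * (π / 2)| ≤ 1 / 40 →
    |p.1| ≤ 2 * dl → p ∈ Sc
  disj : ∀ (p : E) (n n' : ℤ × ℤ × ℤ), p - gam n ∈ VV → p - gam n' ∈ VV → n = n'

-- deps: GEO
def S_CORE : Prop := Core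

structure ChA : Prop where
  uu_sm : ∀ p ∈ VV, ContDiffAt ℝ ∞ uu p
  xi_sm : ∀ p ∈ VV, ContDiffAt ℝ ∞ xi p
  tt_sm : ∀ p ∈ VV, ContDiffAt ℝ ∞ tt p
  loc : ∀ p ∈ VV, ∃ g : E → ℝ, ContDiffAt ℝ ∞ g p ∧
    ∀ᶠ q in 𝓝 p, dG q = fderiv ℝ g q ∧ ∃ n : ℤ, GG q = g q + n * 20
  c3 : ∀ p ∈ VV, |p.2.2| < 4 → dG p = sn (hh p) • fderiv ℝ zz p

-- deps: GEO
def S_CHA : Prop := ChA

-- deps: GEO CHA
def S_CHB : Prop :=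
  ∀ p ∈ VV, crs (fderiv ℝ uu p) (dG p) = cr hh zz p ∧ dG p (cr xi tau p) = 1

-- deps: GEO TRI
def S_GV : Prop :=
  ∀ p ∈ VV, cl (ze (GG p)) = cl p.2.2 ∧ sg (hc (GG p)) = sg (hh p) ∧
    (∃ c : ℝ, 0 < c ∧ hc (GG p) = c * hh p) ∧ (|ze (GG p)| < 39 / 10 → |p.2.2| < 4) ∧
    lam (ze (GG p)) = lam p.2.2

-- deps: TH
def S_NZA : Prop :=
  ∀ l L ξ τ : ℝ, 0 ≤ l → l ≤ 1 → 1 ≤ L → L ≤ 2 → |ξ| < 3 * dl → |τ| < 1 / 20 →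
    1 / 16 < sM 1 ξ τ → 1 / 16 < sM (-1) ξ τ →
    d1 (ptM l L) ξ τ = 0 → d2 (ptM l L) ξ τ = 0 → False

-- deps:
def S_NZB : Prop :=
  ∀ e l L ξ τ : ℝ, (e = 1 ∨ e = -1) → |τ| < 1 / 20 → sM e ξ τ < 1 / 9 →
    d1 (ptM l L) ξ τ = 0 → d2 (ptM l L) ξ τ = 0 → CM ξ τ = 0 → False

-- deps: LAM GEO CHA CHB
def S_DEC : Prop :=
  ∀ p ∈ VV, fderiv ℝ xi p (vin p) = d2 (ptM (lam p.2.2) (La p.2.2)) (xi p) (tau p) ∧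
    fderiv ℝ tau p (vin p) = -d1 (ptM (lam p.2.2) (La p.2.2)) (xi p) (tau p) ∧
    dG p (vin p) = CM (xi p) (tau p)

-- deps: GEO CHA
def S_INA : Prop :=
  ∀ p ∈ VV, 1 / 16 < ss 1 p → 1 / 16 < ss (-1) p →
    vin p = crs (fderiv ℝ psi p) (dG p) ∧ fderiv ℝ psi p (vin p) = 0 ∧ dG p (vin p) = 0

-- deps: CHA DEC
def S_INB : Prop :=
  ∀ p ∈ VV, ∀ e : ℝ, (e = 1 ∨ e = -1) → ss e p < 1 / 9 →
    fderiv ℝ (fun q => kk e q * FF e q) p (vin p) = 0 ∧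
    fderiv ℝ (kk e) p (vin p) = kk e p * (dG p (vin p) - muu p)

-- deps: CHA DIV
def S_VSM : Prop := ∀ p ∈ VV, ContDiffAt ℝ ∞ vin p ∧ dv vin p = 0

-- deps: LAM SAW GEO CORE
def S_PSI : Prop :=
  ∀ p ∈ VV, p ∉ Sc → (|p.2.2| < 4 → psi p = sn (hh p) * HH p - 1) ∧
    (39 / 10 < |p.2.2| → psi p = uu p ∧ HH p = hh p)

-- deps: SAW GEO CORE CHA CHB INA PSI
def S_MAT : Prop := ∀ p ∈ VV, p ∉ Sc → vin p = vout p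

-- deps: LAM TRI GEO CORE GV PSI
def S_COL : Prop :=
  ∀ q ∈ VV, q ∉ Sc → kL q = 1 ∧ xL q = q.1 ∧ yL q = q.2.1 ∧ cl (zL q) = cl q.2.2 ∧
    ∃ c : ℝ, 0 < c ∧ HL q = c * HH q

structure Asm : Prop where
  HH_sm : ContDiff ℝ ∞ HH
  HH_per : ∀ p n, HH (p - gam n) = HH p
  sel : ∀ p n, p - gam n ∈ VV → WW p = vin (p - gam n) ∧ kE p = kL (p - gam n) ∧
    xE p = xL (p - gam n) + (gam n).1 ∧ yE p = yL (p - gam n) + (gam n).2.1 ∧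
    zE p = zL (p - gam n) + (gam n).2.2 ∧ HE p = HL (p - gam n)
  out : ∀ p ∈ OO, WW p = vout p
  opn : IsOpen OO
  cover : ∀ p, p ∈ OO ∨ ∃ n, p - gam n ∈ VV
  per : ∀ p n, WW (p + gam n) = WW p
  outE : ∀ p ∈ OO, kE p = 1 ∧ xE p = p.1 ∧ yE p = p.2.1 ∧ cl (zE p) = cl p.2.2 ∧
    ∃ c : ℝ, 0 < c ∧ HE p = c * HH p

-- deps: LAM TRI SAW GEO CORE MAT COL
def S_ASM : Prop := Asm

-- deps: LAM SAW CORE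
def S_NZO : Prop := ∀ p ∈ OO, vout p ≠ 0

-- deps: LAM SAW CORE
def S_BO : Prop :=
  (∀ (p : E) (a : ℝ) (n : ℤ), (a = 1 ∨ a = -1) → p.2.1 = a * (π / 2) + n * (2 * π) →
    0 < a * HH p) ∧
  (∀ p ∈ OO, ∀ (a : ℝ) (j n : ℤ), (a = 1 ∨ a = -1) → lam (p.2.2 - j * 6) = 1 →
    p.1 = j * (PP / 2) + a * dl + n * PP → 0 < a * HH p)

-- deps: LAM TRI GV
def S_BI1 : Prop :=
  ∀ q ∈ VV, 0 < kL q → ∀ (a : ℝ) (n : ℤ), (a = 1 ∨ a = -1) →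
    yL q = a * (π / 2) + n * (2 * π) → 0 < a * HL q

-- deps: LAM TRI GEO GV
def S_BI2 : Prop :=
  ∀ q ∈ VV, 0 < kL q → ∀ (a : ℝ) (j n : ℤ), (a = 1 ∨ a = -1) → lam (zL q - j * 6) = 1 →
    xL q = j * (PP / 2) + a * dl + n * PP → 0 < a * HL q

-- deps: TRI GEO CHA GV INA INB
def S_LOC : Prop :=
  ∀ (c : ℝ → E) (t₀ : ℝ), (∀ᶠ t in 𝓝 t₀, HasDerivAt c (vin (c t)) t) → c t₀ ∈ VV →
    0 < kL (c t₀) →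
    (∀ᶠ t in 𝓝 t₀, HL (c t) = HL (c t₀) ∧ zL (c t) = zL (c t₀)) ∧
      ContinuousAt (fun t => xL (c t)) t₀ ∧ ContinuousAt (fun t => yL (c t)) t₀

-- deps: GEO CHA INB VSM ASM
def S_KS : Prop := ∀ c : ℝ → E, Traj c → ∀ s t, 0 < kE (c s) → 0 < kE (c t)

-- deps: TRI GEO ASM LOC
def S_GLOB : Prop :=
  ∀ c : ℝ → E, Traj c → (∀ t, 0 < kE (c t)) →
    (∀ s t, SignType.sign (HE (c s)) = SignType.sign (HE (c t)) ∧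
      cl (zE (c s)) = cl (zE (c t))) ∧
    Continuous (fun t => xE (c t)) ∧ Continuous (fun t => yE (c t))

-- deps: TRI GEO ASM BO BI1 BI2
def S_BAR : Prop :=
  ∀ p : E, 0 < kE p → |xE p - p.1| ≤ 2 ∧ |yE p - p.2.1| ≤ 4 ∧ |zE p - p.2.2| ≤ 11 ∧
    ∀ a : ℝ, (a = 1 ∨ a = -1) →
      (∀ n : ℤ, yE p = a * (π / 2) + n * (2 * π) → 0 < a * HE p) ∧
      (∀ j n : ℤ, lam (zE p - j * 6) = 1 → xE p = j * (PP / 2) + a * dl + n * PP → 0 < a * HE p)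

-- deps: GEO CORE ASM
def S_ISL : Prop := ∀ c : ℝ → E, Continuous c → (∀ t, kE (c t) ≤ 0) → ∀ s t, dist (c s) (c t) ≤ 100

-- deps: LAM TRI KS GLOB BAR ISL
def S_DIAM : Prop := ∀ c : ℝ → E, Traj c → ∀ s t, dist (c s) (c t) ≤ 100

-- deps: LAM GEO DIV NZA NZB DEC VSM ASM NZO
def S_SMO : Prop := ContDiff ℝ ∞ WW ∧ (∀ p, dv WW p = 0) ∧ ∀ p, WW p ≠ 0

-- deps: ASM SMO DIAM
def S_GOOD : Prop :=
  ∃ (K : NNReal) (C : ℝ) (b : Module.Basis (Fin 3) ℝ E), Good WW K C 100 ∧ ∀ i p, WW (p + b i) = WW p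

end Pool.Agent.P.MP_ff4c85_gt.T
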