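import Pool.Agent.P.MP_ff4c85_gt.T.Iface

/-! Step BI2. -/

set_option autoImplicit false

namespace Pool.Agent.P.MP_ff4c85_gt.T

open Set Filter Topology Real
open scoped ContDiff Classical

namespace BI2x

theorem div_dl (e : ℝ) : e * dl / dl = e := mul_div_cancel_right₀ e dl_pos.ne'

theorem s_self (e τ : ℝ) : sM e (e * dl) τ = bb τ / dl := by
  rw [sM, div_dl]; ring

theorem s_opp {e : ℝ} (he : e = 1 ∨ e = -1) (τ : ℝ) : 4 ≤ sM (-e) (e * dl) τ := by
  have h0 := div_nonneg (bb_nonneg τ) dl_pos.le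
  rw [sM, div_dl]
  rcases he with rfl | rfl <;> linarith

theorem F_self {e : ℝ} (he : e = 1 ∨ e = -1) (τ : ℝ) : FM e (e * dl) τ = -bb τ := by
  rw [FM, div_dl, SS]
  rcases he with rfl | rfl <;> ring

theorem psi_self {e : ℝ} (he : e = 1 ∨ e = -1) (L τ : ℝ) :
    psiM 1 L (e * dl) τ = e - bb τ - e * ((1 - chi τ) * (1 + L) * dl) := by
  rw [psiM, div_dl, SS]
  rcases he with rfl | rfl
  · rw [st_one (by norm_num), be_one (by norm_num)]; ring
  · rw [st_neg_one (by norm_num), be_one (by norm_num)]; ring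

/-- the planar inequality -/
theorem key (hL : Lam) (hGV : S_GV) {q : E} (hq : q ∈ VV) (hk : 0 < kL q) {e : ℝ}
    (he : e = 1 ∨ e = -1) (hl : lam (ze (gg q)) = 1) (hx : xi q = e * dl) :
    0 < e * (1 + psiP q) := by
  have hd := dl_pos
  have hd1 : dl = 1 / 1000000 := rfl
  have hb0 := bb_nonneg (tau q)
  have ho : 4 ≤ ss (-e) q := by rw [ss, hx]; exact s_opp he _
  have hs : ss e q = bb (tau q) / dl := by rw [ss, hx, s_self]
  have hko : kk (-e) q = 1 := ka_one (le_trans (by norm_num) ho)
  have hkL : kL q = kk e q := by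
    rcases he with rfl | rfl
    · rw [kL, hko, mul_one]
    · rw [neg_neg] at hko
      rw [kL, hko, one_mul]
  have hb : 0 < bb (tau q) := by
    have h1 : 1 / 64 < ss e q := lt_of_ka_pos (hkL ▸ hk : 0 < kk e q)
    rw [hs, lt_div_iff₀ hd] at h1
    linarith
  have hbl : bb (tau q) < 1 / 800 := by
    have h1 := bb_le (tau q)
    have h2 := abs_lt.1 hq.2.1
    nlinarith
  by_cases ht : ss e q < 1 / 9
  · have h1 : psiP q = e - kk e q * bb (tau q) := by
      have h2 : FF e q = -bb (tau q) := by rw [FF, hx, F_self he]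
      rcases he with rfl | rfl
      · rw [psiP, if_pos ht, hl, h2, cM]; ring
      · rw [neg_neg] at ho
        rw [psiP, if_neg (by linarith), if_pos ht, hl, h2, cM]; ring
    have h3 : kk e q ≤ 1 := ka_le_one _
    have h4 : 0 < kk e q := hkL ▸ hk
    rw [h1]
    rcases he with rfl | rfl <;> nlinarith [mul_pos h4 hb]
  · have h1 : kL q = 1 := hkL.trans (ka_one (le_trans (by norm_num) (not_lt.1 ht)))
    have h2 : lam q.2.2 = 1 := by
      rw [← (hGV q hq).2.2.2.2, ← hl, gg, h1, Real.log_one, sub_zero]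
    have h3 : psiP q = psi q := by
      rcases he with rfl | rfl
      · rw [psiP, if_neg ht, if_neg (by linarith)]
      · rw [neg_neg] at ho
        rw [psiP, if_neg (by linarith), if_neg ht]
    rw [h3, psi, h2, hx, psi_self he]
    have h4 := hL.La_ge q.2.2
    have h5 := hL.La_le q.2.2
    have h6 := chi_nonneg (tau q)
    have h7 := chi_le_one (tau q)
    have h8 : (1 - chi (tau q)) * (1 + La q.2.2) ≤ 3 := by nlinarith
    have h9 : (1 - chi (tau q)) * (1 + La q.2.2) * dl ≤ 3 * dl :=
      mul_le_mul_of_nonneg_right h8 hd.le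
    rcases he with rfl | rfl
    · linarith
    · rcases le_or_gt (bb (tau q)) (1 / 16000) with h | h
      · rw [chi_one h]; linarith
      · linarith

end BI2x

theorem p_BI2 (hLAM : S_LAM) (hTRI : S_TRI) (hGEO : S_GEO) (hGV : S_GV) :
    S_BI2 := by
  intro q hq hk a j n ha hl hx
  have hd := dl_pos
  have hd1 : dl = 1 / 1000000 := rfl
  have hsn : sn (hc (gg q)) = 1 ∨ sn (hc (gg q)) = -1 := by
    unfold sn; split_ifs <;> simp
  have h1 : |xL q| < 4 / 5 := by
    unfold xL
    split_ifs
    · have h := hq.1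
      rcases hsn with h' | h' <;> rw [h'] <;> simp only [one_mul, neg_mul, abs_neg] <;> linarith
    · exact hGEO.x_lt q hq
  have h2 : j + 2 * n = 0 := by
    have h3 : xL q = ((j + 2 * n : ℤ) : ℝ) * (1 - dl) + a * dl := by
      rw [hx, PP]; push_cast; ring
    have h4 := abs_lt.1 h1
    generalize j + 2 * n = m at h3
    rcases lt_trichotomy m 0 with h | h | h
    · have : (m : ℝ) ≤ -1 := by exact_mod_cast Int.le_sub_one_of_lt h
      rcases ha with rfl | rfl <;> nlinarith
    · exact h
    · have : (1 : ℝ) ≤ m := by exact_mod_cast h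
      rcases ha with rfl | rfl <;> nlinarith
  have h3 : (j : ℝ) = -(2 * n) := by
    have : ((j + 2 * n : ℤ) : ℝ) = 0 := by rw [h2]; simp
    push_cast at this
    linarith
  have h4 : lam (ze (gg q)) = 1 := by
    rw [← hl, zL, ← hLAM.per (ze (gg q)) n, h3]
    congr 1
    ring
  have h5 := hTRI.sum (gg q)
  have h6 : |ze (gg q)| < 39 / 10 := by
    by_contra h
    rw [hLAM.zero _ (not_lt.1 h) (by linarith [abs_nonneg (hc (gg q))])] at h4
    exact zero_ne_one h4
  have h7 : sn (hc (gg q)) * xi q = a * dl := by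
    rw [xL, if_pos h6, h3, PP] at hx
    linarith
  rw [HL]
  rcases lt_or_ge 0 (hc (gg q)) with h | h
  · rw [sn_pos h, one_mul] at h7
    have := mul_pos h (BI2x.key hLAM hGV hq hk ha h4 h7)
    linarith
  · rw [sn_nonpos h] at h7
    rw [abs_of_nonpos h] at h5
    have := mul_pos (show 0 < -hc (gg q) by linarith)
      (BI2x.key hLAM hGV hq hk (e := -a) (by rcases ha with rfl | rfl <;> simp) h4 (by linarith))
    linarith

end Pool.Agent.P.MP_ff4c85_gt.T
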