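import Pool.Agent.P.MP_ff4c85_gt.T.Iface

/-! Step NZB. -/

set_option autoImplicit false

namespace Pool.Agent.P.MP_ff4c85_gt.T

open Set Filter Topology Real
open scoped ContDiff Classical

namespace NZBx

/-- derivative of `ka` -/
noncomputable def k1 (s : ℝ) : ℝ :=
  (1 - th (32 * s - 1)) + (1 - (s - 1 / 64)) * (deriv th (32 * s - 1) * 32)

theorem SS_der (t : ℝ) : HasDerivAt SS ((3 - 3 * t ^ 2) / 2) t := by
  have h := (((hasDerivAt_id t).const_mul 3).sub (hasDerivAt_pow 3 t)).div_const 2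
  have h2 : HasDerivAt SS _ t := h
  convert h2 using 1
  simp

theorem ka_der (s : ℝ) : HasDerivAt ka (k1 s) s := by
  have h1 : HasDerivAt (fun a : ℝ => th (32 * a - 1)) (deriv th (32 * s - 1) * (32 * 1)) s :=
    (th_der (32 * s - 1)).comp s (((hasDerivAt_id s).const_mul 32).sub_const 1)
  have h2 := (((hasDerivAt_id s).sub_const (1 / 64)).mul (h1.const_sub 1)).add h1
  have h3 : HasDerivAt ka _ s := h2
  convert h3 using 1
  simp only [k1, id]
  ring

theorem k1_nonneg {s : ℝ} (h : s ≤ 1) : 0 ≤ k1 s := by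
  unfold k1
  have h1 := th_le_one (32 * s - 1)
  have h2 := dth_nonneg (32 * s - 1)
  have h3 : 0 ≤ (1 - (s - 1 / 64)) * (deriv th (32 * s - 1) * 32) :=
    mul_nonneg (by linarith) (by linarith)
  linarith

theorem k1_low {s : ℝ} (h : s ≤ 1 / 32) : k1 s = 1 := by
  unfold k1
  rw [th_zero (by linarith), dth_of_nonpos (by linarith)]; ring

theorem k1_high {s : ℝ} (h : 1 / 16 ≤ s) : k1 s = 0 := by
  unfold k1
  rw [th_one (by linarith), dth_of_one_le (by linarith)]; ring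

theorem s_d1 (e ξ τ : ℝ) : HasDerivAt (fun a => sM e a τ) (2 * (ξ / dl - e) / dl) ξ := by
  have h := ((((hasDerivAt_id ξ).div_const dl).sub_const e).pow 2).add_const (bb τ / dl)
  have h2 : HasDerivAt (fun a => sM e a τ) _ ξ := h
  convert h2 using 1
  simp only [id]
  norm_num
  ring

theorem s_d2 (e ξ τ : ℝ) : HasDerivAt (fun a => sM e ξ a) (sin τ / dl) τ :=
  ((bb_der τ).div_const dl).const_add ((ξ / dl - e) ^ 2)

theorem F_d1 (e ξ τ : ℝ) :
    HasDerivAt (fun a => FM e a τ) (e * e * ((3 - 3 * (ξ / dl) ^ 2) / 2)) ξ := by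
  have h0 : HasDerivAt (fun a : ℝ => SS (a / dl)) ((3 - 3 * (ξ / dl) ^ 2) / 2 * (1 / dl)) ξ :=
    HasDerivAt.comp (h := fun a : ℝ => a / dl) ξ (SS_der (ξ / dl))
      ((hasDerivAt_id ξ).div_const dl)
  have h := ((((h0.const_mul e).const_sub 1).const_mul dl).const_mul (-e)).sub_const (bb τ)
  have h2 : HasDerivAt (fun a => FM e a τ) _ ξ := h
  convert h2 using 1
  have := dl_pos.ne'
  field_simp

theorem F_d2 (e ξ τ : ℝ) : HasDerivAt (fun a => FM e ξ a) (-sin τ) τ :=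
  (bb_der τ).const_sub (-e * (dl * (1 - e * SS (ξ / dl))))

theorem k_d1 (e ξ τ : ℝ) :
    HasDerivAt (fun a => kM e a τ) (k1 (sM e ξ τ) * (2 * (ξ / dl - e) / dl)) ξ :=
  (ka_der (sM e ξ τ)).comp ξ (s_d1 e ξ τ)

theorem k_d2 (e ξ τ : ℝ) :
    HasDerivAt (fun a => kM e ξ a) (k1 (sM e ξ τ) * (sin τ / dl)) τ :=
  (ka_der (sM e ξ τ)).comp τ (s_d2 e ξ τ)

theorem br_eq (e ξ τ : ℝ) : br (FM e) (kM e) ξ τ =
    e * e * ((3 - 3 * (ξ / dl) ^ 2) / 2) * (k1 (sM e ξ τ) * (sin τ / dl)) -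
      -sin τ * (k1 (sM e ξ τ) * (2 * (ξ / dl - e) / dl)) := by
  unfold br d1 d2
  rw [(F_d1 e ξ τ).deriv, (F_d2 e ξ τ).deriv, (k_d1 e ξ τ).deriv, (k_d2 e ξ τ).deriv]

theorem pt_eq {e ξ τ : ℝ} (he : e = 1 ∨ e = -1) (h : sM e ξ τ < 1 / 9) (l L : ℝ) :
    ptM l L ξ τ = cM e l + kM e ξ τ * FM e ξ τ := by
  obtain ⟨-, -, h3, h4⟩ := tube he h l L
  have h5 : kM (-e) ξ τ = 1 := ka_one (by linarith)
  unfold ptM
  rw [h4]
  rcases he with rfl | rfl
  · rw [h5]; ring
  · rw [neg_neg] at h5; rw [h5]; ring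

theorem pt_d1 {e ξ τ : ℝ} (he : e = 1 ∨ e = -1) (h : sM e ξ τ < 1 / 9) (l L : ℝ) :
    d1 (ptM l L) ξ τ = k1 (sM e ξ τ) * (2 * (ξ / dl - e) / dl) * FM e ξ τ +
      kM e ξ τ * (e * e * ((3 - 3 * (ξ / dl) ^ 2) / 2)) := by
  have h1 : (fun a => ptM l L a τ) =ᶠ[𝓝 ξ] fun a => cM e l + kM e a τ * FM e a τ :=
    ((s_d1 e ξ τ).continuousAt.eventually_lt continuousAt_const h).mono
      fun a ha => pt_eq he ha l L
  unfold d1
  rw [h1.deriv_eq]
  exact (((k_d1 e ξ τ).mul (F_d1 e ξ τ)).const_add (cM e l)).deriv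

theorem pt_d2 {e ξ τ : ℝ} (he : e = 1 ∨ e = -1) (h : sM e ξ τ < 1 / 9) (l L : ℝ) :
    d2 (ptM l L) ξ τ = k1 (sM e ξ τ) * (sin τ / dl) * FM e ξ τ + kM e ξ τ * (-sin τ) := by
  have h1 : (fun a => ptM l L ξ a) =ᶠ[𝓝 τ] fun a => cM e l + kM e ξ a * FM e ξ a :=
    ((s_d2 e ξ τ).continuousAt.eventually_lt continuousAt_const h).mono
      fun a ha => pt_eq he ha l L
  unfold d2
  rw [h1.deriv_eq]
  exact (((k_d2 e ξ τ).mul (F_d2 e ξ τ)).const_add (cM e l)).deriv

theorem CM_eq {e ξ τ : ℝ} (he : e = 1 ∨ e = -1) (h : sM e ξ τ < 1 / 9) :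
    CM ξ τ = mu (sM e ξ τ) - br (FM e) (kM e) ξ τ := by
  obtain ⟨-, -, h3, -⟩ := tube he h 0 0
  have h5 : br (FM (-e)) (kM (-e)) ξ τ = 0 := by
    rw [br_eq, k1_high (by linarith)]; ring
  have h6 : mu (sM (-e) ξ τ) = 0 := mu_zero (by linarith)
  unfold CM muM
  rcases he with rfl | rfl
  · rw [h5, h6]; ring
  · rw [neg_neg] at h5 h6; rw [h5, h6]; ring

/-- The algebra: `t = ξ / dl`, `b = bb τ / dl`, `σ = sin τ`, `f = F / dl`. -/
theorem alg {e t b σ f k q m s : ℝ} (he : e = 1 ∨ e = -1) (ht : |t - e| < 1 / 3)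
    (hb : 0 ≤ b) (hσ : σ = 0 → b = 0) (hs : s = (t - e) ^ 2 + b)
    (hf : f = -e * (1 - e * ((3 * t - t ^ 3) / 2)) - b) (hq : 0 ≤ q)
    (h1 : s < 1 / 64 → k < 0 ∧ 0 < m) (h2 : s = 1 / 64 → k = 0 ∧ q = 1 ∧ m = 0)
    (h3 : 1 / 64 < s → 0 < k)
    (hA : q * (2 * (t - e)) * f + k * ((3 - 3 * t ^ 2) / 2) = 0)
    (hB : q * σ * f - k * σ = 0)
    (hC : m = q * σ * ((3 - 3 * t ^ 2) / 2 + 2 * (t - e))) : False := by
  have ht' := abs_lt.1 ht
  have hz : t = e → b = 0 → s = 0 := fun a b => by rw [hs, a, b]; ring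
  rcases lt_trichotomy s (1 / 64) with h | h | h
  · obtain ⟨hk, hm⟩ := h1 h
    have : k * m = 0 := by
      rw [hC]
      linear_combination (q * σ) * hA - (q * (2 * (t - e))) * hB
    have := mul_neg_of_neg_of_pos hk hm
    linarith
  · obtain ⟨hk, hq1, hm⟩ := h2 h
    rw [hk, hq1] at hA hB
    rw [hm, hq1] at hC
    have hte : t = e → False := fun a => by
      have hf' : f = -b := by
        rw [hf, a]; rcases he with rfl | rfl <;> ring
      have hb0 : b = 0 := by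
        by_cases h0 : σ = 0
        · exact hσ h0
        · have : f = 0 := by
            have h5 : σ * f = 0 := by linarith
            exact (mul_eq_zero.1 h5).resolve_left h0
          linarith
      have := hz a hb0
      linarith
    have hne : t - e ≠ 0 := fun a => hte (by linarith)
    have hf0 : f = 0 := by
      have h5 : (t - e) * f = 0 := by linarith
      exact (mul_eq_zero.1 h5).resolve_left hne
    have hσ0 : σ = 0 := by
      rcases he with rfl | rfl
      · have h5 : σ * ((t - 1) * (1 / 2 - 3 * t / 2)) = 0 := by linarith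
        exact (mul_eq_zero.1 h5).resolve_right (mul_ne_zero hne (by linarith))
      · have h5 : σ * ((t - -1) * (7 / 2 - 3 * t / 2)) = 0 := by linarith
        exact (mul_eq_zero.1 h5).resolve_right (mul_ne_zero hne (by linarith))
    have hb0 := hσ hσ0
    rw [hf0, hb0] at hf
    rcases he with rfl | rfl
    · have h5 : (t - 1) ^ 2 * (t + 2) = 0 := by linarith
      exact mul_ne_zero (pow_ne_zero 2 hne) (by linarith) h5
    · have h5 : (t - -1) ^ 2 * (2 - t) = 0 := by linarith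
      exact mul_ne_zero (pow_ne_zero 2 hne) (by linarith) h5
  · have hk := h3 h
    have hB' : σ * (q * f - k) = 0 := by linarith
    rcases he with rfl | rfl
    · have ha : 0 ≤ (t - 1) ^ 2 * (t + 2) := mul_nonneg (sq_nonneg _) (by linarith)
      have hf0 : f ≤ 0 := by linarith
      have hqf : q * f ≤ 0 := mul_nonpos_of_nonneg_of_nonpos hq hf0
      have hσ0 : σ = 0 := (mul_eq_zero.1 hB').resolve_right (by linarith)
      have h5 : (t - 1) * (2 * (q * f) - k * (3 / 2 * (1 + t))) = 0 := by linarith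
      have h6 : 0 < k * (3 / 2 * (1 + t)) := mul_pos hk (by linarith)
      have h7 : t - 1 = 0 := (mul_eq_zero.1 h5).resolve_right (by linarith)
      have := hz (by linarith) (hσ hσ0)
      linarith
    · have ha : 0 ≤ (t - -1) ^ 2 * (2 - t) := mul_nonneg (sq_nonneg _) (by linarith)
      have h5 : (t - -1) * (2 * (q * f) + k * (3 / 2 * (1 - t))) = 0 := by linarith
      have h6 : 0 < k * (3 / 2 * (1 - t)) := mul_pos hk (by linarith)
      rcases mul_eq_zero.1 hB' with h0 | h0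
      · have hb0 := hσ h0
        have hf0 : 0 ≤ f := by rw [hb0] at hf; linarith
        have hqf : 0 ≤ q * f := mul_nonneg hq hf0
        have h7 : t - -1 = 0 := (mul_eq_zero.1 h5).resolve_right (by linarith)
        have := hz (by linarith) hb0
        linarith
      · have h7 : t - -1 = 0 := (mul_eq_zero.1 h5).resolve_right (by linarith)
        have h8 : t = -1 := by linarith
        have hf0 : f ≤ 0 := by rw [hf, h8]; linarith
        have hqf : q * f ≤ 0 := mul_nonpos_of_nonneg_of_nonpos hq hf0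
        linarith

end NZBx

open NZBx in
theorem p_NZB :
    S_NZB := by
  intro e l L ξ τ he hτ hs hA hB hC
  obtain ⟨ht, -, -, -⟩ := tube he hs l L
  rw [pt_d1 he hs] at hA
  rw [pt_d2 he hs] at hB
  rw [CM_eq he hs, br_eq] at hC
  have hee : e * e = 1 := by rcases he with rfl | rfl <;> ring
  rw [hee] at hA hC
  have hd := dl_pos
  refine alg (e := e) (t := ξ / dl) (b := bb τ / dl) (σ := sin τ) (f := FM e ξ τ / dl)
    (k := kM e ξ τ) (q := k1 (sM e ξ τ)) (m := dl * mu (sM e ξ τ)) (s := sM e ξ τ) he ht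
    (div_nonneg (bb_nonneg τ) hd.le) ?_ rfl ?_ (k1_nonneg (by linarith)) ?_ ?_ (fun h => ka_pos h)
    ?_ ?_ ?_
  · intro h
    have h0 : τ = 0 := by
      by_contra h1
      exact sin_ne (by linarith) h1 h
    rw [h0]; simp [bb]
  · unfold FM SS
    generalize ξ / dl = t
    field_simp
  · intro h
    refine ⟨?_, mul_pos hd (mu_pos h)⟩
    unfold kM
    rw [ka_low (by linarith)]; linarith
  · intro h
    refine ⟨?_, k1_low (by linarith), ?_⟩
    · unfold kM
      rw [ka_low (by linarith)]; linarith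
    · rw [mu_zero (by linarith), mul_zero]
  · rw [← hA]
    generalize ξ / dl = t
    ring
  · rw [← hB]
    ring
  · have h1 : mu (sM e ξ τ) = 1 * ((3 - 3 * (ξ / dl) ^ 2) / 2) * (k1 (sM e ξ τ) * (sin τ / dl)) -
      -sin τ * (k1 (sM e ξ τ) * (2 * (ξ / dl - e) / dl)) := by linarith
    rw [h1]
    generalize ξ / dl = t
    field_simp
    ring

end Pool.Agent.P.MP_ff4c85_gt.T
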