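import Pool.Agent.P.MP_ff4c85_gt.T.Iface

/-! Step TH. -/

set_option autoImplicit false

namespace Pool.Agent.P.MP_ff4c85_gt.T

open Set Filter Topology Real
open scoped ContDiff Classical

namespace THx

theorem key {u w : ℝ} (hu : 2 ≤ u) (hw : w ≤ 2) (h0 : 0 ≤ w) :
    exp (-u) * exp (-w) * (u ^ 2 + w ^ 2) ≤ 8 * (exp (-u) + exp (-w)) ^ 2 := by
  have hA := exp_pos (-u)
  have hB := exp_pos (-w)
  have e : exp (-w) = exp (-u) * exp (u - w) := by rw [← exp_add]; congr 1; ring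
  have h1 := quadratic_le_exp_of_nonneg (show 0 ≤ u - 2 by linarith)
  have h2 : exp (u - 2) ≤ exp (u - w) := exp_le_exp.2 (by linarith)
  have h3 : u ^ 2 + w ^ 2 ≤ 8 * exp (u - w) := by nlinarith [sq_nonneg (u - 2)]
  have h4 : exp (-u) * exp (-w) * (u ^ 2 + w ^ 2) ≤ exp (-u) * exp (-w) * (8 * exp (u - w)) :=
    mul_le_mul_of_nonneg_left h3 (mul_pos hA hB).le
  have h5 : exp (-u) * exp (-w) * (8 * exp (u - w)) = 8 * exp (-w) ^ 2 := by
    rw [sq]; nth_rewrite 3 [e]; ring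
  nlinarith [mul_pos hA hB, sq_nonneg (exp (-u))]

theorem der {x : ℝ} (h0 : 0 < x) (h1 : x < 1) :
    deriv th x = exp (-x⁻¹) * exp (-(1 - x)⁻¹) * (x⁻¹ ^ 2 + (1 - x)⁻¹ ^ 2) /
      (exp (-x⁻¹) + exp (-(1 - x)⁻¹)) ^ 2 := by
  have e : th =ᶠ[𝓝 x] fun y => exp (-y⁻¹) / (exp (-y⁻¹) + exp (-(1 - y)⁻¹)) := by
    filter_upwards [Ioo_mem_nhds h0 h1] with y hy
    have a : ¬ y ≤ 0 := not_le.2 hy.1
    have b : ¬ 1 - y ≤ 0 := not_le.2 (sub_pos.2 hy.2)
    simp only [th, smoothTransition, expNegInvGlue, if_neg a, if_neg b]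
  have hx : (1 - x) ≠ 0 := (sub_pos.2 h1).ne'
  have d1 := ((hasDerivAt_inv h0.ne').neg).exp
  have d2 := ((((hasDerivAt_id x).const_sub 1).inv hx).neg).exp
  have hp : exp (-x⁻¹) + exp (-(1 - x)⁻¹) ≠ 0 := (add_pos (exp_pos _) (exp_pos _)).ne'
  have d3 := d1.div (d1.add d2) hp
  rw [e.deriv_eq]
  refine d3.deriv.trans ?_
  simp only [Pi.neg_apply, Pi.add_apply, Pi.inv_apply, id]
  congr 1
  rw [inv_pow, inv_pow]
  ring

end THx

theorem p_TH :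
    S_TH := by
  intro x
  rcases le_or_gt x 0 with h0 | h0
  · rw [dth_of_nonpos h0]; norm_num
  rcases le_or_gt 1 x with h1 | h1
  · rw [dth_of_one_le h1]; norm_num
  have h2 : 0 < 1 - x := sub_pos.2 h1
  rw [THx.der h0 h1, div_le_iff₀ (pow_pos (add_pos (exp_pos _) (exp_pos _)) 2)]
  rcases le_total x (1 / 2) with h | h
  · refine THx.key ?_ ?_ (inv_pos.2 h2).le
    · rw [le_inv_comm₀ two_pos h0]; linarith
    · rw [inv_le_comm₀ h2 two_pos]; linarith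
  · have := THx.key (u := (1 - x)⁻¹) (w := x⁻¹) (by rw [le_inv_comm₀ two_pos h2]; linarith)
      (by rw [inv_le_comm₀ h0 two_pos]; linarith) (inv_pos.2 h0).le
    linarith [this, mul_comm (exp (-x⁻¹)) (exp (-(1 - x)⁻¹))]

end Pool.Agent.P.MP_ff4c85_gt.T
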